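import Pool.Agent.LibDb3ab1.TiltStep

/-!
# The main theorem over the ring of integers
-/

set_option autoImplicit false
set_option linter.unusedSectionVars false
set_option linter.style.haveILetI false

noncomputable section

namespace Pool.Agent.LibDb3ab1

open MvPolynomial

universe u

theorem MH.sub {ι σ : Type} {R : Type*} [CommRing R] {W : ι → σ → ℕ} {P Q : MvPolynomial σ R}
    {a : ι → ℕ} (hP : MH W P a) (hQ : MH W Q a) : MH W (P - Q) a := by
  intro i m hm
  by_cases h : coeff m P = 0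
  · apply hQ i
    intro h0
    apply hm
    rw [coeff_sub, h, h0, sub_zero]
  · exact hP i h

theorem MH_X_inr {ι τ : Type} {n : ℕ} {R : Type*} [CommRing R] (W : ι → τ → ℕ) (e : ι → ℕ)
    (l : Fin (n + 1)) : MH (WW W e n) (X (Sum.inr l) : MvPolynomial (τ ⊕ Fin (n + 1)) R) e :=
  fun i => isWeightedHomogeneous_X R (WW W e n i) (Sum.inr l)

theorem MH.of_support {ι σ : Type} {A B : Type*} [CommRing A] [CommRing B] {W : ι → σ → ℕ}
    {f : MvPolynomial σ B} {F : MvPolynomial σ A} (h : ∀ I, coeff I f = 0 → coeff I F = 0)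
    {a : ι → ℕ} (hf : MH W f a) : MH W F a := by
  intro i I hI
  exact hf i fun h0 => hI (h I h0)

section sep

variable {O : Type u} [CommRing O] [IsDomain O] {p : ℕ} [Fact p.Prime]
  [Fact ¬IsUnit (p : O)] [IsAdicComplete (Ideal.span {(p : O)}) O] [ValuationRing O]

theorem exists_dvd_pow (a : O) (ha : a ≠ 0) : ∃ j : ℕ, a ∣ (p : O) ^ j := by
  by_contra hcon
  push Not at hcon
  apply ha
  apply eq_of_forall_dvd (p := p)
  intro j
  rw [sub_zero]
  exact (ValuationRing.dvd_total ((p : O) ^ j) a).resolve_right (hcon j)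

end sep

theorem pointRel_smul {K : Type u} [Field K] {n : ℕ} {L : Type u} [Field L] (ι : K →+* L)
    (V : ValuationSubring L) (x : Fin (n + 1) → L) (c : L) (hc : c ≠ 0) :
    pointRel ι V (fun l => c * x l) = pointRel ι V x := by
  have key : ∀ (d : ℕ) (F : MvPolynomial (Fin (n + 1)) K), F.IsHomogeneous d →
      eval₂ ι (fun l => c * x l) F = c ^ d * eval₂ ι x F := by
    intro d F hF
    have h1 : MH (fun (_ : Fin 1) (_ : Fin (n + 1)) => 1) F (fun _ => d) := fun _ => hF
    have h2 := eval₂_act h1 ι (fun _ => c) x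
    have h3 : act (fun (_ : Fin 1) (_ : Fin (n + 1)) => 1) (fun _ => c) x = fun l => c * x l := by
      funext l
      simp [act, chr]
    rw [h3] at h2
    rw [h2]
    simp [chr]
  ext ⟨F, G⟩
  have h0 : ∀ d : ℕ, 0 < V.valuation (c ^ d) := by
    intro d
    rw [zero_lt_iff, Ne, map_eq_zero]
    exact pow_ne_zero d hc
  constructor
  · rintro ⟨d, hF, hG, h⟩
    refine ⟨d, hF, hG, ?_⟩
    simp only [key d F hF, key d G hG, map_mul] at h
    exact (mul_le_mul_iff_right₀ (h0 d)).mp h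
  · rintro ⟨d, hF, hG, h⟩
    refine ⟨d, hF, hG, ?_⟩
    simp only [key d F hF, key d G hG, map_mul]
    exact (mul_le_mul_iff_right₀ (h0 d)).mpr h

/-- Clearing denominators over a fraction ring. -/
theorem exists_clear {A Q : Type u} [CommRing A] [Field Q] [Algebra A Q] [IsFractionRing A Q]
    {σ : Type} (H : MvPolynomial σ Q) :
    ∃ (b : A) (H' : MvPolynomial σ A), b ∈ nonZeroDivisors A ∧
      MvPolynomial.map (algebraMap A Q) H' = C (algebraMap A Q b) * H := by
  classical
  obtain ⟨b, hb⟩ := IsLocalization.exist_integer_multiples_of_finset (nonZeroDivisors A)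
    (H.support.image (fun I => coeff I H) : Finset Q)
  have hH : ∀ I ∈ H.support, IsLocalization.IsInteger A ((b : A) • coeff I H) :=
    fun I hI => hb _ (Finset.mem_image_of_mem _ hI)
  choose! c hc using hH
  refine ⟨b, ∑ I ∈ H.support, monomial I (c I), b.2, ?_⟩
  rw [map_sum]
  conv_rhs => rw [H.as_sum, Finset.mul_sum]
  apply Finset.sum_congr rfl
  intro I hI
  rw [map_monomial, C_mul_monomial, hc I hI, Algebra.smul_def]

/-- Vanishing of an ideal at a point, tested on integral polynomials. -/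
theorem eval_zero_of_integral {A Q A' Q' : Type u} [CommRing A] [Nontrivial A] [Field Q]
    [Algebra A Q]
    [IsFractionRing A Q] [CommRing A'] [Field Q'] [Algebra A' Q'] {σ : Type}
    (𝔓 : Ideal (MvPolynomial σ Q)) (f : A →+* A') (ψ : Q →+* Q')
    (hψ : ψ.comp (algebraMap A Q) = (algebraMap A' Q').comp f) (y : σ → A')
    (h : ∀ F : MvPolynomial σ A, MvPolynomial.map (algebraMap A Q) F ∈ 𝔓 → eval₂ f y F = 0)
    (F : MvPolynomial σ Q) (hF : F ∈ 𝔓) :
    eval₂ ψ (fun l => algebraMap A' Q' (y l)) F = 0 := by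
  obtain ⟨b, F', hb, hF'⟩ := exists_clear (A := A) F
  have h1 : eval₂ f y F' = 0 := h F' (by rw [hF']; exact Ideal.mul_mem_left _ _ hF)
  have h2 : eval₂ ψ (fun l => algebraMap A' Q' (y l)) (MvPolynomial.map (algebraMap A Q) F') =
      0 := by
    rw [eval₂_map, hψ, ← map_zero (algebraMap A' Q'), ← h1, hom_eval₂]
  rw [hF', eval₂_mul, eval₂_C] at h2
  refine (mul_eq_zero.mp h2).resolve_left fun h3 => ?_
  exact IsFractionRing.to_map_ne_zero_of_mem_nonZeroDivisors hb ((map_eq_zero ψ).mp h3)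

theorem exists_lift_hom {A Q A' Q' : Type u} [CommRing A] [Field Q] [Algebra A Q]
    [IsFractionRing A Q] [CommRing A'] [IsDomain A'] [Field Q'] [Algebra A' Q']
    [IsFractionRing A' Q'] (f : A →+* A') (hf : Function.Injective f) :
    ∃ ψ : Q →+* Q', ψ.comp (algebraMap A Q) = (algebraMap A' Q').comp f := by
  have hinj : Function.Injective ((algebraMap A' Q').comp f) := by
    rw [RingHom.coe_comp]
    exact (IsFractionRing.injective A' Q').comp hf
  refine ⟨IsFractionRing.lift hinj, ?_⟩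
  ext a
  exact IsFractionRing.lift_algebraMap hinj a

/-- A bound for the certificates. -/
theorem exists_bound {α : Type} [Finite α] (Q : α → Prop) (R : α → ℕ → Prop)
    (h : ∀ a, Q a → ∃ c, R a c) : ∃ M, ∀ a, Q a → ∃ c < M, R a c := by
  classical
  choose c hc using fun a : α => (Classical.em (Q a)).elim
    (fun hq => (h a hq).imp fun c hc => (fun _ => hc : Q a → R a c))
    (fun hq => ⟨0, fun h' => absurd h' hq⟩)
  obtain ⟨B, hB⟩ := (Set.finite_range c).bddAbove
  exact ⟨B + 1, fun a ha => ⟨c a, Nat.lt_succ_of_le (hB ⟨a, rfl⟩), hc a ha⟩⟩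

section main

variable {K : Type u} [Field K] {O : ValuationSubring K} {p : ℕ} [Fact p.Prime]
  [Fact ¬IsUnit (p : O)] [IsAdicComplete (Ideal.span {(p : O)}) O]
variable {s d : ℕ} {τ : Type} {n : ℕ} [Finite τ]
variable {grp : τ → Fin s} {W : Fin s → τ → ℕ} {e : Fin s → ℕ} {J : Type} {o : Fin s → τ}

set_option maxHeartbeats 800000 in
theorem main_O (hp0 : (p : K) ≠ 0) (hr : ∀ x : O, ¬IsUnit x → ∃ n : ℕ, (p : O) ∣ x ^ n)
    (hnd : ∃ x : O, ¬IsUnit x ∧ ¬(p : O) ∣ x)
    (hFrob : Function.Surjective (frobenius (ModP O p) p))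
    (hT : Tri grp W) (ho : ∀ i, grp (o i) = i) (he : 0 < ∑ i, e i)
    (F : J → MvPolynomial τ O) {DF : J → Fin s → ℕ} (hF : ∀ j, MH W (F j) (DF j))
    (φ : Fin (n + 1) → MvPolynomial τ O) (hφ : ∀ l, MH W (φ l) e)
    (β : {v : τ // v ≠ o (grp v)} ≃ J ⊕ Fin d)
    {m : {v : τ // v ≠ o (grp v)} → ℕ} (hm : ∀ v, 0 < m v)
    {b : {v : τ // v ≠ o (grp v)} → Fin s → ℕ}
    (hmb : ∀ (v : {v : τ // v ≠ o (grp v)}) (i : Fin s), m v * W i v + ∑ i', b v i' * W i (o i') =
      Sum.elim DF (fun _ => e) (β v) i)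
    (I : Ideal (MvPolynomial (Fin (n + 1)) K))
    (hno : ∀ z : τ → AlgebraicClosure K, Rel grp z → (∀ j, aeval z (map O.subtype (F j)) = 0) →
      ∃ l, aeval z (map O.subtype (φ l)) ≠ 0)
    (hX : ∀ z : τ → AlgebraicClosure K, Rel grp z → (∀ j, aeval z (map O.subtype (F j)) = 0) →
      ∀ P ∈ I, ∀ d, P.IsHomogeneous d → aeval (fun l => aeval z (map O.subtype (φ l))) P = 0)
    (U : Set (AdicProj O n)) (hU : IsOpen U) (hIU : adicLocus O I ⊆ U) :
    ∃ 𝔓 : Ideal (MvPolynomial (Fin (n + 1)) (FractionRing (PreTilt O p))), 𝔓.IsPrime ∧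
      (∀ F ∈ 𝔓, ∀ m, homogeneousComponent m F ∈ 𝔓) ∧
      ringKrullDim (MvPolynomial (Fin (n + 1)) (FractionRing (PreTilt O p)) ⧸ 𝔓) = (d + 1 : ℕ) ∧
      TiltInside p O 𝔓 U := by
  classical
  have hp0O : (p : O) ≠ 0 := by
    intro h
    apply hp0
    have := congrArg O.subtype h
    rwa [map_natCast, map_zero] at this
  have hpu : ¬IsUnit (p : O) := Fact.out
  -- the elements of the tilt
  obtain ⟨ϖ, u, hu, hϖ⟩ := exists_varpi hp0O hr hnd hFrob
  obtain ⟨υ, ξ, hυ, hξ, hθ, -⟩ := exists_xi hFrob hu hϖ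
  have hϖ0 : ϖ ≠ 0 := by
    rintro rfl
    rw [untilt_zero, mul_zero] at hϖ
    exact hp0O hϖ
  have hϖu : ¬IsUnit ϖ := by
    intro h
    apply hpu
    rw [hϖ]
    exact hu.mul (isUnit_untilt.mpr h)
  have hsep : ∀ a : O, a ≠ 0 → ∃ j : ℕ, a ∣ (p : O) ^ j := exists_dvd_pow
  have hWpos : ∀ v, 0 < ∑ i, W i v := hT.sum_pos
  have he' : ∃ i, 0 < e i := by
    by_contra h
    push Not at h
    have : ∑ i, e i = 0 := Finset.sum_eq_zero fun i _ => Nat.le_zero.mp (h i)
    omega
  have hDFpos : ∀ j, ∃ i, 0 < DF j i := by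
    intro j
    obtain ⟨v, hv⟩ : ∃ v, β v = Sum.inl j := ⟨β.symm (Sum.inl j), β.apply_symm_apply _⟩
    refine ⟨grp v, ?_⟩
    have h1 := hmb v (grp v)
    rw [hv] at h1
    simp only [Sum.elim_inl] at h1
    rw [← h1]
    have h2 : 0 < m v * W (grp v) v := Nat.mul_pos (hm v) (hT.pos v)
    omega
  -- certificates
  obtain ⟨M₁, hM₁⟩ := exists_bound (fun v : Fin s → τ => ∀ i, grp (v i) = i)
    (fun v c => (p : MvPolynomial τ O) ^ c ∈ Ideal.span (Set.range F ∪ Set.range φ ∪
      Set.range (fun i => (X (v i) - 1 : MvPolynomial τ O)))) (by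
    intro v hv
    apply exists_certificate hsep
    intro z hz
    have h1 : Rel grp z := by
      intro i
      refine ⟨v i, hv i, ?_⟩
      have h2 := hz _ (Or.inr ⟨i, rfl⟩)
      simp only [map_sub, map_X, map_one, aeval_X, sub_eq_zero] at h2
      rw [h2]
      exact one_ne_zero
    obtain ⟨l, hl⟩ := hno z h1 fun j => hz _ (Or.inl (Or.inl ⟨j, rfl⟩))
    exact hl (hz _ (Or.inl (Or.inr ⟨l, rfl⟩))))
  -- compactness
  obtain ⟨M₂, hM₂⟩ := compact_tube hp0 hpu hsep grp F φ U hU
    (fun L _ ι V hV z v hv hz hFz => limit_mem F φ I U hIU hno hX L ι V hV z v hv hz hFz)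
  set M := max M₁ M₂ with hM
  -- lifts
  have hsurj := surjective_fontaineTheta (R := O) (p := p) hFrob
  choose Ft hFt1 hFt2 using fun j => exists_lift_poly (WittVector.fontaineTheta O p) hsurj (F j)
  choose φt hφt1 hφt2 using fun l => exists_lift_poly (WittVector.fontaineTheta O p) hsurj (φ l)
  have hFtH : ∀ j, MH W (Ft j) (DF j) := fun j => (hF j).of_support (hFt2 j)
  have hφtH : ∀ l, MH W (φt l) e := fun l => (hφ l).of_support (hφt2 l)
  -- approximations
  choose JF F' hF'1 hF'2 hF'3 using fun j =>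
    approx_witt (κ := Fin s) (w := W) (e := DF j) (hDFpos j) hξ (hFtH j) M
  have hfH : ∀ l : Fin (n + 1), MH (WW W e n) (X (Sum.inr l) - rename Sum.inl (φt l)) e :=
    fun l => (MH_X_inr W e l).sub (hφtH l).rename_inl
  choose JG G hG1 hG2 hG3 using fun l =>
    approx_witt (κ := Fin s) (w := WW W e n) (e := e) he' hξ (hfH l) M
  choose N ω T hω hGT using hG2
  have hωu : ∀ l, ¬IsUnit (ω l) := by
    intro l h
    apply hϖu
    rw [← hω l]
    exact h.pow _
  let φ0 : Fin (n + 1) → MvPolynomial τ (PreTilt O p) :=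
    fun l => MvPolynomial.map WittVector.constantCoeff (φt l)
  have hφ0 : ∀ l, MH W (φ0 l) e := fun l => (hφtH l).map _
  have hGT' : ∀ l, G l = (X (Sum.inr l) - rename Sum.inl (φ0 l)) ^ p ^ JG l + C (ω l) * T l := by
    intro l
    rw [hGT l, map_sub, map_X, map_rename]
  -- the field `K♭`
  have hinjk : Function.Injective (algebraMap (PreTilt O p) (FractionRing (PreTilt O p))) :=
    IsFractionRing.injective _ _
  let κ : PreTilt O p →+* FractionRing (PreTilt O p) :=
    algebraMap (PreTilt O p) (FractionRing (PreTilt O p))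
  let sc : J ⊕ Fin d → ℕ := Sum.elim (fun j => p ^ JF j) (fun _ => 1)
  have hsc : ∀ a, 0 < sc a := by
    rintro (j | j)
    · exact pow_pos (Fact.out : p.Prime).pos _
    · exact Nat.one_pos
  have hFk : ∀ j, MH W (MvPolynomial.map κ (F' j)) (fun i => DF j i * p ^ JF j) :=
    fun j => MH.map (fun i => hF'1 j i) _
  have hGk : ∀ l, MH (WW W e n) (MvPolynomial.map κ (G l)) (fun i => e i * p ^ JG l) :=
    fun l => MH.map (fun i => hG1 l i) _
  have hmb' : ∀ (v : {v : τ // v ≠ o (grp v)}) (i : Fin s),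
      m v * sc (β v) * W i v + ∑ i', b v i' * sc (β v) * W i (o i') =
      Sum.elim (fun j i => DF j i * p ^ JF j) (fun _ => e) (β v) i := by
    intro v i
    have h1 : m v * sc (β v) * W i v + ∑ i', b v i' * sc (β v) * W i (o i') =
        (m v * W i v + ∑ i', b v i' * W i (o i')) * sc (β v) := by
      rw [add_mul, Finset.sum_mul]
      congr 1
      · ring
      · apply Finset.sum_congr rfl
        intro i' _
        ring
    rw [h1, hmb v i]
    rcases β v with j | j
    · rfl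
    · simp [sc]
  have hP2 : ∀ (E : Type u) [Field E] (f : FractionRing (PreTilt O p) →+* E)
      (x : Fin (n + 1) → E),
      (∀ l, eval₂ f (Sum.elim 0 x) (MvPolynomial.map κ (G l)) = 0) → x = 0 := by
    intro E _ f x hx
    have hinj : Function.Injective (f.comp κ) := by
      rw [RingHom.coe_comp]
      exact f.injective.comp hinjk
    exact bad_P2 G (fun l => hG1 l) he φ0 hφ0 hωu T hGT' (f.comp κ) hinj x
      (fun l => by rw [← eval₂_map]; exact hx l)
  have hP3 : ∀ (E : Type u) [Field E] (f : FractionRing (PreTilt O p) →+* E) (z : τ → E),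
      Rel grp z → (∀ j, eval₂ f z (MvPolynomial.map κ (F' j)) = 0) →
      (∀ l, eval₂ f (Sum.elim z 0) (MvPolynomial.map κ (G l)) = 0) → False := by
    intro E _ f z hz hFz hGz
    have hinj : Function.Injective (f.comp κ) := by
      rw [RingHom.coe_comp]
      exact f.injective.comp hinjk
    refine bad_P3 hT hp0O hFrob hϖ hϖ0 hϖu hυ hξ hθ (m := M) Ft φt ?_ F' (fun j => hF'1 j) G
      (fun l => hG1 l) hF'3 hG3 (f.comp κ) hinj z hz
      (fun j => by rw [← eval₂_map]; exact hFz j) (fun l => by rw [← eval₂_map]; exact hGz l)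
    intro v hv
    obtain ⟨c0, hc0, hcert⟩ := hM₁ v hv
    refine ⟨c0, lt_of_lt_of_le hc0 (le_max_left _ _), ?_⟩
    have e1 : (fun j => MvPolynomial.map (WittVector.fontaineTheta O p) (Ft j)) = F :=
      funext hFt1
    have e2 : (fun l => MvPolynomial.map (WittVector.fontaineTheta O p) (φt l)) = φ :=
      funext hφt1
    rw [e1, e2]
    exact hcert
  obtain ⟨𝔓, h𝔓1, h𝔓2, h𝔓3, h𝔓4⟩ := exists_Y (k := FractionRing (PreTilt O p)) (d := d) hT he ho
    (fun j => MvPolynomial.map κ (F' j)) hFk (fun l => MvPolynomial.map κ (G l))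
    (q := fun l => p ^ JG l) (fun l => pow_pos (Fact.out : p.Prime).pos _) hGk β
    (m := fun v => m v * sc (β v)) (fun v => Nat.mul_pos (hm v) (hsc _))
    (b := fun v i => b v i * sc (β v)) hmb' hP2 hP3
  refine ⟨𝔓, h𝔓1, h𝔓2, h𝔓3, ?_⟩
  intro C' _ _ ι V hV _ _ y hy hyP
  have hp0V : (p : V) ≠ 0 := hV.p_ne_zero hp0
  have hϖV : (p : V) = hV.incl u * PreTilt.untilt (tmap hV.incl ϖ) := by
    rw [untilt_tmap, ← map_mul, ← hϖ, map_natCast]
  haveI : IsAlgClosed (FractionRing (PreTilt V p)) := tilt_isAlgClosed V (hu.map _) hp0V hϖV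
  have hinjV : Function.Injective (algebraMap (PreTilt V p) (FractionRing (PreTilt V p))) :=
    IsFractionRing.injective _ _
  have hinjt : Function.Injective (tmap (p := p) hV.incl) := by
    rw [injective_iff_map_eq_zero]
    intro a ha
    have h1 : hV.incl (PreTilt.untilt a) = 0 := by
      rw [← untilt_tmap, ha, untilt_zero]
    apply eq_zero_of_untilt
    have h2 : ι ((PreTilt.untilt a : O) : K) = 0 := congrArg Subtype.val h1
    exact Subtype.ext ((map_eq_zero ι).mp h2)
  obtain ⟨ψ, hψκ⟩ := exists_lift_hom (Q := FractionRing (PreTilt O p))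
    (Q' := FractionRing (PreTilt V p)) (tmap (p := p) hV.incl) hinjt
  obtain ⟨z, c, hc, hz, hFz, hGz⟩ := h𝔓4 (FractionRing (PreTilt V p)) ψ
    (fun l => algebraMap (PreTilt V p) (FractionRing (PreTilt V p)) (y l)) (by
      intro h0
      apply hy
      funext l
      apply hinjV
      rw [Pi.zero_apply, map_zero]
      exact congrFun h0 l)
    (eval_zero_of_integral 𝔓 (tmap hV.incl) ψ hψκ y hyP)
  obtain ⟨z', x', v, c', hc', hv, hz', hF', hx', hxy⟩ := tilt_step hT hWpos he hu hϖ hθ (m := M)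
    Ft φt F' (fun j => hF'1 j) G (fun l => hG1 l) φ0 hφ0 hωu T hGT' hF'3 hG3 ι V hp0V hV y
    (ψ := ψ.comp κ) hψκ z c hc hz
    (fun j => by rw [← eval₂_map]; exact hFz j)
    (fun l => by rw [← eval₂_map]; exact hGz l)
  have hx'0 : x' ≠ 0 := by
    intro h0
    apply hy
    funext l
    have h1 := hxy l
    rw [h0, Pi.zero_apply] at h1
    have h2 := (mul_eq_zero.mp h1.symm).resolve_left hc'
    exact eq_zero_of_untilt (Subtype.ext h2)
  obtain ⟨a, haU, ha⟩ := hM₂ C' ι V hV z' x' v hv hz'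
    (fun j => by
      have h1 := hF' j
      rw [hFt1] at h1
      exact (pow_dvd_pow _ (le_max_right _ _)).trans h1)
    (fun l => by
      have h1 := hx' l
      rw [hφt1] at h1
      exact (pow_dvd_pow _ (le_max_right _ _)).trans h1) hx'0
  refine ⟨a, haU, ?_⟩
  rw [ha, ← pointRel_smul ι V (fun l => ((PreTilt.untilt (y l) : V) : C')) c' hc']
  congr 1
  funext l
  exact hxy l

end main

end Pool.Agent.LibDb3ab1
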