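import Pool.Agent.LibDb3ab1.Tilt

/-!
# Approximation of polynomials over the ring of integers by polynomials over the tilt
-/

set_option autoImplicit false
set_option linter.unusedSectionVars false
set_option linter.style.haveILetI false

noncomputable section

namespace Pool.Agent.LibDb3ab1

open WittVector

universe u

section formal

variable {p : ℕ} [Fact p.Prime] {R : Type u} [CommRing R] [CharP R p] [PerfectRing R p]
variable {σ : Type}

/-- The Witt vector attached to a polynomial with Witt vector coefficients. -/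
def tpoly (f : MvPolynomial σ (WittVector p R)) : WittVector p (PP p R σ) :=
  MvPolynomial.eval₂ (WittVector.map (cst σ)) (fun i => teichmuller p (var i)) f

theorem map_ev_tpoly {L : Type*} [CommRing L] [CharP L p] [PerfectRing L p] (φ : R →+* L)
    (y : σ → L) (f : MvPolynomial σ (WittVector p R)) :
    WittVector.map (ev φ y) (tpoly f) =
      MvPolynomial.eval₂ (WittVector.map φ) (fun i => teichmuller p (y i)) f := by
  rw [tpoly, MvPolynomial.hom_eval₂]
  congr 1
  · ext x n
    simp [WittVector.map_coeff]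
  · funext i
    simp

theorem WH_tpoly {w : σ → ℕ} {e : ℕ} {f : MvPolynomial σ (WittVector p R)}
    (hf : MvPolynomial.IsWeightedHomogeneous w f e) : WH w e (tpoly f) := by
  intro L _ _ _ φ y l
  rw [map_ev_tpoly, map_ev_tpoly, map_pow, ← eval₂_weighted hf]
  congr 1
  funext i
  rw [map_mul, map_pow]

theorem coeff_zero_tpoly (f : MvPolynomial σ (WittVector p R)) :
    (tpoly f).coeff 0 = PerfectClosure.of _ p (MvPolynomial.map WittVector.constantCoeff f) := by
  change WittVector.constantCoeff (tpoly f) = _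
  rw [tpoly, MvPolynomial.hom_eval₂]
  have h : ∀ g : MvPolynomial σ R, PerfectClosure.of (MvPolynomial σ R) p g =
      MvPolynomial.eval₂ (cst σ) (var (p := p)) g := by
    intro g
    have : (PerfectClosure.of (MvPolynomial σ R) p) = MvPolynomial.eval₂Hom (cst σ) var := by
      apply MvPolynomial.ringHom_ext
      · intro r; simp [cst]
      · intro i; simp [var]
    rw [this]; rfl
  rw [h, MvPolynomial.eval₂_map]
  congr 1

end formal

section lift

variable {σ : Type} {A B : Type*} [CommRing A] [CommRing B]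

/-- Lifting a polynomial along a surjective map, keeping the support. -/
theorem exists_lift_poly (θ : A →+* B) (hθ : Function.Surjective θ) (f : MvPolynomial σ B) :
    ∃ F : MvPolynomial σ A, MvPolynomial.map θ F = f ∧
      ∀ I, f.coeff I = 0 → F.coeff I = 0 := by
  classical
  obtain ⟨g, hg⟩ := hθ.hasRightInverse
  refine ⟨∑ I ∈ f.support, MvPolynomial.monomial I (g (f.coeff I)), ?_, ?_⟩
  · rw [map_sum]
    conv_rhs => rw [f.as_sum]
    apply Finset.sum_congr rfl
    intro I _
    rw [MvPolynomial.map_monomial, hg]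
  · intro I hI
    rw [MvPolynomial.coeff_sum]
    apply Finset.sum_eq_zero
    intro J hJ
    rw [MvPolynomial.coeff_monomial, if_neg]
    rintro rfl
    exact (MvPolynomial.mem_support_iff.mp hJ) hI

theorem lift_homogeneous {f : MvPolynomial σ B} {F : MvPolynomial σ A}
    (h : ∀ I, f.coeff I = 0 → F.coeff I = 0) {w : σ → ℕ} {e : ℕ}
    (hf : MvPolynomial.IsWeightedHomogeneous w f e) : MvPolynomial.IsWeightedHomogeneous w F e := by
  intro I hI
  exact hf fun h0 => hI (h I h0)

end lift

section tilt

variable {O : Type u} [CommRing O] [IsDomain O] {p : ℕ} [Fact p.Prime]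
  [Fact ¬IsUnit (p : O)] [IsAdicComplete (Ideal.span {(p : O)}) O] [ValuationRing O]
variable {σ : Type} {κ : Type}

/-- The approximation lemma, for polynomials with Witt vector coefficients. -/
theorem approx_witt {w : κ → σ → ℕ} {e : κ → ℕ} (hk : ∃ k, 0 < e k) {ϖ : PreTilt O p}
    {υ ξ : WittVector p (PreTilt O p)}
    (hξ : (p : WittVector p (PreTilt O p)) = ξ + υ * teichmuller p ϖ)
    {F : MvPolynomial σ (WittVector p (PreTilt O p))}
    (hF : ∀ k, MvPolynomial.IsWeightedHomogeneous (w k) F (e k)) (m : ℕ) :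
    ∃ (J : ℕ) (G : MvPolynomial σ (PreTilt O p)),
      (∀ k, MvPolynomial.IsWeightedHomogeneous (w k) G (e k * p ^ J)) ∧
      (∃ (N : ℕ) (ω' : PreTilt O p) (T : MvPolynomial σ (PreTilt O p)), ω' ^ p ^ N = ϖ ∧
        G = (MvPolynomial.map WittVector.constantCoeff F) ^ p ^ J + MvPolynomial.C ω' * T) ∧
      ∀ (L : Type u) [CommRing L] [IsDomain L] [CharP L p] [PerfectRing L p]
        (φ : PreTilt O p →+* L) (_ : φ ϖ ≠ 0) (y : σ → L), MvPolynomial.eval₂ φ y G = 0 →
        ∃ c d : WittVector p L,
          MvPolynomial.eval₂ (WittVector.map φ) (fun i => teichmuller p (y i)) F =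
          teichmuller p (φ ϖ) ^ m * d + WittVector.map φ ξ * c := by
  obtain ⟨J, G, h1, h2, h3⟩ := approx_formal (w := w) (e := e) hk hξ (F := tpoly F)
    (fun k => WH_tpoly (hF k)) (coeff_zero_tpoly F) m
  refine ⟨J, G, h1, h2, ?_⟩
  intro L _ _ _ _ φ hφ y hy
  obtain ⟨c, d, h⟩ := h3 L φ hφ y hy
  refine ⟨c, d, ?_⟩
  rw [← h, map_ev_tpoly]

variable {O' : Type u} [CommRing O'] [IsDomain O'] [Fact ¬IsUnit (p : O')]
  [IsAdicComplete (Ideal.span {(p : O')}) O']

theorem theta_eval (f : O →+* O') (y : σ → PreTilt O' p)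
    (F : MvPolynomial σ (WittVector p (PreTilt O p))) :
    fontaineTheta O' p (MvPolynomial.eval₂ (WittVector.map (tmap f))
      (fun i => teichmuller p (y i)) F) =
      MvPolynomial.eval₂ f (fun i => PreTilt.untilt (y i))
        (MvPolynomial.map (fontaineTheta O p) F) := by
  rw [MvPolynomial.hom_eval₂, MvPolynomial.eval₂_map]
  congr 1
  · ext x
    simp only [RingHom.comp_apply]
    exact theta_map f x
  · funext i
    simp only [fontaineTheta_teichmuller]

/-- Consequence of a formal approximation for the values over `O'`. -/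
theorem dvd_of_witt (f : O →+* O') {ϖ : PreTilt O p} {u : O} (hϖ : (p : O) = u * PreTilt.untilt ϖ)
    (hu : IsUnit u) {ξ : WittVector p (PreTilt O p)} (hθ : fontaineTheta O p ξ = 0)
    (y : σ → PreTilt O' p) (F : MvPolynomial σ (WittVector p (PreTilt O p))) (m : ℕ)
    (h : ∃ c d : WittVector p (PreTilt O' p),
      MvPolynomial.eval₂ (WittVector.map (tmap f)) (fun i => teichmuller p (y i)) F =
          teichmuller p (tmap f ϖ) ^ m * d + WittVector.map (tmap f) ξ * c) :
    (p : O') ^ m ∣ MvPolynomial.eval₂ f (fun i => PreTilt.untilt (y i))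
        (MvPolynomial.map (fontaineTheta O p) F) := by
  obtain ⟨c, d, h⟩ := h
  rw [← theta_eval, h, map_add, map_mul, map_mul, map_pow, fontaineTheta_teichmuller, theta_map,
    hθ, map_zero, zero_mul, add_zero, untilt_tmap]
  apply Dvd.dvd.mul_right
  apply pow_dvd_pow_of_dvd
  obtain ⟨U, rfl⟩ := hu
  refine ⟨f (U⁻¹ : Oˣ), ?_⟩
  rw [← map_natCast f, ← map_mul, hϖ, mul_comm (U : O), mul_assoc, Units.mul_inv, mul_one]

end tilt

end Pool.Agent.LibDb3ab1
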