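import Pool.Agent.LibDb3ab1.MainAlg
import Pool.Agent.LibDb3ab1.ApproxPoly

/-!
# Absence of bad points
-/

set_option autoImplicit false
set_option linter.unusedSectionVars false
set_option linter.style.haveILetI false

noncomputable section

namespace Pool.Agent.LibDb3ab1

universe u

open MvPolynomial

section witt

variable {p : ℕ} [Fact p.Prime] {Λ : Type u} [CommRing Λ] [IsDomain Λ] [CharP Λ p]
  [PerfectRing Λ p]

theorem teich_dvd_of_p_mul {ϖ : Λ} (hϖ0 : ϖ ≠ 0) {c g : WittVector p Λ}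
    (h : (p : WittVector p Λ) * c = WittVector.teichmuller p ϖ * g) :
    ∃ g', c = WittVector.teichmuller p ϖ * g' := by
  have h1 := congrArg WittVector.constantCoeff h
  rw [map_mul, map_mul, map_natCast, CharP.cast_eq_zero, zero_mul,
    WittVector.constantCoeff_apply, WittVector.teichmuller_coeff_zero,
    WittVector.constantCoeff_apply] at h1
  have h2 : g.coeff 0 = 0 := (mul_eq_zero.mp h1.symm).resolve_left hϖ0
  obtain ⟨g', hg'⟩ := exists_p_mul g h2
  refine ⟨g', ?_⟩
  rw [← sub_eq_zero]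
  apply WittVector.eq_zero_of_p_mul_eq_zero
  rw [hg'] at h
  linear_combination h

theorem cancel_teich {ϖ : Λ} (hϖ0 : ϖ ≠ 0) {υ ξ : WittVector p Λ}
    (hξ : (p : WittVector p Λ) = ξ + υ * WittVector.teichmuller p ϖ) (a : ℕ)
    (U c : WittVector p Λ) (h : WittVector.teichmuller p ϖ ^ a * U = ξ * c) :
    ∃ c', U = ξ * c' := by
  induction a generalizing c with
  | zero => exact ⟨c, by rw [pow_zero, one_mul] at h; exact h⟩
  | succ a ih =>
    obtain ⟨c', hc'⟩ := teich_dvd_of_p_mul hϖ0 (c := c)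
      (g := WittVector.teichmuller p ϖ ^ a * U + υ * c) (by
        rw [pow_succ] at h
        linear_combination c * hξ - h)
    apply ih c'
    have hT : WittVector.teichmuller p ϖ ≠ 0 := by
      intro h0
      apply hϖ0
      have := congrArg WittVector.constantCoeff h0
      rwa [WittVector.constantCoeff_apply, WittVector.teichmuller_coeff_zero, map_zero] at this
    apply mul_left_cancel₀ hT
    rw [pow_succ, hc'] at h
    linear_combination h

theorem witt_contradiction [IsLocalRing Λ] {ϖ : Λ} (hϖ0 : ϖ ≠ 0) (hϖ : ¬IsUnit ϖ)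
    {υ ξ : WittVector p Λ} (hυ : IsUnit (υ.coeff 0))
    (hξ : (p : WittVector p Λ) = ξ + υ * WittVector.teichmuller p ϖ) {c0 m : ℕ} (hm : c0 < m)
    (c d : WittVector p Λ)
    (h : (p : WittVector p Λ) ^ c0 = WittVector.teichmuller p ϖ ^ m * d + ξ * c) : False := by
  set T := WittVector.teichmuller p ϖ with hT
  -- `p ^ c0 = (υ T) ^ c0 + ξ c₁`
  obtain ⟨c₁, hc₁⟩ : ∃ c₁, (p : WittVector p Λ) ^ c0 = (υ * T) ^ c0 + ξ * c₁ := by
    have h1 : ξ ∣ (p : WittVector p Λ) ^ c0 - (υ * T) ^ c0 := by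
      refine dvd_trans ?_ (sub_dvd_pow_sub_pow _ _ c0)
      exact ⟨1, by rw [hξ]; ring⟩
    obtain ⟨c₁, hc₁⟩ := h1
    exact ⟨c₁, by linear_combination hc₁⟩
  obtain ⟨b, hb⟩ : ∃ b, m = c0 + (b + 1) := ⟨m - c0 - 1, by omega⟩
  obtain ⟨c', hc'⟩ := cancel_teich hϖ0 hξ c0 (υ ^ c0 - T ^ (b + 1) * d) (c - c₁) (by
    rw [hc₁, hb, mul_pow, pow_add] at h
    linear_combination h)
  have h2 := congrArg WittVector.constantCoeff hc'
  have hξ0 : WittVector.constantCoeff ξ = -(υ.coeff 0 * ϖ) := by
    have := congrArg WittVector.constantCoeff hξ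
    rw [map_natCast, CharP.cast_eq_zero, map_add, map_mul, hT,
      WittVector.constantCoeff_apply (WittVector.teichmuller p ϖ),
      WittVector.teichmuller_coeff_zero] at this
    rw [WittVector.constantCoeff_apply υ] at this
    linear_combination -this
  rw [map_sub, map_pow, map_mul, map_mul, map_pow, hξ0, hT,
    WittVector.constantCoeff_apply (WittVector.teichmuller p ϖ),
    WittVector.teichmuller_coeff_zero, WittVector.constantCoeff_apply υ] at h2
  have hmem : ϖ ∈ IsLocalRing.maximalIdeal Λ := (IsLocalRing.mem_maximalIdeal _).mpr hϖ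
  have h3 : υ.coeff 0 ^ c0 ∈ IsLocalRing.maximalIdeal Λ := by
    have h4 : υ.coeff 0 ^ c0 = ϖ * (ϖ ^ b * WittVector.constantCoeff d -
        υ.coeff 0 * WittVector.constantCoeff c') := by
      linear_combination h2
    rw [h4]
    exact Ideal.mul_mem_right _ _ hmem
  exact (IsLocalRing.mem_maximalIdeal _).mp h3 (hυ.pow c0)

end witt

section perfect

instance valuationSubring_charP {p : ℕ} {L : Type u} [Field L] [CharP L p]
    (V : ValuationSubring L) : CharP V p :=
  (V.subtype.charP_iff V.subtype_injective p).mpr inferInstance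

instance valuationSubring_perfect {p : ℕ} [Fact p.Prime] {L : Type u} [Field L] [CharP L p]
    [PerfectRing L p] (V : ValuationSubring L) : PerfectRing V p := by
  constructor
  constructor
  · exact frobenius_inj V p
  · intro x
    obtain ⟨y, hy⟩ := (PerfectRing.bijective_frobenius (R := L) (p := p)).2 (x : L)
    have hyV : y ∈ V := by
      rw [← V.valuation_le_one_iff]
      have h1 : V.valuation (y ^ p) ≤ 1 := by
        change y ^ p = (x : L) at hy
        rw [hy]
        exact (V.valuation_le_one_iff _).mpr x.2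
      rw [map_pow] at h1
      by_contra h2
      rw [not_le] at h2
      exact absurd h1 (not_le.mpr (one_lt_pow₀ h2 (Fact.out : p.Prime).ne_zero))
    exact ⟨⟨y, hyV⟩, Subtype.ext hy⟩

end perfect

section bad

variable {O : Type u} [CommRing O] [IsDomain O] {p : ℕ} [Fact p.Prime]
  [Fact ¬IsUnit (p : O)] [IsAdicComplete (Ideal.span {(p : O)}) O] [ValuationRing O]
variable {s : ℕ} {τ : Type} {n : ℕ} [Finite τ]
variable {grp : τ → Fin s} {W : Fin s → τ → ℕ} {e : Fin s → ℕ} {J : Type}

theorem eval₂_zero_of_MH {ι : Type} {R L : Type*} [CommRing R] [CommRing L] {W : ι → τ → ℕ}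
    {P : MvPolynomial τ R} {a : ι → ℕ} (hP : MH W P a) (ha : ∃ i, 0 < a i) (φ : R →+* L) :
    eval₂ φ 0 P = 0 := by
  classical
  obtain ⟨i, hi⟩ := ha
  have h1 : coeff 0 P = 0 := by
    by_contra h
    have := hP i h
    simp at this
    omega
  rw [eval₂_eq]
  apply Finset.sum_eq_zero
  intro m hm
  have hm0 : m ≠ 0 := by
    rintro rfl
    exact (mem_support_iff.mp hm) h1
  obtain ⟨v, hv⟩ : ∃ v, v ∈ m.support := by
    by_contra h
    push Not at h
    exact hm0 (Finsupp.support_eq_empty.mp (Finset.eq_empty_of_forall_notMem h))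
  rw [Finset.prod_eq_zero hv, mul_zero]
  simp [zero_pow (Finsupp.mem_support_iff.mp hv)]

/-- Points with `z = 0`. -/
theorem bad_P2 {R0 : Type u} [CommRing R0] [IsLocalRing R0]
    (G : Fin (n + 1) → MvPolynomial (τ ⊕ Fin (n + 1)) R0) {DG : Fin (n + 1) → Fin s → ℕ}
    (hG : ∀ l, MH (WW W e n) (G l) (DG l)) (he : 0 < ∑ i, e i)
    (φ0 : Fin (n + 1) → MvPolynomial τ R0) (hφ0 : ∀ l, MH W (φ0 l) e)
    {q : Fin (n + 1) → ℕ} {ω : Fin (n + 1) → R0} (hω : ∀ l, ¬IsUnit (ω l))
    (T : Fin (n + 1) → MvPolynomial (τ ⊕ Fin (n + 1)) R0)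
    (hGT : ∀ l, G l = (X (Sum.inr l) - rename Sum.inl (φ0 l)) ^ q l + C (ω l) * T l)
    {E : Type u} [Field E] (φ : R0 →+* E) (hφ : Function.Injective φ)
    (x : Fin (n + 1) → E) (hx : ∀ l, eval₂ φ (Sum.elim 0 x) (G l) = 0) : x = 0 := by
  classical
  by_contra hne
  -- pass to the algebraic closure
  let L := AlgebraicClosure E
  let α : E →+* L := algebraMap E L
  have hker : RingHom.ker (α.comp φ) ≤ IsLocalRing.maximalIdeal R0 := by
    rw [(RingHom.injective_iff_ker_eq_bot (α.comp φ)).mp (by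
      rw [RingHom.coe_comp]; exact α.injective.comp hφ)]
    exact bot_le
  obtain ⟨V, hV1, hV2⟩ := exists_dominating_hom (α.comp φ) (IsLocalRing.maximalIdeal R0) hker
  let xL : Fin (n + 1) → L := fun l => α (x l)
  obtain ⟨l₀, hl₀⟩ := Finite.exists_max (fun l => V.valuation (xL l))
  have hx0 : xL l₀ ≠ 0 := by
    intro h0
    apply hne
    funext l
    have h1 := hl₀ l
    simp only [h0, map_zero] at h1
    have h2 : V.valuation (xL l) = 0 := le_antisymm h1 zero_le
    rw [map_eq_zero] at h2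
    exact α.injective (by rw [Pi.zero_apply, map_zero]; exact h2)
  have hval0 : 0 < V.valuation (xL l₀) := by
    rw [zero_lt_iff]
    rwa [Ne, map_eq_zero]
  obtain ⟨lam, hlam⟩ := IsAlgClosed.exists_pow_nat_eq (xL l₀)⁻¹ he
  have hxV : ∀ l, (xL l₀)⁻¹ * xL l ∈ V := by
    intro l
    rw [← V.valuation_le_one_iff, map_mul, map_inv₀, inv_mul_le_iff₀ hval0, mul_one]
    exact hl₀ l
  let xV : Fin (n + 1) → V := fun l => ⟨_, hxV l⟩
  let φV : R0 →+* V := (α.comp φ).codRestrict V.toSubring hV1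
  have hcomp : V.subtype.comp φV = α.comp φ := rfl
  have hev : ∀ l, eval₂ φV (Sum.elim 0 xV) (G l) = 0 := by
    intro l
    apply V.subtype_injective
    rw [hom_eval₂, map_zero, hcomp]
    have e1 : (fun i => V.subtype (Sum.elim (0 : τ → V) xV i)) = act (WW W e n) (fun _ => lam)
        (Sum.elim (0 : τ → L) xL) := by
      rw [act_WW]
      funext v
      rcases v with v | l'
      · simp [act]
      · simp only [Sum.elim_inr, chr_const, hlam]
        rfl
    rw [e1, eval₂_act (hG l)]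
    have e2 : eval₂ (α.comp φ) (Sum.elim (0 : τ → L) xL) (G l) =
        α (eval₂ φ (Sum.elim 0 x) (G l)) := by
      rw [hom_eval₂]
      congr 1
      funext v
      rcases v with v | l'
      · simp
      · rfl
    rw [e2, hx l, map_zero, mul_zero]
  have hres : ∀ l, IsLocalRing.residue V (φV (ω l)) = 0 := by
    intro l
    rw [IsLocalRing.residue_eq_zero_iff, ← V.coe_mem_nonunits_iff]
    exact (hV2 (ω l)).mpr ((IsLocalRing.mem_maximalIdeal _).mpr (hω l))
  have he' : ∃ i, 0 < e i := by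
    by_contra h
    push Not at h
    have : ∑ i, e i = 0 := Finset.sum_eq_zero fun i _ => Nat.le_zero.mp (h i)
    omega
  have h1 := hev l₀
  rw [hGT l₀, eval₂_add, eval₂_mul, eval₂_C, eval₂_pow, eval₂_sub, eval₂_X, eval₂_rename] at h1
  have h2 : (Sum.elim (0 : τ → V) xV ∘ Sum.inl) = 0 := rfl
  rw [h2, eval₂_zero_of_MH (hφ0 l₀) he', sub_zero, Sum.elim_inr] at h1
  have h3 : xV l₀ = 1 := Subtype.ext (inv_mul_cancel₀ hx0)
  rw [h3, one_pow] at h1
  have h4 := congrArg (IsLocalRing.residue V) h1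
  rw [map_add, map_one, map_mul, hres, zero_mul, add_zero, map_zero] at h4
  exact one_ne_zero h4

/-- Points with `x = 0`. -/
theorem bad_P3 (hT : Tri grp W) (hp0 : (p : O) ≠ 0)
    (hF' : Function.Surjective (frobenius (ModP O p) p)) {ϖ : PreTilt O p} {u : O}
    (hϖ : (p : O) = u * PreTilt.untilt ϖ) (hϖ0 : ϖ ≠ 0) (hϖu : ¬IsUnit ϖ)
    {υ ξ : WittVector p (PreTilt O p)} (hυ : IsUnit (υ.coeff 0))
    (hξ : (p : WittVector p (PreTilt O p)) = ξ + υ * WittVector.teichmuller p ϖ)
    (hθ : WittVector.fontaineTheta O p ξ = 0) {m : ℕ}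
    (Ft : J → MvPolynomial τ (WittVector p (PreTilt O p)))
    (φt : Fin (n + 1) → MvPolynomial τ (WittVector p (PreTilt O p)))
    (hcert : ∀ v : Fin s → τ, (∀ i, grp (v i) = i) → ∃ c0 < m, (p : MvPolynomial τ O) ^ c0 ∈
      Ideal.span (Set.range (fun j => MvPolynomial.map (WittVector.fontaineTheta O p) (Ft j)) ∪
        Set.range (fun l => MvPolynomial.map (WittVector.fontaineTheta O p) (φt l)) ∪
        Set.range (fun i => (X (v i) - 1 : MvPolynomial τ O))))
    (F : J → MvPolynomial τ (PreTilt O p)) {DF : J → Fin s → ℕ} (hF : ∀ j, MH W (F j) (DF j))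
    (G : Fin (n + 1) → MvPolynomial (τ ⊕ Fin (n + 1)) (PreTilt O p))
    {DG : Fin (n + 1) → Fin s → ℕ} (hG : ∀ l, MH (WW W e n) (G l) (DG l))
    (hFw : ∀ j (L : Type u) [CommRing L] [IsDomain L] [CharP L p] [PerfectRing L p]
        (φ : PreTilt O p →+* L) (_ : φ ϖ ≠ 0) (y : τ → L), eval₂ φ y (F j) = 0 →
        ∃ c d : WittVector p L,
          eval₂ (WittVector.map φ) (fun i => WittVector.teichmuller p (y i)) (Ft j) =
          WittVector.teichmuller p (φ ϖ) ^ m * d + WittVector.map φ ξ * c)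
    (hGw : ∀ l (L : Type u) [CommRing L] [IsDomain L] [CharP L p] [PerfectRing L p]
        (φ : PreTilt O p →+* L) (_ : φ ϖ ≠ 0) (y : τ ⊕ Fin (n + 1) → L),
        eval₂ φ y (G l) = 0 → ∃ c d : WittVector p L,
          eval₂ (WittVector.map φ) (fun i => WittVector.teichmuller p (y i))
            (X (Sum.inr l) - rename Sum.inl (φt l)) =
          WittVector.teichmuller p (φ ϖ) ^ m * d + WittVector.map φ ξ * c)
    {E : Type u} [Field E] (φ : PreTilt O p →+* E) (hφ : Function.Injective φ)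
    (z : τ → E) (hz : Rel grp z) (hFz : ∀ j, eval₂ φ z (F j) = 0)
    (hGz : ∀ l, eval₂ φ (Sum.elim z 0) (G l) = 0) : False := by
  classical
  let L := AlgebraicClosure E
  let α : E →+* L := algebraMap E L
  have hαφ : Function.Injective (α.comp φ) := by
    rw [RingHom.coe_comp]; exact α.injective.comp hφ
  haveI : CharP L p := ((α.comp φ).charP_iff hαφ p).mp inferInstance
  haveI : ExpChar L p := ExpChar.prime Fact.out
  haveI : PerfectRing L p := PerfectField.toPerfectRing p
  have hker : RingHom.ker (α.comp φ) ≤ IsLocalRing.maximalIdeal (PreTilt O p) := by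
    rw [(RingHom.injective_iff_ker_eq_bot (α.comp φ)).mp hαφ]
    exact bot_le
  obtain ⟨V, hV1, hV2⟩ := exists_dominating_hom (α.comp φ)
    (IsLocalRing.maximalIdeal (PreTilt O p)) hker
  let zL : τ → L := fun v => α (z v)
  have hrel : Rel grp zL := by
    intro i
    obtain ⟨v, hv, hv'⟩ := hz i
    exact ⟨v, hv, by simpa [zL] using hv'⟩
  obtain ⟨μ, hμ0, hμV, hμ1⟩ := exists_scaling V hT hrel
  choose v hv1 hv2 using hμ1
  let φV : PreTilt O p →+* V := (α.comp φ).codRestrict V.toSubring hV1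
  have hcomp : V.subtype.comp φV = α.comp φ := rfl
  have hφVinj : Function.Injective φV := by
    intro a b hab
    apply hαφ
    have := congrArg V.subtype hab
    exact this
  have hϖV0 : φV ϖ ≠ 0 := by
    intro h0
    apply hϖ0
    apply hφVinj
    rw [h0, map_zero]
  have hϖVu : ¬IsUnit (φV ϖ) := by
    have h1 := (hV2 ϖ).mpr ((IsLocalRing.mem_maximalIdeal _).mpr hϖu)
    rw [ValuationSubring.mem_nonunits_iff_exists_mem_maximalIdeal] at h1
    obtain ⟨h2, h3⟩ := h1
    exact (IsLocalRing.mem_maximalIdeal _).mp h3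
  let zV : τ → V := fun v => ⟨act W μ zL v, hμV v⟩
  have hFV : ∀ j, eval₂ φV zV (F j) = 0 := by
    intro j
    apply V.subtype_injective
    rw [hom_eval₂, map_zero, hcomp]
    change eval₂ (α.comp φ) (act W μ zL) (F j) = 0
    rw [eval₂_act (hF j)]
    have e2 : eval₂ (α.comp φ) zL (F j) = α (eval₂ φ z (F j)) := by
      rw [hom_eval₂]
    rw [e2, hFz j, map_zero, mul_zero]
  have hGV : ∀ l, eval₂ φV (Sum.elim zV 0) (G l) = 0 := by
    intro l
    apply V.subtype_injective
    rw [hom_eval₂, map_zero, hcomp]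
    have e1 : (fun i => V.subtype (Sum.elim zV (0 : Fin (n + 1) → V) i)) =
        act (WW W e n) μ (Sum.elim zL (0 : Fin (n + 1) → L)) := by
      rw [act_WW]
      funext v
      rcases v with v | l'
      · rfl
      · simp
    rw [e1, eval₂_act (hG l)]
    have e2 : eval₂ (α.comp φ) (Sum.elim zL (0 : Fin (n + 1) → L)) (G l) =
        α (eval₂ φ (Sum.elim z 0) (G l)) := by
      rw [hom_eval₂]
      congr 1
      funext v
      rcases v with v | l'
      · rfl
      · simp
    rw [e2, hGz l, map_zero, mul_zero]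
  set T : WittVector p V := WittVector.teichmuller p (φV ϖ) with hTdef
  set Ξ : WittVector p V := WittVector.map φV ξ with hΞ
  let 𝒥 : Ideal (WittVector p V) := Ideal.span {T ^ m, Ξ}
  have hmem : ∀ c d : WittVector p V, T ^ m * d + Ξ * c ∈ 𝒥 := by
    intro c d
    apply Ideal.add_mem
    · exact Ideal.mul_mem_right _ _ (Ideal.subset_span (by simp))
    · exact Ideal.mul_mem_right _ _ (Ideal.subset_span (by simp))
  let evW : MvPolynomial τ (WittVector p (PreTilt O p)) →+* WittVector p V :=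
    eval₂Hom (WittVector.map φV) (fun i => WittVector.teichmuller p (zV i))
  have hF𝒥 : ∀ j, evW (Ft j) ∈ 𝒥 := by
    intro j
    obtain ⟨c, d, h⟩ := hFw j V φV hϖV0 zV (hFV j)
    change eval₂ _ _ _ ∈ 𝒥
    rw [h]
    exact hmem c d
  have hφ𝒥 : ∀ l, evW (φt l) ∈ 𝒥 := by
    intro l
    obtain ⟨c, d, h⟩ := hGw l V φV hϖV0 (Sum.elim zV 0) (hGV l)
    rw [eval₂_sub, eval₂_X, eval₂_rename, Sum.elim_inr, Pi.zero_apply,
      WittVector.teichmuller_zero, zero_sub] at h
    have h2 : evW (φt l) = -(T ^ m * d + Ξ * c) := by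
      rw [← h, neg_neg]
      rfl
    rw [h2]
    exact 𝒥.neg_mem (hmem c d)
  have hX𝒥 : ∀ i, evW (X (v i) - 1) ∈ 𝒥 := by
    intro i
    have h1 : zV (v i) = 1 := Subtype.ext (hv2 i)
    have h2 : evW (X (v i) - 1) = 0 := by
      rw [map_sub, map_one]
      change eval₂ _ _ (X (v i)) - 1 = 0
      rw [eval₂_X, h1, map_one, sub_self]
    rw [h2]
    exact 𝒥.zero_mem
  obtain ⟨c0, hc0, hcert⟩ := hcert v hv1
  let Θ : MvPolynomial τ (WittVector p (PreTilt O p)) →+* MvPolynomial τ O :=
    MvPolynomial.map (WittVector.fontaineTheta O p)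
  have hΘ : Function.Surjective Θ := MvPolynomial.map_surjective _ (surjective_fontaineTheta hF')
  let 𝒦 : Ideal (MvPolynomial τ (WittVector p (PreTilt O p))) :=
    Ideal.span (Set.range Ft ∪ Set.range φt ∪ Set.range (fun i => X (v i) - 1))
  have h𝒦 : Ideal.map Θ 𝒦 = Ideal.span
      (Set.range (fun j => MvPolynomial.map (WittVector.fontaineTheta O p) (Ft j)) ∪
        Set.range (fun l => MvPolynomial.map (WittVector.fontaineTheta O p) (φt l)) ∪
        Set.range (fun i => (X (v i) - 1 : MvPolynomial τ O))) := by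
    rw [Ideal.map_span]
    congr 1
    rw [Set.image_union, Set.image_union, ← Set.range_comp, ← Set.range_comp, ← Set.range_comp]
    congr 1
    congr 1
    funext i
    simp [Θ]
  rw [← h𝒦] at hcert
  obtain ⟨P, hP, hPe⟩ := (Ideal.mem_map_iff_of_surjective Θ hΘ).mp hcert
  have hP𝒥 : evW P ∈ 𝒥 := by
    have h1 : 𝒦 ≤ Ideal.comap evW 𝒥 := by
      rw [Ideal.span_le]
      rintro _ ((⟨j, rfl⟩ | ⟨l, rfl⟩) | ⟨i, rfl⟩)
      · exact hF𝒥 j
      · exact hφ𝒥 l
      · exact hX𝒥 i
    exact h1 hP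
  have hQ𝒥 : ∀ Q : MvPolynomial τ (WittVector p (PreTilt O p)), Θ Q = 0 → evW Q ∈ 𝒥 := by
    intro Q hQ
    change eval₂ _ _ Q ∈ 𝒥
    rw [eval₂_eq]
    apply Ideal.sum_mem
    intro I _
    apply Ideal.mul_mem_right
    have h1 : WittVector.fontaineTheta O p (coeff I Q) = 0 := by
      have := congrArg (coeff I) hQ
      rw [coeff_map, coeff_zero] at this
      exact this
    obtain ⟨c, d, h⟩ := ker_theta hp0 hϖ hξ hθ m _ h1
    rw [h, map_add, map_mul, map_mul, map_pow, WittVector.map_teichmuller]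
    exact hmem _ _
  have hfin : (p : WittVector p V) ^ c0 ∈ 𝒥 := by
    have h1 := hQ𝒥 ((p : MvPolynomial τ (WittVector p (PreTilt O p))) ^ c0 - P) (by
      rw [map_sub, map_pow, map_natCast, hPe, sub_self])
    have h2 := Ideal.add_mem _ h1 hP𝒥
    rw [← map_add, sub_add_cancel, map_pow, map_natCast] at h2
    exact h2
  rw [Ideal.mem_span_pair] at hfin
  obtain ⟨a, b, hab⟩ := hfin
  have hυV : IsUnit ((WittVector.map φV υ).coeff 0) := by
    rw [WittVector.map_coeff]
    exact hυ.map φV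
  have hξV : (p : WittVector p V) = Ξ + WittVector.map φV υ * T := by
    have := congrArg (WittVector.map φV) hξ
    rw [map_natCast, map_add, map_mul, WittVector.map_teichmuller] at this
    exact this
  exact witt_contradiction hϖV0 hϖVu hυV hξV hc0 b a (by rw [← hab]; ring)

end bad

end Pool.Agent.LibDb3ab1
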