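import Pool.Agent.LibDb3ab1.Certificates

/-!
# Limit points of the tubes
-/

set_option autoImplicit false
set_option linter.unusedSectionVars false
set_option linter.style.haveILetI false

noncomputable section

namespace Pool.Agent.LibDb3ab1

open MvPolynomial

universe u

variable {K : Type u} [Field K] {O : ValuationSubring K} {p : ℕ} {n : ℕ}

theorem eval_zero_of_mem_span {σ : Type} {S : Set (MvPolynomial σ K)} {P : MvPolynomial σ K}
    (hP : P ∈ Ideal.span S) {L : Type u} [CommRing L] (g : MvPolynomial σ K →+* L)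
    (h : ∀ Q ∈ S, g Q = 0) : g P = 0 := by
  have h1 : Ideal.span S ≤ RingHom.ker g := Ideal.span_le.mpr fun Q hQ => h Q hQ
  exact h1 hP

/-- Points of `Z` over arbitrary valued extensions give points of `U`. -/
theorem limit_mem {τ : Type} [Finite τ] {s : ℕ} {grp : τ → Fin s} {J : Type}
    (F : J → MvPolynomial τ O) (φ : Fin (n + 1) → MvPolynomial τ O)
    (I : Ideal (MvPolynomial (Fin (n + 1)) K)) (U : Set (AdicProj O n))
    (hIU : adicLocus O I ⊆ U)
    (hno : ∀ z : τ → AlgebraicClosure K, Rel grp z → (∀ j, aeval z (map O.subtype (F j)) = 0) →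
      ∃ l, aeval z (map O.subtype (φ l)) ≠ 0)
    (hX : ∀ z : τ → AlgebraicClosure K, Rel grp z → (∀ j, aeval z (map O.subtype (F j)) = 0) →
      ∀ P ∈ I, ∀ d, P.IsHomogeneous d → aeval (fun l => aeval z (map O.subtype (φ l))) P = 0)
    (L : Type u) [Field L] (ι : K →+* L) (V : ValuationSubring L)
    (hV : ValuedExt O ι V) (z : τ → V) (v : Fin s → τ) (hv : ∀ i, grp (v i) = i)
    (hz : ∀ i, z (v i) = 1) (hF : ∀ j, eval₂ hV.incl z (F j) = 0) :
    ∃ a ∈ U, a.1 = pointRel ι V (fun l => ((eval₂ hV.incl z (φ l) : V) : L)) := by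
  classical
  let S : Set (MvPolynomial τ K) := Set.range (fun j => map O.subtype (F j)) ∪
    Set.range (fun i => X (v i) - 1)
  have hS : ∀ z' : τ → AlgebraicClosure K, (∀ Q ∈ S, aeval z' Q = 0) →
      Rel grp z' ∧ ∀ j, aeval z' (map O.subtype (F j)) = 0 := by
    intro z' hz'
    refine ⟨fun i => ⟨v i, hv i, ?_⟩, fun j => hz' _ (Or.inl ⟨j, rfl⟩)⟩
    have h1 := hz' _ (Or.inr ⟨i, rfl⟩)
    simp only [map_sub, aeval_X, map_one, sub_eq_zero] at h1
    rw [h1]
    exact one_ne_zero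
  let g : MvPolynomial τ K →+* L := eval₂Hom ι (fun t => (z t : L))
  have hg : ∀ P : MvPolynomial τ O, g (map O.subtype P) = ((eval₂ hV.incl z P : V) : L) := by
    intro P
    change eval₂ ι _ (map O.subtype P) = V.subtype _
    rw [eval₂_map, hom_eval₂]
    rfl
  have hgS : ∀ Q ∈ S, g Q = 0 := by
    rintro _ (⟨j, rfl⟩ | ⟨i, rfl⟩)
    · rw [hg, hF]; rfl
    · rw [map_sub, map_one]
      change eval₂ ι _ (X (v i)) - 1 = 0
      rw [eval₂_X, hz]
      exact sub_self _
  have hne : (fun l => ((eval₂ hV.incl z (φ l) : V) : L)) ≠ 0 := by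
    intro h0
    obtain ⟨N, hN⟩ := nullstellensatz (S ∪ Set.range (fun l => map O.subtype (φ l)))
      (1 : MvPolynomial τ K) (by
      intro z' hz'
      exfalso
      obtain ⟨h1, h2⟩ := hS z' fun Q hQ => hz' Q (Or.inl hQ)
      obtain ⟨l, hl⟩ := hno z' h1 h2
      exact hl (hz' _ (Or.inr ⟨l, rfl⟩)))
    have h3 := eval_zero_of_mem_span hN g (by
      rintro Q (hQ | ⟨l, rfl⟩)
      · exact hgS Q hQ
      · rw [hg]
        exact congrFun h0 l)
    rw [one_pow, map_one] at h3
    exact one_ne_zero h3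
  refine ⟨⟨pointRel ι V (fun l => ((eval₂ hV.incl z (φ l) : V) : L)),
    ⟨L, inferInstance, ι, V, _, hV, hne, rfl⟩⟩, hIU ?_, rfl⟩
  intro P hP d hd
  refine ⟨d, hd, isHomogeneous_zero _ _ _, ?_⟩
  have h4 : eval₂ ι (fun l => ((eval₂ hV.incl z (φ l) : V) : L)) P = 0 := by
    obtain ⟨N, hN⟩ := nullstellensatz S (bind₁ (fun l => map O.subtype (φ l)) P) (by
      intro z' hz'
      obtain ⟨h1, h2⟩ := hS z' hz'
      rw [aeval_bind₁]
      exact hX z' h1 h2 P hP d hd)
    have h3 := eval_zero_of_mem_span hN g hgS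
    rw [map_pow] at h3
    have h5 : g (bind₁ (fun l => map O.subtype (φ l)) P) =
        eval₂ ι (fun l => ((eval₂ hV.incl z (φ l) : V) : L)) P := by
      change eval₂Hom ι _ (bind₁ _ P) = _
      rw [eval₂Hom_bind₁]
      change eval₂ _ _ P = _
      congr 1
      funext l
      exact hg (φ l)
    rw [h5] at h3
    exact eq_zero_of_pow_eq_zero h3
  rw [h4, eval₂_zero]

end Pool.Agent.LibDb3ab1
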