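import Pool.Agent.LibDb3ab1.TiltClosed
import Pool.Agent.LibDb3ab1.Bad
import Pool.Agent.LibDb3ab1.Limit

/-!
# From points over the tilt to points over the untilt
-/

set_option autoImplicit false
set_option linter.unusedSectionVars false
set_option linter.style.haveILetI false

noncomputable section

namespace Pool.Agent.LibDb3ab1

open MvPolynomial

universe u

/-- The valuation ring `A` inside its fraction field. -/
theorem exists_rangeVal (A : Type u) [CommRing A] [IsDomain A] [ValuationRing A] (Q : Type u)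
    [Field Q] [Algebra A Q] [IsFractionRing A Q] :
    ∃ V : ValuationSubring Q, ∀ x, x ∈ V ↔ ∃ a, algebraMap A Q a = x := by
  have hinj := IsFractionRing.injective A Q
  have hne : ∀ a : A, a ≠ 0 → algebraMap A Q a ≠ 0 := by
    intro a ha h0
    exact ha (hinj (by rw [h0, map_zero]))
  refine ⟨{ (algebraMap A Q).range with
      mem_or_inv_mem' := by
        intro x
        change x ∈ (algebraMap A Q).range ∨ x⁻¹ ∈ (algebraMap A Q).range
        obtain ⟨a, b, hb, rfl⟩ := IsFractionRing.div_surjective (A := A) x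
        have hb0 := hne b (nonZeroDivisors.ne_zero hb)
        by_cases ha : a = 0
        · left
          rw [ha, map_zero, zero_div]
          exact Subring.zero_mem _
        have ha0 := hne a ha
        rcases ValuationRing.dvd_total a b with ⟨c, hc⟩ | ⟨c, hc⟩
        · right
          refine ⟨c, ?_⟩
          rw [inv_div, hc, map_mul, mul_div_cancel_left₀ _ ha0]
        · left
          refine ⟨c, ?_⟩
          rw [hc, map_mul, mul_div_cancel_left₀ _ hb0] }, fun x => Iff.rfl⟩

section step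

variable {K : Type u} [Field K] {O : ValuationSubring K} {p : ℕ} [Fact p.Prime]
  [Fact ¬IsUnit (p : O)] [IsAdicComplete (Ideal.span {(p : O)}) O]
variable {s : ℕ} {τ : Type} {n : ℕ} [Finite τ]
variable {grp : τ → Fin s} {W : Fin s → τ → ℕ} {e : Fin s → ℕ} {J : Type}

theorem tilt_step (hT : Tri grp W) (hW : ∀ v, 0 < ∑ i, W i v) (he : 0 < ∑ i, e i)
    {ϖ : PreTilt O p} {u : O}
    (hu : IsUnit u) (hϖ : (p : O) = u * PreTilt.untilt ϖ)
    {ξ : WittVector p (PreTilt O p)}
    (hθ : WittVector.fontaineTheta O p ξ = 0) {m : ℕ}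
    (Ft : J → MvPolynomial τ (WittVector p (PreTilt O p)))
    (φt : Fin (n + 1) → MvPolynomial τ (WittVector p (PreTilt O p)))
    (F : J → MvPolynomial τ (PreTilt O p)) {DF : J → Fin s → ℕ} (hF : ∀ j, MH W (F j) (DF j))
    (G : Fin (n + 1) → MvPolynomial (τ ⊕ Fin (n + 1)) (PreTilt O p))
    {DG : Fin (n + 1) → Fin s → ℕ} (hG : ∀ l, MH (WW W e n) (G l) (DG l))
    (φ0 : Fin (n + 1) → MvPolynomial τ (PreTilt O p)) (hφ0 : ∀ l, MH W (φ0 l) e)
    {q : Fin (n + 1) → ℕ}
    {ω : Fin (n + 1) → PreTilt O p} (hω : ∀ l, ¬IsUnit (ω l))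
    (T : Fin (n + 1) → MvPolynomial (τ ⊕ Fin (n + 1)) (PreTilt O p))
    (hGT : ∀ l, G l = (X (Sum.inr l) - rename Sum.inl (φ0 l)) ^ q l + C (ω l) * T l)
    (hFw : ∀ j (L : Type u) [CommRing L] [IsDomain L] [CharP L p] [PerfectRing L p]
        (φ : PreTilt O p →+* L) (_ : φ ϖ ≠ 0) (y : τ → L), eval₂ φ y (F j) = 0 →
        ∃ c d : WittVector p L,
          eval₂ (WittVector.map φ) (fun i => WittVector.teichmuller p (y i)) (Ft j) =
          WittVector.teichmuller p (φ ϖ) ^ m * d + WittVector.map φ ξ * c)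
    (hGw : ∀ l (L : Type u) [CommRing L] [IsDomain L] [CharP L p] [PerfectRing L p]
        (φ : PreTilt O p →+* L) (_ : φ ϖ ≠ 0) (y : τ ⊕ Fin (n + 1) → L),
        eval₂ φ y (G l) = 0 → ∃ c d : WittVector p L,
          eval₂ (WittVector.map φ) (fun i => WittVector.teichmuller p (y i))
            (X (Sum.inr l) - rename Sum.inl (φt l)) =
          WittVector.teichmuller p (φ ϖ) ^ m * d + WittVector.map φ ξ * c)
    {C' : Type u} [Field C'] [IsAlgClosed C'] (ι : K →+* C') (V : ValuationSubring C')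
    (hp0 : (p : V) ≠ 0)
    (hV : ValuedExt O ι V) [Fact ¬IsUnit (p : V)] [IsAdicComplete (Ideal.span {(p : V)}) V]
    (y : Fin (n + 1) → PreTilt V p)
    {Ω : Type u} [Field Ω] [Algebra (PreTilt V p) Ω] [IsFractionRing (PreTilt V p) Ω]
    [IsAlgClosed Ω] {ψ : PreTilt O p →+* Ω}
    (hψ : ψ = (algebraMap (PreTilt V p) Ω).comp (tmap hV.incl))
    (z : τ → Ω) (c : Ω) (hc : c ≠ 0) (hz : Rel grp z)
    (hFz : ∀ j, eval₂ ψ z (F j) = 0)
    (hGz : ∀ l, eval₂ ψ (Sum.elim z (fun l => c * algebraMap _ _ (y l))) (G l) = 0) :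
    ∃ (z' : τ → V) (x' : Fin (n + 1) → V) (v : Fin s → τ) (c' : C'), c' ≠ 0 ∧
      (∀ i, grp (v i) = i) ∧ (∀ i, z' (v i) = 1) ∧
      (∀ j, (p : V) ^ m ∣ eval₂ hV.incl z'
        (MvPolynomial.map (WittVector.fontaineTheta O p) (Ft j))) ∧
      (∀ l, (p : V) ^ m ∣ x' l - eval₂ hV.incl z'
        (MvPolynomial.map (WittVector.fontaineTheta O p) (φt l))) ∧
      ∀ l, (x' l : C') = c' * ((PreTilt.untilt (y l) : V) : C') := by
  classical
  -- the tilt is algebraically closed
  have hϖV : (p : V) = hV.incl u * PreTilt.untilt (tmap hV.incl ϖ) := by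
    rw [untilt_tmap, ← map_mul, ← hϖ, map_natCast]
  have huV : IsUnit (hV.incl u) := hu.map _
  have hϖV0 : tmap hV.incl ϖ ≠ 0 := by
    intro h0
    rw [h0, untilt_zero, mul_zero] at hϖV
    exact hp0 hϖV
  have hinj : Function.Injective (algebraMap (PreTilt V p) Ω) := IsFractionRing.injective _ _
  obtain ⟨TV, hTV⟩ := exists_rangeVal (PreTilt V p) Ω
  obtain ⟨μ, hμ0, hμV, hμ1⟩ := exists_scaling TV hT hz
  choose v hv1 hv2 using hμ1
  let z1 : τ → TV := fun t => ⟨act W μ z t, hμV t⟩
  let x1 : Fin (n + 1) → Ω := fun l => chr μ e * (c * algebraMap (PreTilt V p) Ω (y l))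
  let ψV : PreTilt O p →+* TV := ψ.codRestrict TV.toSubring
    (fun a => (hTV _).mpr ⟨tmap hV.incl a, by rw [hψ]; rfl⟩)
  have hψV : TV.subtype.comp ψV = ψ := rfl
  have hG1 : ∀ l, eval₂ ψ (Sum.elim (fun t => (z1 t : Ω)) x1) (G l) = 0 := by
    intro l
    have e1 : Sum.elim (fun t => (z1 t : Ω)) x1 =
        act (WW W e n) μ (Sum.elim z (fun l => c * algebraMap (PreTilt V p) Ω (y l))) := by
      rw [act_WW]
    rw [e1, eval₂_act (hG l), hGz l, mul_zero]
  have hF1 : ∀ j, eval₂ ψ (fun t => (z1 t : Ω)) (F j) = 0 := by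
    intro j
    change eval₂ ψ (act W μ z) (F j) = 0
    rw [eval₂_act (hF j), hFz j, mul_zero]
  have hωres : ∀ l, IsLocalRing.residue TV (ψV (ω l)) = 0 := by
    intro l
    rw [IsLocalRing.residue_eq_zero_iff, IsLocalRing.mem_maximalIdeal, mem_nonunits_iff]
    intro hunit
    apply hω l
    -- unit in `TV` implies unit in the tilt of `V`, hence in the tilt of `O`
    obtain ⟨w, hw⟩ := isUnit_iff_exists_inv.mp hunit
    obtain ⟨w', hw'⟩ := (hTV _).mp w.2
    have h1 : tmap hV.incl (ω l) * w' = 1 := by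
      apply hinj
      rw [map_mul, map_one, hw']
      have h2 : ψ (ω l) * (w : Ω) = 1 := congrArg Subtype.val hw
      rw [hψ] at h2
      exact h2
    have h2 : IsUnit (tmap hV.incl (ω l)) := IsUnit.of_mul_eq_one _ h1
    have h3 : IsUnit (hV.incl (PreTilt.untilt (ω l))) := by
      rw [← untilt_tmap]
      exact h2.map _
    by_contra h4
    exact hV.not_isUnit (fun h5 => h4 (isUnit_of_untilt h5)) h3
  have he' : ∃ i, 0 < e i := by
    by_contra h
    push Not at h
    have : ∑ i, e i = 0 := Finset.sum_eq_zero fun i _ => Nat.le_zero.mp (h i)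
    omega
  have hx1 : ∀ l, x1 l ∈ TV := by
    apply integral_of_bad TV hW he (fun l => MvPolynomial.map ψV (G l))
      (fun l => (hG l).map ψV) ?_ z1 x1 ?_
    · intro x hx
      funext l
      have h1 := hx l
      rw [eval₂_map, hGT l, eval₂_add, eval₂_mul, eval₂_C, eval₂_pow, eval₂_sub, eval₂_X,
        eval₂_rename, RingHom.comp_apply, hωres, zero_mul, add_zero, Sum.elim_inr] at h1
      have h2 : (Sum.elim (0 : τ → IsLocalRing.ResidueField TV) x ∘ Sum.inl) = 0 := rfl
      rw [h2, eval₂_zero_of_MH (hφ0 l) he', sub_zero] at h1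
      exact eq_zero_of_pow_eq_zero h1
    · intro l
      rw [eval₂_map, hψV]
      exact hG1 l
  choose zT hzT using fun t => (hTV _).mp (z1 t).2
  choose xT hxT using fun l => (hTV _).mp (hx1 l)
  have hGT' : ∀ l, eval₂ (tmap hV.incl) (Sum.elim zT xT) (G l) = 0 := by
    intro l
    apply hinj
    rw [hom_eval₂, map_zero, ← hG1 l, hψ]
    congr 1
    funext t
    rcases t with t | l'
    · exact hzT t
    · exact hxT l'
  have hFT' : ∀ j, eval₂ (tmap hV.incl) zT (F j) = 0 := by
    intro j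
    apply hinj
    rw [hom_eval₂, map_zero, ← hF1 j, hψ]
    congr 1
    funext t
    exact hzT t
  -- the scaling factor
  have hc1 : chr μ e * c ≠ 0 := mul_ne_zero (chr_ne_zero hμ0 _) hc
  obtain ⟨a, b, hb, hab⟩ := IsFractionRing.div_surjective (A := PreTilt V p) (chr μ e * c)
  have hb0 : b ≠ 0 := nonZeroDivisors.ne_zero hb
  have hbΩ : algebraMap (PreTilt V p) Ω b ≠ 0 := by
    intro h0
    exact hb0 (hinj (by rw [h0, map_zero]))
  have ha0 : a ≠ 0 := by
    rintro rfl
    rw [map_zero, zero_div] at hab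
    exact hc1 hab.symm
  have hb1 : ((PreTilt.untilt b : V) : C') ≠ 0 := by
    intro h0
    exact hb0 (eq_zero_of_untilt (Subtype.ext h0))
  have ha1 : ((PreTilt.untilt a : V) : C') ≠ 0 := by
    intro h0
    exact ha0 (eq_zero_of_untilt (Subtype.ext h0))
  refine ⟨fun t => PreTilt.untilt (zT t), fun l => PreTilt.untilt (xT l), v,
    ((PreTilt.untilt a : V) : C') / ((PreTilt.untilt b : V) : C'), div_ne_zero ha1 hb1, hv1,
    ?_, ?_, ?_, ?_⟩
  · intro i
    have h1 : zT (v i) = 1 := by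
      apply hinj
      rw [hzT, map_one]
      exact hv2 i
    change PreTilt.untilt (zT (v i)) = 1
    rw [h1, map_one]
  · intro j
    exact dvd_of_witt hV.incl hϖ hu hθ zT (Ft j) m
      (hFw j (PreTilt V p) (tmap hV.incl) hϖV0 zT (hFT' j))
  · intro l
    have h1 := dvd_of_witt hV.incl hϖ hu hθ (Sum.elim zT xT) _ m
      (hGw l (PreTilt V p) (tmap hV.incl) hϖV0 (Sum.elim zT xT) (hGT' l))
    rw [map_sub, map_X, map_rename, eval₂_sub, eval₂_X, eval₂_rename, Sum.elim_inr] at h1
    exact h1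
  · intro l
    have h1 : xT l * b = a * y l := by
      apply hinj
      rw [map_mul, map_mul, hxT]
      change chr μ e * (c * algebraMap (PreTilt V p) Ω (y l)) * _ = _
      rw [← mul_assoc, ← hab, div_mul_eq_mul_div, div_mul_cancel₀ _ hbΩ]
    have h2 : ((PreTilt.untilt (xT l) : V) : C') * ((PreTilt.untilt b : V) : C') =
        ((PreTilt.untilt a : V) : C') * ((PreTilt.untilt (y l) : V) : C') := by
      have h3 := congrArg (fun t => ((PreTilt.untilt t : V) : C')) h1
      simp only [map_mul] at h3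
      exact h3
    rw [div_mul_eq_mul_div, eq_div_iff hb1]
    exact h2

end step

end Pool.Agent.LibDb3ab1
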