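import Mathlib

/-!
# Dimension theory lemmas
-/

set_option autoImplicit false
set_option linter.unusedSectionVars false
set_option linter.style.haveILetI false

noncomputable section

namespace Pool.Agent.LibDb3ab1

universe u v

section integral

variable {A B : Type*} [CommRing A] [CommRing B] [IsDomain B] [Algebra A B]

theorem ringKrullDim_eq_of_integral [Algebra.IsIntegral A B]
    (hinj : Function.Injective (algebraMap A B)) : ringKrullDim A = ringKrullDim B := by
  apply le_antisymm
  · rw [ringKrullDim, Order.krullDim]
    apply iSup_le
    intro l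
    obtain ⟨P, hP, hPl⟩ := Ideal.exists_ideal_over_prime_of_isIntegral_of_isDomain
      (R := A) (S := B) l.head.asIdeal (by
        rw [(RingHom.injective_iff_ker_eq_bot _).mp hinj]; exact bot_le)
    haveI : P.LiesOver (RelSeries.head l).asIdeal := ⟨hPl.symm⟩
    obtain ⟨L, hL, -, -⟩ := Ideal.exists_ltSeries_of_hasGoingUp (R := A) (S := B) l P
    rw [← hL]
    exact le_iSup (fun L : LTSeries (PrimeSpectrum B) => (L.length : WithBot ℕ∞)) L
  · apply Order.krullDim_le_of_strictMono (fun P => PrimeSpectrum.comap (algebraMap A B) P)
    intro P Q hPQ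
    exact Ideal.IsIntegral.comap_lt_comap (R := A) (I := P.asIdeal) (J := Q.asIdeal) hPQ

end integral

section trdeg

variable (k : Type u) (A : Type v) [Field k] [CommRing A] [IsDomain A] [Algebra k A]
  [Algebra.FiniteType k A]

theorem ringKrullDim_eq_trdeg {s : ℕ} (h : Algebra.trdeg k A = s) : ringKrullDim A = s := by
  obtain ⟨t, g, hg, hint⟩ := exists_integral_inj_algHom_of_fg k A
  letI : Algebra (MvPolynomial (Fin t) k) A := g.toRingHom.toAlgebra
  haveI : Algebra.IsIntegral (MvPolynomial (Fin t) k) A := ⟨hint⟩
  haveI : IsScalarTower k (MvPolynomial (Fin t) k) A := IsScalarTower.of_algebraMap_eq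
    (fun x => (g.commutes x).symm)
  have h1 : ringKrullDim (MvPolynomial (Fin t) k) = ringKrullDim A :=
    ringKrullDim_eq_of_integral hg
  rw [MvPolynomial.ringKrullDim_of_isNoetherianRing, ringKrullDim_eq_zero_of_field, zero_add,
    Nat.card_eq_fintype_card, Fintype.card_fin] at h1
  haveI : FaithfulSMul (MvPolynomial (Fin t) k) A :=
    (faithfulSMul_iff_algebraMap_injective _ _).mpr hg
  have h2 := lift_trdeg_add_eq k (MvPolynomial (Fin t) k) A
  have h3 : Algebra.trdeg (MvPolynomial (Fin t) k) A = 0 := by
    rw [trdeg_eq_zero_iff]
    infer_instance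
  rw [h3, MvPolynomial.trdeg_of_isDomain, h] at h2
  simp at h2
  rw [← h1, h2]

end trdeg

section origin

variable {E : Type u} [Field E]

/-- The ideal of the origin. -/
def origin (σ : Type v) (E : Type u) [Field E] : Ideal (MvPolynomial σ E) :=
  RingHom.ker (MvPolynomial.eval (0 : σ → E))

instance (σ : Type v) : (origin σ E).IsPrime := RingHom.ker_isPrime _

instance (σ : Type v) : (origin σ E).IsMaximal := by
  apply RingHom.ker_isMaximal_of_surjective
  intro c
  exact ⟨MvPolynomial.C c, by simp⟩

theorem height_origin (σ : Type v) [Finite σ] : (origin σ E).height = Nat.card σ := by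
  induction σ using Finite.induction_empty_option with
  | of_equiv e H =>
    rename_i α β
    have h1 : origin α E = (origin β E).comap (MvPolynomial.renameEquiv E e).toRingEquiv := by
      ext x
      simp only [origin, RingHom.mem_ker, Ideal.mem_comap]
      change _ ↔ MvPolynomial.eval 0 (MvPolynomial.rename e x) = 0
      rw [MvPolynomial.eval_rename]
      rfl
    rw [← Nat.card_congr e, ← H, h1, RingEquiv.height_comap]
  | h_empty =>
    have : origin PEmpty E = ⊥ := by
      rw [origin, ← RingHom.injective_iff_ker_eq_bot]
      intro x y hxy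
      rw [MvPolynomial.eq_C_of_isEmpty x, MvPolynomial.eq_C_of_isEmpty y] at hxy ⊢
      simpa using hxy
    rw [this]; simp
  | h_option IH =>
    rename_i α _
    set P : Ideal (Polynomial (MvPolynomial α E)) :=
      (origin (Option α) E).comap (MvPolynomial.optionEquivLeft E α).symm.toRingEquiv with hP
    have hP2 : ∀ x, x ∈ P ↔ MvPolynomial.eval 0 (x.coeff 0) = 0 := by
      intro x
      rw [hP, Ideal.mem_comap, origin, RingHom.mem_ker]
      have : ((MvPolynomial.eval (0 : Option α → E)).comp
          (MvPolynomial.optionEquivLeft E α).symm.toRingEquiv.toRingHom) =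
          (MvPolynomial.eval (0 : α → E)).comp Polynomial.constantCoeff := by
        apply Polynomial.ringHom_ext'
        · apply MvPolynomial.ringHom_ext
          · intro r
            simp
          · intro i
            simp
        · simp
      have h2 := RingHom.congr_fun this x
      simp only [RingHom.comp_apply, Polynomial.constantCoeff_apply] at h2
      rw [← h2]
      rfl
    haveI : P.IsMaximal := Ideal.comap_isMaximal_of_equiv _
    haveI : P.LiesOver (origin α E) := by
      constructor
      ext x
      rw [Ideal.under, Ideal.mem_comap, hP2, origin, RingHom.mem_ker]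
      simp
    have h1 : P.height = (origin (Option α) E).height := RingEquiv.height_comap _ _
    rw [← h1, Polynomial.height_eq_height_add_one (origin α E) P, IH]
    simp

end origin

end Pool.Agent.LibDb3ab1
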