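import Pool.Agent.LibDb3ab1.Defs

/-!
# Compactness: small tubes are contained in open neighbourhoods
-/

set_option autoImplicit false
set_option linter.unusedSectionVars false
set_option linter.style.haveILetI false

noncomputable section

namespace Pool.Agent.LibDb3ab1

open MvPolynomial Filter

universe u

section ultra

variable {K : Type u} [Field K] {O : ValuationSubring K} {p : ℕ}
variable {L : ℕ → Type u} [∀ m, Field (L m)] {ι : ∀ m, K →+* L m}
  {V : ∀ m, ValuationSubring (L m)}

/-- The non-units in an extension. -/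
theorem ValuedExt.not_isUnit {K : Type u} [Field K] {O : ValuationSubring K} {L : Type u} [Field L]
    {ι : K →+* L} {V : ValuationSubring L} (h : ValuedExt O ι V) {x : O} (hx : ¬IsUnit x) :
    ¬IsUnit (h.incl x) := by
  intro hu
  apply hx
  obtain ⟨y, hy⟩ := isUnit_iff_exists_inv.mp hu
  have hx0 : (x : K) ≠ 0 := by
    intro h0
    have h1 : x = 0 := Subtype.ext h0
    rw [h1, map_zero, zero_mul] at hy
    exact zero_ne_one hy
  have h2 : ι ((x : K)⁻¹) = (y : L) := by
    rw [map_inv₀]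
    have h3 : ι (x : K) * (y : L) = 1 := congrArg Subtype.val hy
    exact (eq_inv_of_mul_eq_one_right h3).symm
  have h4 : (x : K)⁻¹ ∈ O := by
    have h5 : (x : K)⁻¹ ∈ V.comap ι := by
      change ι _ ∈ V
      rw [h2]
      exact y.2
    exact h.comap_eq ▸ h5
  exact isUnit_iff_exists_inv.mpr ⟨⟨_, h4⟩, Subtype.ext (mul_inv_cancel₀ hx0)⟩

theorem ValuedExt.p_ne_zero {K : Type u} [Field K] {O : ValuationSubring K} {L : Type u} [Field L]
    {ι : K →+* L} {V : ValuationSubring L} (_h : ValuedExt O ι V) (hp : (p : K) ≠ 0) :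
    (p : V) ≠ 0 := by
  intro h0
  have h1 : ι (p : K) = 0 := by
    rw [map_natCast]
    exact congrArg Subtype.val h0
  exact hp ((map_eq_zero ι).mp h1)

/-- The ideal of sequences tending to zero along the ultrafilter. -/
def qIdeal (V : ∀ m, ValuationSubring (L m)) (p : ℕ) : Ideal (∀ m, V m) where
  carrier := {x | ∀ j : ℕ, ∀ᶠ m in (hyperfilter ℕ : Filter ℕ), (p : V m) ^ j ∣ x m}
  zero_mem' := fun j => Eventually.of_forall fun m => dvd_zero _
  add_mem' := fun {x y} hx hy j => by
    filter_upwards [hx j, hy j] with m h1 h2 using dvd_add h1 h2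
  smul_mem' := fun c x hx j => by
    filter_upwards [hx j] with m h1 using Dvd.dvd.mul_left h1 _

theorem mem_qIdeal {x : ∀ m, V m} : x ∈ qIdeal V p ↔
    ∀ j : ℕ, ∀ᶠ m in (hyperfilter ℕ : Filter ℕ), (p : V m) ^ j ∣ x m := Iff.rfl

theorem dvd_total' {L : Type u} [Field L] (V : ValuationSubring L) (a b : V) : a ∣ b ∨ b ∣ a :=
  ValuationRing.dvd_total a b

/-- Elements outside of the ideal divide a power of `p`. -/
theorem dvd_pow_of_not_mem {x : ∀ m, V m} (hx : x ∉ qIdeal V p) :
    ∃ j : ℕ, ∀ᶠ m in (hyperfilter ℕ : Filter ℕ), x m ∣ (p : V m) ^ j := by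
  rw [mem_qIdeal] at hx
  push Not at hx
  obtain ⟨j, hj⟩ := hx
  refine ⟨j, ?_⟩
  filter_upwards [hj] with m hm
  exact (dvd_total' (V m) _ _).resolve_right hm

variable (hp0 : (p : K) ≠ 0) (hpu : ¬IsUnit (p : O)) (hV : ∀ m, ValuedExt O (ι m) (V m))

include hp0 hpu hV

theorem not_succ_dvd (m j : ℕ) : ¬(p : V m) ^ (j + 1) ∣ (p : V m) ^ j := by
  intro ⟨c, hc⟩
  have h1 : (p : V m) * c = 1 := by
    apply mul_left_cancel₀ (pow_ne_zero j ((hV m).p_ne_zero hp0))
    rw [← mul_assoc, ← pow_succ, ← hc, mul_one]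
  have h2 : IsUnit (p : V m) := IsUnit.of_mul_eq_one _ h1
  have h3 := (hV m).not_isUnit hpu
  rw [map_natCast] at h3
  exact h3 h2

theorem qIdeal_isPrime : (qIdeal V p).IsPrime := by
  constructor
  · intro h
    have h1 : (1 : ∀ m, V m) ∈ qIdeal V p := by rw [h]; trivial
    obtain ⟨m, hm⟩ := (h1 1).exists
    rw [pow_one] at hm
    have h2 := not_succ_dvd hp0 hpu hV m 0
    rw [zero_add, pow_one, pow_zero] at h2
    exact h2 hm
  · intro x y hxy
    by_contra hcon
    push Not at hcon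
    obtain ⟨j, hj⟩ := dvd_pow_of_not_mem hcon.1
    obtain ⟨k, hk⟩ := dvd_pow_of_not_mem hcon.2
    obtain ⟨m, hm1, hm2, hm3⟩ := ((hj.and hk).and (hxy (j + k + 1))).exists.imp
      fun m h => (⟨h.1.1, h.1.2, h.2⟩ : _ ∧ _ ∧ _)
    apply not_succ_dvd hp0 hpu hV m (j + k)
    refine hm3.trans ?_
    rw [Pi.mul_apply, pow_add]
    exact mul_dvd_mul hm1 hm2

/-- The limit ring. -/
abbrev LimRing (V : ∀ m, ValuationSubring (L m)) (p : ℕ) : Type u := (∀ m, V m) ⧸ qIdeal V p

theorem limRing_isDomain : IsDomain (LimRing V p) := by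
  haveI := qIdeal_isPrime hp0 hpu hV
  infer_instance

theorem limRing_dvd_total (x y : LimRing V p) : x ∣ y ∨ y ∣ x := by
  obtain ⟨x, rfl⟩ := Ideal.Quotient.mk_surjective x
  obtain ⟨y, rfl⟩ := Ideal.Quotient.mk_surjective y
  have h1 : ∀ᶠ m in (hyperfilter ℕ : Filter ℕ), x m ∣ y m ∨ y m ∣ x m :=
    Eventually.of_forall fun m => dvd_total' (V m) _ _
  have key : ∀ a b : ∀ m, V m, (∀ᶠ m in (hyperfilter ℕ : Filter ℕ), a m ∣ b m) →
      Ideal.Quotient.mk (qIdeal V p) a ∣ Ideal.Quotient.mk (qIdeal V p) b := by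
    intro a b hab
    classical
    let c : ∀ m, V m := fun m => if h : a m ∣ b m then h.choose else 0
    refine ⟨Ideal.Quotient.mk _ c, ?_⟩
    rw [← map_mul, Ideal.Quotient.eq]
    intro j
    filter_upwards [hab] with m hm
    have h2 : b m = a m * c m := by
      simp only [c, dif_pos hm]
      exact hm.choose_spec
    rw [Pi.sub_apply, Pi.mul_apply, h2, sub_self]
    exact dvd_zero _
  rcases Ultrafilter.eventually_or.mp h1 with h | h
  · exact Or.inl (key x y h)
  · exact Or.inr (key y x h)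

theorem exists_limRing : ∃ (A : Type u) (_ : CommRing A) (_ : IsDomain A)
    (π : (∀ m, V m) →+* A), Function.Surjective π ∧ (∀ x, π x = 0 ↔ x ∈ qIdeal V p) ∧
      ∀ x y : A, x ∣ y ∨ y ∣ x :=
  ⟨LimRing V p, inferInstance, limRing_isDomain hp0 hpu hV, Ideal.Quotient.mk _,
    Ideal.Quotient.mk_surjective, fun _ => Ideal.Quotient.eq_zero_iff_mem,
    limRing_dvd_total hp0 hpu hV⟩

/-- The limit valued extension. -/
theorem exists_limit (hsep : ∀ a : O, a ≠ 0 → ∃ j : ℕ, a ∣ (p : O) ^ j) :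
    ∃ (LL : Type u) (_ : Field LL) (ιL : K →+* LL) (VL : ValuationSubring LL)
      (hVL : ValuedExt O ιL VL) (π : (∀ m, V m) →+* VL), Function.Surjective π ∧
      (∀ x, π x = 0 ↔ x ∈ qIdeal V p) ∧ ∀ a : O, π (fun m => (hV m).incl a) = hVL.incl a := by
  classical
  obtain ⟨A, _, _, π, hπs, hπ0, hdvd⟩ := exists_limRing hp0 hpu hV
  have hinj : Function.Injective (algebraMap A (FractionRing A)) :=
    IsFractionRing.injective A (FractionRing A)
  have hne : ∀ a : A, a ≠ 0 → algebraMap A (FractionRing A) a ≠ 0 := by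
    intro a ha h0
    exact ha (hinj (by rw [h0, map_zero]))
  let dia : O →+* (∀ m, V m) := RingHom.pi fun m => (hV m).incl
  have hg0 : ∀ a : O, a ≠ 0 → π (dia a) ≠ 0 := by
    intro a ha h0
    obtain ⟨j, hj⟩ := hsep a ha
    have h1 : dia a ∈ qIdeal V p := (hπ0 _).mp h0
    obtain ⟨m, hm⟩ := (h1 (j + 1)).exists
    apply not_succ_dvd hp0 hpu hV m j
    refine hm.trans ?_
    have h2 := map_dvd (hV m).incl hj
    rwa [map_pow, map_natCast] at h2
  let g : O →+* FractionRing A := (algebraMap A (FractionRing A)).comp (π.comp dia)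
  have hg : Function.Injective g := by
    rw [injective_iff_map_eq_zero]
    intro a ha
    by_contra hne'
    exact hne _ (hg0 a hne') ha
  let ιL : K →+* FractionRing A := IsFractionRing.lift hg
  have hιL : ∀ a : O, ιL (a : K) = algebraMap A (FractionRing A) (π (dia a)) :=
    fun a => IsFractionRing.lift_algebraMap hg a
  let VL : ValuationSubring (FractionRing A) :=
    { (algebraMap A (FractionRing A)).range with
      mem_or_inv_mem' := by
        intro x
        change x ∈ (algebraMap A (FractionRing A)).range ∨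
          x⁻¹ ∈ (algebraMap A (FractionRing A)).range
        obtain ⟨a, b, hb, rfl⟩ := IsFractionRing.div_surjective (A := A) x
        have hb0 := hne b (nonZeroDivisors.ne_zero hb)
        by_cases ha : a = 0
        · left
          rw [ha, map_zero, zero_div]
          exact Subring.zero_mem _
        have ha0 := hne a ha
        rcases hdvd a b with ⟨c, hc⟩ | ⟨c, hc⟩
        · right
          refine ⟨c, ?_⟩
          rw [inv_div, hc, map_mul, mul_div_cancel_left₀ _ ha0]
        · left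
          refine ⟨c, ?_⟩
          rw [hc, map_mul, mul_div_cancel_left₀ _ hb0] }
  have hmemVL : ∀ x, x ∈ VL ↔ ∃ a : A, algebraMap A (FractionRing A) a = x := fun x => Iff.rfl
  let π0 : A →+* VL := (algebraMap A (FractionRing A)).codRestrict VL.toSubring fun a => ⟨a, rfl⟩
  have hcomap : ∀ a : K, ιL a ∈ VL → a ∈ O := by
    intro a ha
    by_contra haO
    have ha0 : a ≠ 0 := by
      rintro rfl
      exact haO O.zero_mem
    have hb : a⁻¹ ∈ O := (O.mem_or_inv_mem a).resolve_left haO
    let b : O := ⟨a⁻¹, hb⟩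
    have hbu : ¬IsUnit b := by
      intro hu
      obtain ⟨y, hy⟩ := isUnit_iff_exists_inv.mp hu
      apply haO
      have h1 : a⁻¹ * (y : K) = 1 := congrArg Subtype.val hy
      have h2 : a = (y : K) := by
        field_simp at h1
        exact h1.symm
      rw [h2]
      exact y.2
    obtain ⟨c, hc⟩ := (hmemVL _).mp ha
    have h3 : c * π (dia b) = 1 := by
      apply hinj
      rw [map_mul, map_one, hc, ← hιL b, ← map_mul]
      change ιL (a * a⁻¹) = 1
      rw [mul_inv_cancel₀ ha0, map_one]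
    obtain ⟨c, rfl⟩ := hπs c
    have h5 : c * dia b - 1 ∈ qIdeal V p := by
      rw [← hπ0, map_sub, map_mul, h3, map_one, sub_self]
    obtain ⟨m, hm⟩ := (h5 1).exists
    rw [pow_one] at hm
    have h6 := (hV m).not_isUnit hbu
    have h7 := (hV m).not_isUnit hpu
    rw [map_natCast] at h7
    have h8 : (hV m).incl b ∈ IsLocalRing.maximalIdeal (V m) :=
      (IsLocalRing.mem_maximalIdeal _).mpr h6
    have h9 : (p : V m) ∈ IsLocalRing.maximalIdeal (V m) :=
      (IsLocalRing.mem_maximalIdeal _).mpr h7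
    obtain ⟨d, hd⟩ := hm
    apply (Ideal.ne_top_iff_one _).mp (IsLocalRing.maximalIdeal.isMaximal (V m)).ne_top
    have h10 : (1 : V m) = c m * (hV m).incl b - p * d := by
      rw [← hd]
      change (1 : V m) = c m * (hV m).incl b - (c m * (hV m).incl b - 1)
      ring
    rw [h10]
    exact Ideal.sub_mem _ (Ideal.mul_mem_left _ _ h8) (Ideal.mul_mem_right _ _ h9)
  have hVL : ValuedExt O ιL VL := by
    constructor
    · ext a
      change ιL a ∈ VL ↔ a ∈ O
      exact ⟨hcomap a, fun ha => (hmemVL _).mpr ⟨π (dia ⟨a, ha⟩), (hιL ⟨a, ha⟩).symm⟩⟩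
    · intro x hx
      obtain ⟨a, b, hb, rfl⟩ := IsFractionRing.div_surjective (A := A) x
      have ha : a ≠ 0 := by
        rintro rfl
        exact hx (by rw [map_zero, zero_div])
      obtain ⟨a', ha'e⟩ := hπs a
      have ha' : a' ∉ qIdeal V p := fun h => ha (by rw [← ha'e]; exact (hπ0 _).mpr h)
      obtain ⟨j, hj⟩ := dvd_pow_of_not_mem ha'
      have hdvd2 : a ∣ (p : A) ^ j := by
        let c : ∀ m, V m := fun m => if h : a' m ∣ (p : V m) ^ j then h.choose else 0
        refine ⟨π c, ?_⟩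
        rw [← ha'e, ← map_mul, ← map_natCast π, ← map_pow, ← sub_eq_zero, ← map_sub, hπ0]
        intro k
        filter_upwards [hj] with m hm
        have h2 : (p : V m) ^ j = a' m * c m := by
          simp only [c, dif_pos hm]
          exact hm.choose_spec
        have h3 : ((p : ∀ m, V m) ^ j - a' * c) m = (p : V m) ^ j - a' m * c m := rfl
        rw [h3, h2, sub_self]
        exact dvd_zero _
      obtain ⟨c, hc⟩ := hdvd2
      refine ⟨(p : K) ^ j, pow_ne_zero _ hp0, (hmemVL _).mpr ⟨c * b, ?_⟩⟩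
      rw [map_pow, map_natCast]
      have h4 : (p : FractionRing A) ^ j =
          algebraMap A (FractionRing A) a * algebraMap A (FractionRing A) c := by
        rw [← map_mul, ← hc, map_pow, map_natCast]
      have ha0 := hne a ha
      have hb0 := hne b (nonZeroDivisors.ne_zero hb)
      rw [h4, map_mul]
      field_simp
  refine ⟨FractionRing A, inferInstance, ιL, VL, hVL, π0.comp π, ?_, ?_, ?_⟩
  · intro y
    obtain ⟨a, ha⟩ := (hmemVL _).mp y.2
    obtain ⟨a, rfl⟩ := hπs a
    exact ⟨a, Subtype.ext ha⟩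
  · intro x
    rw [RingHom.comp_apply, ← hπ0]
    constructor
    · intro h
      apply hinj
      rw [map_zero]
      exact congrArg Subtype.val h
    · intro h
      rw [h, map_zero]
  · intro a
    exact Subtype.ext (hιL a).symm

end ultra

section tube

variable {K : Type u} [Field K] {O : ValuationSubring K} {p : ℕ} {n : ℕ}

theorem pointRel_basic {L : Type u} [Field L] {ι : K →+* L} {V : ValuationSubring L}
    {x : Fin (n + 1) → L} {d : ℕ} {F G : MvPolynomial (Fin (n + 1)) K} (hF : F.IsHomogeneous d)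
    (hG : G.IsHomogeneous d) :
    ((F, G) ∈ pointRel ι V x ∧ (G, 0) ∉ pointRel ι V x) ↔
      V.valuation (eval₂ ι x F) ≤ V.valuation (eval₂ ι x G) ∧ eval₂ ι x G ≠ 0 := by
  constructor
  · rintro ⟨⟨_, _, _, h1⟩, h2⟩
    refine ⟨h1, fun h0 => h2 ⟨d, hG, isHomogeneous_zero _ _ _, ?_⟩⟩
    rw [h0, eval₂_zero]
  · rintro ⟨h1, h2⟩
    refine ⟨⟨d, hF, hG, h1⟩, ?_⟩
    rintro ⟨_, _, _, h3⟩
    apply h2
    rw [eval₂_zero, map_zero] at h3
    exact (map_eq_zero V.valuation).mp (le_antisymm h3 zero_le)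

/-- Clearing denominators. -/
theorem exists_integral_poly (F G : MvPolynomial (Fin (n + 1)) K) :
    ∃ (b : O) (F' G' : MvPolynomial (Fin (n + 1)) O), b ≠ 0 ∧
      map O.subtype F' = C (b : K) * F ∧ map O.subtype G' = C (b : K) * G := by
  classical
  obtain ⟨b, hb⟩ := IsLocalization.exist_integer_multiples_of_finset (nonZeroDivisors O)
    (F.support.image (fun I => coeff I F) ∪ G.support.image (fun I => coeff I G) : Finset K)
  have key : ∀ H : MvPolynomial (Fin (n + 1)) K,
      (∀ I ∈ H.support, IsLocalization.IsInteger O ((b : O) • coeff I H)) →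
      ∃ H' : MvPolynomial (Fin (n + 1)) O, map O.subtype H' = C ((b : O) : K) * H := by
    intro H hH
    choose! c hc using hH
    refine ⟨∑ I ∈ H.support, monomial I (c I), ?_⟩
    rw [map_sum]
    conv_rhs => rw [H.as_sum, Finset.mul_sum]
    apply Finset.sum_congr rfl
    intro I hI
    rw [map_monomial, C_mul_monomial]
    congr 1
    exact hc I hI
  obtain ⟨F', hF'⟩ := key F fun I hI => hb _ (Finset.mem_union_left _
    (Finset.mem_image_of_mem _ hI))
  obtain ⟨G', hG'⟩ := key G fun I hI => hb _ (Finset.mem_union_right _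
    (Finset.mem_image_of_mem _ hI))
  exact ⟨b, F', G', nonZeroDivisors.ne_zero b.2, hF', hG'⟩

theorem eval_integral {L : Type u} [Field L] {ι : K →+* L} {V : ValuationSubring L}
    (hV : ValuedExt O ι V) {b : O} {F : MvPolynomial (Fin (n + 1)) K}
    {F' : MvPolynomial (Fin (n + 1)) O} (h : map O.subtype F' = C (b : K) * F)
    (x : Fin (n + 1) → V) :
    ((eval₂ hV.incl x F' : V) : L) = ι b * eval₂ ι (fun l => (x l : L)) F := by
  have h1 := congrArg (eval₂ ι (fun l => (x l : L))) h
  rw [eval₂_map, eval₂_mul, eval₂_C] at h1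
  rw [← h1]
  change V.subtype (eval₂ hV.incl x F') = _
  rw [hom_eval₂]
  rfl

theorem val_le_iff_dvd {L : Type u} [Field L] {ι : K →+* L} {V : ValuationSubring L}
    (hV : ValuedExt O ι V) {b : O} (hb : b ≠ 0) {F G : MvPolynomial (Fin (n + 1)) K}
    {F' G' : MvPolynomial (Fin (n + 1)) O} (hF : map O.subtype F' = C (b : K) * F)
    (hG : map O.subtype G' = C (b : K) * G) (x : Fin (n + 1) → V) :
    (V.valuation (eval₂ ι (fun l => (x l : L)) F) ≤ V.valuation (eval₂ ι (fun l => (x l : L)) G) ∧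
      eval₂ ι (fun l => (x l : L)) G ≠ 0) ↔
      (eval₂ hV.incl x G' ∣ eval₂ hV.incl x F' ∧ eval₂ hV.incl x G' ≠ 0) := by
  have hb0 : ι (b : K) ≠ 0 := by
    rw [Ne, map_eq_zero]
    exact fun h => hb (Subtype.ext h)
  have eF := eval_integral hV hF x
  have eG := eval_integral hV hG x
  have hG0 : eval₂ ι (fun l => (x l : L)) G ≠ 0 ↔ eval₂ hV.incl x G' ≠ 0 := by
    rw [not_iff_not]
    constructor
    · intro h
      apply Subtype.ext
      rw [eG, h, mul_zero]; rfl
    · intro h
      rw [h] at eG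
      exact (mul_eq_zero.mp eG.symm).resolve_left hb0
  rw [hG0]
  apply and_congr_left
  intro hne
  have hne' : ((eval₂ hV.incl x G' : V) : L) ≠ 0 := fun h => hne (Subtype.ext h)
  have hval : V.valuation (eval₂ ι (fun l => (x l : L)) F) ≤
      V.valuation (eval₂ ι (fun l => (x l : L)) G) ↔
      V.valuation ((eval₂ hV.incl x F' : V) : L) ≤
      V.valuation ((eval₂ hV.incl x G' : V) : L) := by
    rw [eF, eG, map_mul, map_mul]
    have h1 : 0 < V.valuation (ι (b : K)) := by
      rw [zero_lt_iff, Ne, map_eq_zero]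
      exact hb0
    exact (mul_le_mul_iff_right₀ h1).symm
  rw [hval]
  have h2 : 0 < V.valuation ((eval₂ hV.incl x G' : V) : L) := by
    rw [zero_lt_iff, Ne, map_eq_zero]
    exact hne'
  rw [← div_le_one₀ h2, ← map_div₀, V.valuation_le_one_iff]
  constructor
  · intro h
    exact ⟨⟨_, h⟩, Subtype.ext (by
      change _ = ((eval₂ hV.incl x G' : V) : L) * (_ / _)
      rw [mul_div_cancel₀ _ hne'])⟩
  · rintro ⟨c, hc⟩
    rw [hc]
    change ((eval₂ hV.incl x G' : V) : L) * c / _ ∈ V
    rw [mul_div_cancel_left₀ _ hne']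
    exact c.2

/-- **Compactness**: a small tube around the image of `Z` is contained in `U`. -/
theorem compact_tube (hp0 : (p : K) ≠ 0) (hpu : ¬IsUnit (p : O))
    (hsep : ∀ a : O, a ≠ 0 → ∃ j : ℕ, a ∣ (p : O) ^ j)
    {τ : Type} [Finite τ] {s : ℕ} (grp : τ → Fin s) {J : Type}
    (F : J → MvPolynomial τ O) (φ : Fin (n + 1) → MvPolynomial τ O)
    (U : Set (AdicProj O n)) (hU : IsOpen U)
    (hlim : ∀ (L : Type u) [Field L] (ι : K →+* L) (V : ValuationSubring L)
      (hV : ValuedExt O ι V) (z : τ → V) (v : Fin s → τ), (∀ i, grp (v i) = i) →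
      (∀ i, z (v i) = 1) → (∀ j, eval₂ hV.incl z (F j) = 0) →
      ∃ a ∈ U, a.1 = pointRel ι V (fun l => ((eval₂ hV.incl z (φ l) : V) : L))) :
    ∃ m : ℕ, ∀ (L : Type u) [Field L] (ι : K →+* L) (V : ValuationSubring L)
      (hV : ValuedExt O ι V) (z : τ → V) (x : Fin (n + 1) → V) (v : Fin s → τ),
      (∀ i, grp (v i) = i) → (∀ i, z (v i) = 1) → (∀ j, (p : V) ^ m ∣ eval₂ hV.incl z (F j)) →
      (∀ l, (p : V) ^ m ∣ x l - eval₂ hV.incl z (φ l)) → x ≠ 0 →
      ∃ a ∈ U, a.1 = pointRel ι V (fun l => (x l : L)) := by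
  classical
  by_contra hcon
  push Not at hcon
  choose L fL ι V hV z x v hv hz hF hx hx0 hU' using hcon
  -- the sequence of points
  let a : ℕ → AdicProj O n := fun m => ⟨pointRel (ι m) (V m) (fun l => (x m l : L m)),
    ⟨L m, fL m, ι m, V m, fun l => (x m l : L m), hV m, by
      intro h
      apply hx0 m
      funext l
      exact Subtype.ext (congrFun h l), rfl⟩⟩
  have haU : ∀ m, a m ∉ U := fun m h => hU' m (a m) h rfl
  obtain ⟨LL, _, ιL, VL, hVL, π, hπs, hπ0, hπO⟩ := exists_limit hp0 hpu hV hsep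
  have hev : ∀ {σ : Type} (w : ∀ m, σ → V m) (P : MvPolynomial σ O),
      eval₂ hVL.incl (fun i => π (fun m => w m i)) P = π (fun m => eval₂ (hV m).incl (w m) P) := by
    intro σ w P
    have h1 : (fun m => eval₂ (hV m).incl (w m) P) =
        eval₂ (RingHom.pi fun m => (hV m).incl) (fun i m => w m i) P := by
      funext m
      have h2 := hom_eval₂ P (RingHom.pi fun m => (hV m).incl) (Pi.evalRingHom _ m)
        (fun i m => w m i)
      exact h2.symm
    rw [h1, hom_eval₂]
    congr 1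
    ext b
    exact congrArg Subtype.val (hπO b).symm
  have heventually : ∀ j : ℕ, ∀ᶠ m in (hyperfilter ℕ : Filter ℕ), j ≤ m := by
    intro j
    apply (hyperfilter_le_cofinite : (hyperfilter ℕ : Filter ℕ) ≤ cofinite)
    rw [Nat.cofinite_eq_atTop]
    exact eventually_ge_atTop j
  -- choose the normalisation
  obtain ⟨w, hw⟩ := Ultrafilter.eq_pure_of_finite ((hyperfilter ℕ).map v)
  have hw' : ∀ᶠ m in (hyperfilter ℕ : Filter ℕ), v m = w := by
    have h1 : ({w} : Set (Fin s → τ)) ∈ (hyperfilter ℕ).map v := by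
      rw [hw]; exact Set.mem_singleton w
    exact h1
  have hwgrp : ∀ i, grp (w i) = i := by
    obtain ⟨m, hm⟩ := hw'.exists
    rw [← hm]
    exact hv m
  let z' : τ → VL := fun t => π (fun m => z m t)
  have hz' : ∀ i, z' (w i) = 1 := by
    intro i
    rw [← sub_eq_zero, ← map_one π, ← map_sub, hπ0]
    intro j
    filter_upwards [hw'] with m hm
    have h1 : ((fun m => z m (w i)) - 1 : ∀ m, V m) m = z m (w i) - 1 := rfl
    rw [h1, ← hm, hz m i, sub_self]
    exact dvd_zero _
  have hF' : ∀ j, eval₂ hVL.incl z' (F j) = 0 := by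
    intro j
    rw [hev, hπ0]
    intro k
    filter_upwards [heventually k] with m hm
    exact (pow_dvd_pow _ hm).trans (hF m j)
  obtain ⟨a', ha'U, ha'⟩ := hlim LL ιL VL hVL z' w hwgrp hz' hF'
  have hxlim : ∀ l, eval₂ hVL.incl z' (φ l) = π (fun m => x m l) := by
    intro l
    rw [hev, ← sub_eq_zero, ← neg_eq_zero, neg_sub, ← map_sub, hπ0]
    intro k
    filter_upwards [heventually k] with m hm
    exact (pow_dvd_pow _ hm).trans (hx m l)
  have hpt : a'.1 = pointRel ιL VL (fun l => ((π (fun m => x m l) : VL) : LL)) := by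
    rw [ha']
    congr 1
    funext l
    rw [hxlim]
  have htend : Tendsto a (hyperfilter ℕ : Filter ℕ) (nhds a') := by
    rw [TopologicalSpace.tendsto_nhds_generateFrom_iff]
    rintro _ ⟨d, P, Q, hP, hQ, rfl⟩ hmem
    have hmem' : (P, Q) ∈ a'.1 ∧ (Q, 0) ∉ a'.1 := hmem
    rw [hpt, pointRel_basic hP hQ] at hmem'
    obtain ⟨b, P', Q', hb, hP', hQ'⟩ := exists_integral_poly (O := O) P Q
    rw [val_le_iff_dvd hVL hb hP' hQ', hev, hev] at hmem'
    obtain ⟨⟨c, hc⟩, hne⟩ := hmem'
    obtain ⟨c, rfl⟩ := hπs c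
    have hne' : (fun m => eval₂ (hV m).incl (x m) Q') ∉ qIdeal V p := fun h => hne ((hπ0 _).mpr h)
    obtain ⟨j, hj⟩ := dvd_pow_of_not_mem hne'
    have hdiff : (fun m => eval₂ (hV m).incl (x m) P') -
        (fun m => eval₂ (hV m).incl (x m) Q') * c ∈ qIdeal V p := by
      rw [← hπ0, map_sub, hc, map_mul, sub_self]
    have hd := hdiff j
    have hfin : ∀ᶠ m in (hyperfilter ℕ : Filter ℕ),
        a m ∈ {a : AdicProj O n | (P, Q) ∈ a.1 ∧ (Q, 0) ∉ a.1} := by
      filter_upwards [hd, hj] with m hm1 hm2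
      change (P, Q) ∈ (a m).1 ∧ (Q, 0) ∉ (a m).1
      rw [pointRel_basic hP hQ, val_le_iff_dvd (hV m) hb hP' hQ']
      have hm3 : (p : V m) ^ j ∣ eval₂ (hV m).incl (x m) P' -
          eval₂ (hV m).incl (x m) Q' * c m := hm1
      refine ⟨?_, ?_⟩
      · have h1 := hm2.trans hm3
        rw [dvd_sub_left (Dvd.intro _ rfl)] at h1
        exact h1
      · intro h0
        rw [h0, zero_dvd_iff] at hm2
        exact pow_ne_zero j ((hV m).p_ne_zero hp0) hm2
    exact hfin
  obtain ⟨m, hm⟩ := (htend.eventually (hU.mem_nhds ha'U)).exists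
  exact haU m hm

end tube

end Pool.Agent.LibDb3ab1
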