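import Pool.Agent.LibDb3ab1.Homotopy

/-!
# Existence of the approximating variety, algebraic part
-/

set_option autoImplicit false
set_option linter.unusedSectionVars false
set_option linter.style.haveILetI false

noncomputable section

namespace Pool.Agent.LibDb3ab1

universe u

open MvPolynomial

section dominate

theorem exists_dominating {K : Type u} [Field K] (A : Subring K) (P : Ideal A) [P.IsPrime] :
    ∃ V : ValuationSubring K, A ≤ V.toSubring ∧ ∀ a : A, (a : K) ∈ V.nonunits ↔ a ∈ P := by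
  obtain ⟨V, hV⟩ := (LocalSubring.ofPrime A P).exists_le_valuationSubring
  obtain ⟨hle, hloc⟩ := hV
  refine ⟨V, (LocalSubring.le_ofPrime A P).trans hle, ?_⟩
  intro a
  have ha : (a : K) ∈ (LocalSubring.ofPrime A P).toSubring := LocalSubring.le_ofPrime A P a.2
  have haV : (a : K) ∈ V := hle ha
  have h1 : IsUnit (algebraMap A (LocalSubring.ofPrime A P).toSubring a) ↔ a ∈ P.primeCompl :=
    IsLocalization.AtPrime.isUnit_to_map_iff _ P a
  have h2 : IsUnit (⟨(a : K), haV⟩ : V) ↔
      IsUnit (algebraMap A (LocalSubring.ofPrime A P).toSubring a) := by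
    constructor
    · intro h
      exact hloc.map_nonunit _ h
    · intro h
      exact h.map (Subring.inclusion hle)
  have h3 : (a : K) ∈ V.nonunits ↔ ¬IsUnit (⟨(a : K), haV⟩ : V) := by
    rw [ValuationSubring.mem_nonunits_iff_exists_mem_maximalIdeal]
    constructor
    · rintro ⟨h, h'⟩
      exact (IsLocalRing.mem_maximalIdeal _).mp h'
    · intro h
      exact ⟨haV, (IsLocalRing.mem_maximalIdeal _).mpr h⟩
  rw [h3, h2, h1]
  simp [Ideal.primeCompl]

theorem exists_dominating_hom {A K : Type u} [CommRing A] [Field K] (θ : A →+* K) (P : Ideal A)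
    [P.IsPrime] (hker : RingHom.ker θ ≤ P) :
    ∃ V : ValuationSubring K, (∀ a, θ a ∈ V) ∧ ∀ a, θ a ∈ V.nonunits ↔ a ∈ P := by
  have hsurj := θ.rangeRestrict_surjective
  have hker' : RingHom.ker θ.rangeRestrict ≤ P := by
    rw [RingHom.ker_rangeRestrict]; exact hker
  haveI : (P.map θ.rangeRestrict).IsPrime := Ideal.map_isPrime_of_surjective hsurj hker'
  obtain ⟨V, hV1, hV2⟩ := exists_dominating θ.range (P.map θ.rangeRestrict)
  refine ⟨V, fun a => hV1 ⟨a, rfl⟩, ?_⟩
  intro a
  have h1 := hV2 (θ.rangeRestrict a)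
  rw [RingHom.coe_rangeRestrict] at h1
  rw [h1]
  constructor
  · intro h
    have h2 : a ∈ (P.map θ.rangeRestrict).comap θ.rangeRestrict := h
    rw [Ideal.comap_map_of_surjective _ hsurj] at h2
    have h3 : (⊥ : Ideal θ.range).comap θ.rangeRestrict ≤ P := by
      rw [← RingHom.ker_eq_comap_bot]; exact hker'
    exact (sup_le le_rfl h3) h2
  · intro h
    exact Ideal.mem_map_of_mem _ h

end dominate

section lift

variable {s : ℕ} {τ : Type} {n : ℕ} {k : Type u} [Field k] [Finite τ]
variable {grp : τ → Fin s} {W : Fin s → τ → ℕ} {e : Fin s → ℕ} {J : Type}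

/-- Lifting geometric points of the closure of a point. -/
theorem lift_point (hT : Tri grp W) (he : 0 < ∑ i, e i)
    (F : J → MvPolynomial τ k) {DF : J → Fin s → ℕ} (hF : ∀ j, MH W (F j) (DF j))
    (G : Fin (n + 1) → MvPolynomial (τ ⊕ Fin (n + 1)) k) {DG : Fin (n + 1) → Fin s → ℕ}
    (hG : ∀ l, MH (WW W e n) (G l) (DG l))
    (hP2 : ∀ (κ : Type u) [Field κ] (φ : k →+* κ) (x : Fin (n + 1) → κ),
      (∀ l, eval₂ φ (Sum.elim 0 x) (G l) = 0) → x = 0)
    (hP3 : ∀ (κ : Type u) [Field κ] (φ : k →+* κ) (z : τ → κ), Rel grp z →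
      (∀ j, eval₂ φ z (F j) = 0) → (∀ l, eval₂ φ (Sum.elim z 0) (G l) = 0) → False)
    {E : Type u} [Field E] (φE : k →+* E) {z : τ → E} {x : Fin (n + 1) → E}
    (hz : Rel grp z) (hFz : ∀ j, eval₂ φE z (F j) = 0)
    (hGz : ∀ l, eval₂ φE (Sum.elim z x) (G l) = 0)
    {Ω : Type u} [Field Ω] [IsAlgClosed Ω] (ψ : k →+* Ω) {y : Fin (n + 1) → Ω} (hy : y ≠ 0)
    (hyP : ∀ f ∈ ptIdeal φE x, eval₂ ψ y f = 0) :
    ∃ (z' : τ → Ω) (c : Ω), c ≠ 0 ∧ Rel grp z' ∧ (∀ j, eval₂ ψ z' (F j) = 0) ∧
      ∀ l, eval₂ ψ (Sum.elim z' (fun l => c * y l)) (G l) = 0 := by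
  classical
  let L := AlgebraicClosure (FractionRing (Polynomial E))
  let α : Polynomial E →+* L := algebraMap _ L
  have hα : Function.Injective α := by
    change Function.Injective (algebraMap (Polynomial E) L)
    rw [IsScalarTower.algebraMap_eq (Polynomial E) (FractionRing (Polynomial E)) L]
    exact (algebraMap (FractionRing (Polynomial E)) L).injective.comp
      (IsFractionRing.injective (Polynomial E) _)
  let θ : MvPolynomial (Fin (n + 1)) k →+* L := α.comp (psi φE x)
  let 𝔫 : Ideal (MvPolynomial (Fin (n + 1)) k) := RingHom.ker (eval₂Hom ψ y)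
  haveI : 𝔫.IsPrime := RingHom.ker_isPrime _
  have hker : RingHom.ker θ ≤ 𝔫 := by
    intro f hf
    rw [RingHom.mem_ker] at hf ⊢
    apply hyP
    rw [ptIdeal, RingHom.mem_ker]
    apply hα
    rw [map_zero]
    exact hf
  obtain ⟨V, hV1, hV2⟩ := exists_dominating_hom θ 𝔫 hker
  -- the point over `L`
  let αE : E →+* L := α.comp Polynomial.C
  have hφL : αE.comp φE = θ.comp C := by
    apply RingHom.ext
    intro a
    simp [αE, θ, psi]
  let zL : τ → L := fun v => αE (z v)
  let xL : Fin (n + 1) → L := fun l => αE (x l)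
  have hrel : Rel grp zL := by
    intro i
    obtain ⟨v, hv, hv'⟩ := hz i
    exact ⟨v, hv, by simpa [zL] using hv'⟩
  obtain ⟨μ, hμ0, hμV, hμ1⟩ := exists_scaling V hT hrel
  let z1 : τ → L := act W μ zL
  let x1 : Fin (n + 1) → L := fun l => chr μ e * xL l
  let φV : k →+* V := (θ.comp C).codRestrict V.toSubring (fun a => hV1 _)
  have hcomp : V.subtype.comp φV = θ.comp C := rfl
  have hFL : ∀ j, eval₂ (θ.comp C) z1 (F j) = 0 := by
    intro j
    simp only [z1]
    rw [eval₂_act (hF j), ← hφL]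
    have h1 : eval₂ (αE.comp φE) zL (F j) = αE (eval₂ φE z (F j)) := by
      rw [hom_eval₂]
    rw [h1, hFz j, map_zero, mul_zero]
  have hGL : ∀ l, eval₂ (θ.comp C) (Sum.elim z1 x1) (G l) = 0 := by
    intro l
    simp only [z1, x1]
    rw [← act_WW, eval₂_act (hG l), ← hφL]
    have h1 : eval₂ (αE.comp φE) (Sum.elim zL xL) (G l) = αE (eval₂ φE (Sum.elim z x) (G l)) := by
      rw [hom_eval₂]
      congr 1
      funext v
      rcases v with v | l <;> rfl
    rw [h1, hGz l, map_zero, mul_zero]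
  let zV : τ → V := fun v => ⟨z1 v, hμV v⟩
  have hx1V : ∀ l, x1 l ∈ V := by
    apply integral_of_bad V (W := W) (e := e) (fun v => hT.sum_pos v) he
      (fun l => MvPolynomial.map φV (G l)) (fun l => (hG l).map φV) ?_ zV x1 ?_
    · intro w hw
      apply hP2 _ ((IsLocalRing.residue V).comp φV) w
      intro l
      have h1 := hw l
      rw [eval₂_map] at h1
      exact h1
    · intro l
      rw [eval₂_map, hcomp]
      exact hGL l
  let xV : Fin (n + 1) → V := fun l => ⟨x1 l, hx1V l⟩
  -- the residue field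
  let κ := IsLocalRing.ResidueField V
  let res : V →+* κ := IsLocalRing.residue V
  let θV : MvPolynomial (Fin (n + 1)) k →+* V := θ.codRestrict V.toSubring hV1
  have hθV : ∀ f, res (θV f) = 0 ↔ f ∈ 𝔫 := by
    intro f
    rw [← hV2 f, IsLocalRing.residue_eq_zero_iff, ← V.coe_mem_nonunits_iff]
    rfl
  let k0 := FractionRing (MvPolynomial (Fin (n + 1)) k ⧸ 𝔫)
  let g1 : MvPolynomial (Fin (n + 1)) k ⧸ 𝔫 →+* κ := Ideal.Quotient.lift 𝔫 (res.comp θV)
    (fun f hf => (hθV f).mpr hf)
  have hg1 : Function.Injective g1 := by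
    apply RingHom.lift_injective_of_ker_le_ideal
    intro f hf
    exact (hθV f).mp hf
  let g2 : MvPolynomial (Fin (n + 1)) k ⧸ 𝔫 →+* Ω := Ideal.Quotient.lift 𝔫 (eval₂Hom ψ y)
    (fun f hf => hf)
  have hg2 : Function.Injective g2 := by
    apply RingHom.lift_injective_of_ker_le_ideal
    exact le_rfl
  let Φ : k0 →+* κ := IsFractionRing.lift hg1
  let Ψ : k0 →+* Ω := IsFractionRing.lift hg2
  let β : MvPolynomial (Fin (n + 1)) k →+* k0 :=
    (algebraMap (MvPolynomial (Fin (n + 1)) k ⧸ 𝔫) k0).comp (Ideal.Quotient.mk 𝔫)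
  have hΦ : Φ.comp β = res.comp θV := by
    apply RingHom.ext
    intro f
    simp only [RingHom.comp_apply, Φ, β]
    rw [IsFractionRing.lift_algebraMap]
    rfl
  have hΨ : Ψ.comp β = eval₂Hom ψ y := by
    apply RingHom.ext
    intro f
    simp only [RingHom.comp_apply, Ψ, β]
    rw [IsFractionRing.lift_algebraMap]
    rfl
  -- the system of equations over `k0`
  let T : (J ⊕ Fin (n + 1)) ⊕ (Fin (n + 1) × Fin (n + 1)) → MvPolynomial (τ ⊕ Fin (n + 1)) k0 :=
    Sum.elim (Sum.elim (fun j => rename Sum.inl (MvPolynomial.map (β.comp C) (F j)))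
      (fun l => MvPolynomial.map (β.comp C) (G l)))
      (fun lm => X (Sum.inr lm.1) * C (β (X lm.2)) - X (Sum.inr lm.2) * C (β (X lm.1)))
  have hΦC : Φ.comp (β.comp C) = res.comp φV := by
    rw [← RingHom.comp_assoc, hΦ]; rfl
  have hΨC : Ψ.comp (β.comp C) = ψ := by
    rw [← RingHom.comp_assoc, hΨ]
    apply RingHom.ext
    intro a
    simp
  obtain ⟨z', x', hz', hx'⟩ := specialize_solution (grp := grp) Φ Ψ T
    (z := fun v => res (zV v)) (x := fun l => res (xV l)) (by
      intro i
      obtain ⟨v, hv, hv1⟩ := hμ1 i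
      refine ⟨v, hv, ?_⟩
      have h1 : zV v = 1 := Subtype.ext hv1
      change res (zV v) ≠ 0
      rw [h1, map_one]
      exact one_ne_zero) (by
      intro r
      rcases r with (j | l) | ⟨l, m⟩
      · simp only [T, Sum.elim_inl]
        rw [eval₂_rename, eval₂_map, hΦC]
        have h1 : eval₂ φV zV (F j) = 0 := by
          apply V.subtype_injective
          rw [hom_eval₂, hcomp, map_zero]
          exact hFL j
        have h2 := congrArg res h1
        rw [hom_eval₂, map_zero] at h2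
        exact h2
      · simp only [T, Sum.elim_inl, Sum.elim_inr]
        rw [eval₂_map, hΦC]
        have h1 : eval₂ φV (Sum.elim zV xV) (G l) = 0 := by
          apply V.subtype_injective
          rw [hom_eval₂, hcomp, map_zero]
          have h3 : (fun i => V.subtype (Sum.elim zV xV i)) = Sum.elim z1 x1 := by
            funext v
            rcases v with v | l <;> rfl
          rw [h3]
          exact hGL l
        have h2 := congrArg res h1
        rw [hom_eval₂, map_zero] at h2
        rw [← h2]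
        congr 1
        funext v
        rcases v with v | l <;> rfl
      · simp only [T, Sum.elim_inr]
        have hβ : ∀ l, Φ (β (X l)) = res (θV (X l)) := fun l => RingHom.congr_fun hΦ (X l)
        rw [eval₂_sub, eval₂_mul, eval₂_mul, eval₂_X, eval₂_X, eval₂_C, eval₂_C, hβ, hβ]
        simp only [Sum.elim_inr]
        rw [← map_mul, ← map_mul, ← map_sub]
        have h1 : xV l * θV (X m) - xV m * θV (X l) = 0 := by
          apply V.subtype_injective
          rw [map_sub, map_mul, map_mul, map_zero]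
          have h2 : ∀ l, V.subtype (θV (X l)) = αE (x l) * α Polynomial.X := by
            intro l
            change θ (X l) = _
            simp [θ, psi, αE]
          rw [h2, h2]
          change (chr μ e * αE (x l)) * (αE (x m) * α Polynomial.X) -
            (chr μ e * αE (x m)) * (αE (x l) * α Polynomial.X) = 0
          ring
        rw [h1, map_zero])
  have hF' : ∀ j, eval₂ ψ z' (F j) = 0 := by
    intro j
    have h1 := hx' (Sum.inl (Sum.inl j))
    simp only [T, Sum.elim_inl] at h1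
    rw [eval₂_rename, eval₂_map, hΨC] at h1
    exact h1
  have hG' : ∀ l, eval₂ ψ (Sum.elim z' x') (G l) = 0 := by
    intro l
    have h1 := hx' (Sum.inl (Sum.inr l))
    simp only [T, Sum.elim_inl, Sum.elim_inr] at h1
    rw [eval₂_map, hΨC] at h1
    exact h1
  have hprop : ∀ l m, x' l * y m = x' m * y l := by
    intro l m
    have h1 := hx' (Sum.inr (l, m))
    simp only [T, Sum.elim_inr] at h1
    have hβ : ∀ l, Ψ (β (X l)) = y l := fun l => by
      have := RingHom.congr_fun hΨ (X l)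
      simpa using this
    rw [eval₂_sub, eval₂_mul, eval₂_mul, eval₂_X, eval₂_X, eval₂_C, eval₂_C, hβ, hβ] at h1
    simp only [Sum.elim_inr] at h1
    exact sub_eq_zero.mp h1
  obtain ⟨l0, hl0⟩ : ∃ l, y l ≠ 0 := by
    by_contra h
    apply hy
    funext l
    by_contra h2
    exact h ⟨l, h2⟩
  have hxc : x' = fun l => (x' l0 / y l0) * y l := by
    funext l
    have := hprop l0 l
    field_simp
    rw [this]
  refine ⟨z', x' l0 / y l0, ?_, hz', hF', ?_⟩
  · intro hc
    apply hP3 Ω ψ z' hz' hF'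
    intro l
    have h1 : x' = 0 := by
      rw [hxc, hc]
      funext l
      simp
    rw [← h1]
    exact hG' l
  · intro l
    rw [← hxc]
    exact hG' l

end lift

section rename

theorem MH.rename_inl {ι τ : Type} {n : ℕ} {R : Type*} [CommRing R] {W : ι → τ → ℕ}
    {e : ι → ℕ} {P : MvPolynomial τ R} {a : ι → ℕ} (hP : MH W P a) :
    MH (WW W e n) (rename Sum.inl P) a := by
  classical
  intro i m hm
  obtain ⟨u, hu, hu'⟩ := coeff_rename_ne_zero _ _ _ hm
  have h1 := hP i hu'
  rw [← hu, ← h1, Finsupp.weight_apply, Finsupp.weight_apply,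
    Finsupp.sum_mapDomain_index (by simp) (by intros; simp [add_mul])]
  rfl

end rename

section exists_Y

variable {s : ℕ} {τ : Type} {n d : ℕ} {k : Type u} [Field k] [Finite τ]
variable {grp : τ → Fin s} {W : Fin s → τ → ℕ} {e : Fin s → ℕ} {J : Type} {o : Fin s → τ}

theorem exists_transcendence (d : ℕ) (k : Type u) [Field k] :
    ∃ (E : Type u) (_ : Field E) (_ : IsAlgClosed E) (_ : Algebra k E) (t : Fin d → E),
      IsTranscendenceBasis k t := by
  let A := MvPolynomial (Fin d) k
  let E := AlgebraicClosure (FractionRing A)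
  haveI : Algebra.IsAlgebraic A (FractionRing A) :=
    IsLocalization.isAlgebraic _ (nonZeroDivisors A)
  haveI : Algebra.IsAlgebraic A E := Algebra.IsAlgebraic.trans A (FractionRing A) E
  haveI : FaithfulSMul A E := by
    rw [faithfulSMul_iff_algebraMap_injective, IsScalarTower.algebraMap_eq A (FractionRing A) E]
    exact (algebraMap (FractionRing A) E).injective.comp (IsFractionRing.injective A _)
  exact ⟨E, inferInstance, inferInstance, inferInstance, _,
    (IsTranscendenceBasis.mvPolynomial (Fin d) k).algebraMap_comp (A := E)⟩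

/-- Existence of the approximating variety `Y`, algebraic part. -/
theorem exists_Y (hT : Tri grp W) (he : 0 < ∑ i, e i) (ho : ∀ i, grp (o i) = i)
    (F : J → MvPolynomial τ k) {DF : J → Fin s → ℕ} (hF : ∀ j, MH W (F j) (DF j))
    (G : Fin (n + 1) → MvPolynomial (τ ⊕ Fin (n + 1)) k) {q : Fin (n + 1) → ℕ}
    (hq : ∀ l, 0 < q l) (hG : ∀ l, MH (WW W e n) (G l) (fun i => e i * q l))
    (β : {v : τ // v ≠ o (grp v)} ≃ J ⊕ Fin d)
    {m : {v : τ // v ≠ o (grp v)} → ℕ} (hm : ∀ v, 0 < m v)
    {b : {v : τ // v ≠ o (grp v)} → Fin s → ℕ}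
    (hmb : ∀ (v : {v : τ // v ≠ o (grp v)}) (i : Fin s), m v * W i v + ∑ i', b v i' * W i (o i') =
      Sum.elim DF (fun _ => e) (β v) i)
    (hP2 : ∀ (κ : Type u) [Field κ] (φ : k →+* κ) (x : Fin (n + 1) → κ),
      (∀ l, eval₂ φ (Sum.elim 0 x) (G l) = 0) → x = 0)
    (hP3 : ∀ (κ : Type u) [Field κ] (φ : k →+* κ) (z : τ → κ), Rel grp z →
      (∀ j, eval₂ φ z (F j) = 0) → (∀ l, eval₂ φ (Sum.elim z 0) (G l) = 0) → False) :
    ∃ 𝔓 : Ideal (MvPolynomial (Fin (n + 1)) k), 𝔓.IsPrime ∧
      (∀ f ∈ 𝔓, ∀ m, homogeneousComponent m f ∈ 𝔓) ∧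
      ringKrullDim (MvPolynomial (Fin (n + 1)) k ⧸ 𝔓) = (d + 1 : ℕ) ∧
      ∀ (Ω : Type u) [Field Ω] [IsAlgClosed Ω] (ψ : k →+* Ω) (y : Fin (n + 1) → Ω), y ≠ 0 →
        (∀ f ∈ 𝔓, eval₂ ψ y f = 0) →
        ∃ (z : τ → Ω) (c : Ω), c ≠ 0 ∧ Rel grp z ∧ (∀ j, eval₂ ψ z (F j) = 0) ∧
          ∀ l, eval₂ ψ (Sum.elim z (fun l => c * y l)) (G l) = 0 := by
  classical
  obtain ⟨E, _, _, _, t, ht⟩ := exists_transcendence d k
  let φE : k →+* E := algebraMap k E
  -- the square system
  let S : Rho grp o n → MvPolynomial (τ ⊕ Fin (n + 1)) E := Sum.elim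
    (fun v => X (Sum.inl v.1) ^ m v * ∏ i', X (Sum.inl (o i')) ^ b v i')
    (fun l => X (Sum.inr l) ^ q l)
  let T0 : J ⊕ Fin d → MvPolynomial (τ ⊕ Fin (n + 1)) E := Sum.elim
    (fun j => rename Sum.inl (MvPolynomial.map φE (F j)))
    (fun i => ∑ l : Fin (n + 1), C (t i ^ (l : ℕ)) * X (Sum.inr l))
  let T : Rho grp o n → MvPolynomial (τ ⊕ Fin (n + 1)) E := Sum.elim
    (fun v => T0 (β v)) (fun l => MvPolynomial.map φE (G l))
  let D : Rho grp o n → Fin s → ℕ := Sum.elim (fun v => Sum.elim DF (fun _ => e) (β v))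
    (fun l i => e i * q l)
  have hX : ∀ i v, IsWeightedHomogeneous (WW W e n i)
      (X v : MvPolynomial (τ ⊕ Fin (n + 1)) E) (WW W e n i v) :=
    fun i v => isWeightedHomogeneous_X _ _ _
  have hSD : ∀ r, MH (WW W e n) (S r) (D r) := by
    intro r i
    rcases r with v | l
    · have h1 := ((hX i (Sum.inl v.1)).pow (m v)).mul (IsWeightedHomogeneous.prod Finset.univ
        (fun i' => (X (Sum.inl (o i')) : MvPolynomial (τ ⊕ Fin (n + 1)) E) ^ b v i')
        (fun i' => b v i' • WW W e n i (Sum.inl (o i'))) (fun i' _ => (hX i _).pow _))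
      have h2 : m v • WW W e n i (Sum.inl v.1) + ∑ i', b v i' • WW W e n i (Sum.inl (o i')) =
          D (Sum.inl v) i := by
        simp only [WW, Sum.elim_inl, smul_eq_mul, D]
        exact hmb v i
      rw [h2] at h1
      exact h1
    · have h1 := (hX i (Sum.inr l)).pow (q l)
      have h2 : q l • WW W e n i (Sum.inr l) = D (Sum.inr l) i := by
        simp only [WW, Sum.elim_inr, smul_eq_mul, D]
        rw [mul_comm]
      rw [h2] at h1
      exact h1
  have hT0 : ∀ r, MH (WW W e n) (T0 r) (Sum.elim DF (fun _ => e) r) := by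
    intro r
    rcases r with j | i'
    · exact ((hF j).map φE).rename_inl
    · intro i
      apply IsWeightedHomogeneous.sum
      intro l _
      have h1 := (isWeightedHomogeneous_C (WW W e n i) (t i' ^ (l : ℕ))).mul (hX i (Sum.inr l))
      rw [zero_add] at h1
      exact h1
  have hTD : ∀ r, MH (WW W e n) (T r) (D r) := by
    intro r
    rcases r with v | l
    · exact hT0 (β v)
    · exact (hG l).map φE
  have hS : ∀ r, ∃ m, 0 < m ∧ eval₂ C (gen grp o n E) (S r) = X (some r) ^ m := by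
    intro r
    rcases r with v | l
    · refine ⟨m v, hm v, ?_⟩
      have h1 : ∀ i', gen grp o n E (Sum.inl (o i')) = 1 := by
        intro i'
        have : o i' = o (grp (o i')) := by rw [ho i']
        simp only [gen, Sum.elim_inl]
        rw [dif_pos this]
      have h2 : gen grp o n E (Sum.inl v.1) = X (some (Sum.inl v)) := by
        simp only [gen, Sum.elim_inl]
        rw [dif_neg v.2]
      simp only [S, Sum.elim_inl]
      rw [eval₂_mul, eval₂_pow, eval₂_X, h2]
      have h3 : eval₂ C (gen grp o n E) (∏ i', (X (Sum.inl (o i')) :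
          MvPolynomial (τ ⊕ Fin (n + 1)) E) ^ b v i') = 1 := by
        rw [← coe_eval₂Hom, map_prod]
        apply Finset.prod_eq_one
        intro i' _
        rw [map_pow, coe_eval₂Hom, eval₂_X, h1, one_pow]
      rw [h3, mul_one]
    · refine ⟨q l, hq l, ?_⟩
      simp only [S, Sum.elim_inr]
      rw [eval₂_pow, eval₂_X]
      rfl
  obtain ⟨κ, _, φ, z, x, hz, hx⟩ := homotopy3 hT he ho S T hSD hTD hS (by
    intro κ _ φ x hx
    apply hP2 κ (φ.comp φE) x
    intro l
    have h1 := hx l
    simp only [T, Sum.elim_inr] at h1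
    rw [eval₂_map] at h1
    exact h1)
  obtain ⟨z', x', hz', hx'⟩ := specialize_solution (grp := grp) φ (RingHom.id E) T hz hx
  have hF' : ∀ j, eval₂ φE z' (F j) = 0 := by
    intro j
    have h1 := hx' (Sum.inl (β.symm (Sum.inl j)))
    simp only [T, T0, Sum.elim_inl, Equiv.apply_symm_apply] at h1
    rw [eval₂_rename, eval₂_map] at h1
    exact h1
  have hG' : ∀ l, eval₂ φE (Sum.elim z' x') (G l) = 0 := by
    intro l
    have h1 := hx' (Sum.inr l)
    simp only [T, Sum.elim_inr] at h1
    rw [eval₂_map] at h1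
    exact h1
  have hrel : ∀ i, ∑ l : Fin (n + 1), t i ^ (l : ℕ) * x' l = 0 := by
    intro i
    have h1 := hx' (Sum.inl (β.symm (Sum.inr i)))
    simp only [T, T0, Sum.elim_inl, Sum.elim_inr, Equiv.apply_symm_apply] at h1
    rw [← coe_eval₂Hom, map_sum] at h1
    rw [← h1]
    apply Finset.sum_congr rfl
    intro l _
    simp
  have hx0 : x' ≠ 0 := by
    intro h0
    rw [h0] at hG'
    exact hP3 E φE z' hz' hF' hG'
  refine ⟨ptIdeal φE x', inferInstance, fun f hf m => ptIdeal_homogeneous φE x' f hf m,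
    ringKrullDim_ptIdeal ht hx0 hrel, ?_⟩
  intro Ω _ _ ψ y hy hyP
  exact lift_point hT he F hF G hG hP2 hP3 φE hz' hF' hG' ψ hy hyP

end exists_Y

end Pool.Agent.LibDb3ab1
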