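import Pool.Agent.LibDb3ab1.MainAlg
import Pool.Agent.LibDb3ab1.ApproxPoly

/-!
# The tilt of an algebraically closed field is algebraically closed
-/

set_option autoImplicit false
set_option linter.unusedSectionVars false
set_option linter.style.haveILetI false

noncomputable section

namespace Pool.Agent.LibDb3ab1

universe u

open Polynomial Filter

section roots

variable {V : Type u} [CommRing V] [IsDomain V] {p : ℕ} [Fact p.Prime]
  [Fact ¬IsUnit (p : V)] [IsAdicComplete (Ideal.span {(p : V)}) V] [ValuationRing V]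

/-- If monic polynomials have roots then the Frobenius is surjective modulo `p`. -/
theorem frob_surj_of_root
    (hroot : ∀ P : V[X], P.Monic → P.natDegree ≠ 0 → ∃ x, P.eval x = 0) :
    Function.Surjective (frobenius (ModP V p) p) := by
  intro y
  obtain ⟨y, rfl⟩ := Ideal.Quotient.mk_surjective y
  obtain ⟨x, hx⟩ := hroot (X ^ p - C y) (monic_X_pow_sub_C y (Fact.out : p.Prime).ne_zero) (by
    rw [natDegree_X_pow_sub_C]
    exact (Fact.out : p.Prime).ne_zero)
  refine ⟨Ideal.Quotient.mk _ x, ?_⟩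
  rw [frobenius_def, ← map_pow]
  congr 1
  simpa [sub_eq_zero] using hx

theorem coeff_zero_eq_zero_iff {ϖ : PreTilt V p} {u : V} (hu : IsUnit u)
    (hϖ : (p : V) = u * PreTilt.untilt ϖ) (x : PreTilt V p) :
    PreTilt.coeff 0 x = 0 ↔ ϖ ∣ x := by
  rw [← PreTilt.mk_untilt_eq_coeff_zero, Ideal.Quotient.eq_zero_iff_mem,
    Ideal.mem_span_singleton, hϖ, hu.mul_left_dvd, untilt_dvd_iff]

theorem coeff_eq_zero_iff {ϖ : PreTilt V p} {u : V} (hu : IsUnit u)
    (hϖ : (p : V) = u * PreTilt.untilt ϖ) (k : ℕ) (x : PreTilt V p) :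
    PreTilt.coeff k x = 0 ↔ ϖ ^ p ^ k ∣ x := by
  have h1 : PreTilt.coeff k x = PreTilt.coeff 0 (rt p k x) := by rw [coeff_rt, zero_add]
  rw [h1, coeff_zero_eq_zero_iff hu hϖ]
  constructor
  · rintro ⟨c, hc⟩
    refine ⟨c ^ p ^ k, ?_⟩
    rw [← mul_pow, ← hc, rt_pow]
  · rintro ⟨c, hc⟩
    refine ⟨rt p k c, ?_⟩
    rw [hc, map_mul, rt_of_pow]

/-- Approximate roots. -/
theorem exists_approx_root
    (hroot : ∀ P : V[X], P.Monic → P.natDegree ≠ 0 → ∃ x, P.eval x = 0)
    {ϖ : PreTilt V p} {u : V} (hu : IsUnit u)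
    (hϖ : (p : V) = u * PreTilt.untilt ϖ) (P : (PreTilt V p)[X]) (hP : P.Monic)
    (hd : P.natDegree ≠ 0) (N : ℕ) : ∃ x : PreTilt V p, ϖ ^ p ^ N ∣ P.eval x := by
  have hF := frob_surj_of_root (p := p) hroot
  haveI : Nontrivial (ModP V p) := by
    apply Ideal.Quotient.nontrivial_iff.mpr
    rw [Ne, Ideal.span_singleton_eq_top]
    exact Fact.out
  let PN : (PreTilt V p)[X] := P.map (rt p N : PreTilt V p ≃+* PreTilt V p).toRingHom
  let c0 : PreTilt V p →+* ModP V p := PreTilt.coeff 0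
  have hPN : (PN.map c0).Monic := (hP.map _).map _
  have hlift : PN.map c0 ∈ lifts (Ideal.Quotient.mk (Ideal.span {(p : V)})) := by
    rw [lifts_iff_coeff_lifts]
    intro n
    obtain ⟨y, hy⟩ := Ideal.Quotient.mk_surjective ((PN.map c0).coeff n)
    exact ⟨y, hy⟩
  obtain ⟨Q, hQ1, hQ2, hQ3⟩ := lifts_and_natDegree_eq_and_monic hlift hPN
  have hdeg : Q.natDegree ≠ 0 := by
    rw [hQ2, (hP.map (rt p N : PreTilt V p ≃+* PreTilt V p).toRingHom).natDegree_map c0,
      hP.natDegree_map]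
    exact hd
  obtain ⟨y, hy⟩ := hroot Q hQ3 hdeg
  obtain ⟨x, hx⟩ : ∃ x : PreTilt V p, c0 x = Ideal.Quotient.mk _ y :=
    Perfection.coeff_surjective hF 0 _
  refine ⟨x ^ p ^ N, ?_⟩
  have h1 : c0 (PN.eval x) = 0 := by
    rw [← eval_map_apply, hx, ← hQ1, eval_map_apply, hy, map_zero]
  have h2 : ϖ ∣ PN.eval x := (coeff_zero_eq_zero_iff hu hϖ _).mp h1
  have h3 : P.eval (x ^ p ^ N) = (PN.eval x) ^ p ^ N := by
    have h4 : PN.eval x = rt p N (P.eval (x ^ p ^ N)) := by
      have h5 : x = (rt p N : PreTilt V p ≃+* PreTilt V p).toRingHom (x ^ p ^ N) :=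
        (rt_of_pow N _).symm
      conv_lhs => rw [h5]
      rw [eval_map_apply]
      rfl
    rw [h4, rt_pow]
  rw [h3]
  exact pow_dvd_pow_of_dvd h2 _

/-- Divisibility can be tested in a dominating valuation ring. -/
theorem dvd_of_dominating {T : Type u} [CommRing T] [IsDomain T] [ValuationRing T] {E : Type u}
    [Field E] (θ : T →+* E) (hθ : Function.Injective θ) (V' : ValuationSubring E)
    (hV2 : ∀ a, θ a ∈ V'.nonunits ↔ a ∈ IsLocalRing.maximalIdeal T) {a b : T}
    (h : V'.valuation (θ a) ≤ V'.valuation (θ b)) : b ∣ a := by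
  rcases ValuationRing.dvd_total b a with h1 | ⟨c, hc⟩
  · exact h1
  · by_cases hcu : IsUnit c
    · obtain ⟨c, rfl⟩ := hcu
      exact ⟨(c⁻¹ : Tˣ), by rw [hc, mul_assoc, Units.mul_inv, mul_one]⟩
    · by_cases ha : a = 0
      · rw [ha]; exact dvd_zero _
      · exfalso
        have h2 : θ c ∈ V'.nonunits := (hV2 c).mpr ((IsLocalRing.mem_maximalIdeal _).mpr hcu)
        rw [ValuationSubring.mem_nonunits_iff] at h2
        rw [hc, map_mul, map_mul] at h
        have h3 : 0 < V'.valuation (θ a) := by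
          rw [zero_lt_iff, Ne, map_eq_zero]
          intro h0
          exact ha (hθ (by rw [h0, map_zero]))
        have h4 : V'.valuation (θ a) * V'.valuation (θ c) < V'.valuation (θ a) * 1 :=
          (mul_lt_mul_iff_right₀ h3).mpr h2
        rw [mul_one] at h4
        exact absurd h (not_le.mpr h4)

theorem exists_root_tilt
    (hroot : ∀ P : V[X], P.Monic → P.natDegree ≠ 0 → ∃ x, P.eval x = 0)
    {ϖ : PreTilt V p} {u : V} (hu : IsUnit u) (hp0 : (p : V) ≠ 0)
    (hϖ : (p : V) = u * PreTilt.untilt ϖ) (P : (PreTilt V p)[X]) (hP : P.Monic)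
    (hd : P.natDegree ≠ 0) : ∃ x : PreTilt V p, P.eval x = 0 := by
  classical
  have hϖ0 : ϖ ≠ 0 := by
    rintro rfl
    rw [untilt_zero, mul_zero] at hϖ
    exact hp0 hϖ
  have hϖu : ¬IsUnit ϖ := by
    intro h
    apply (Fact.out : ¬IsUnit (p : V))
    rw [hϖ]
    exact hu.mul (isUnit_untilt.mpr h)
  let E := AlgebraicClosure (FractionRing (PreTilt V p))
  let θ : PreTilt V p →+* E := (algebraMap (FractionRing (PreTilt V p)) E).comp
    (algebraMap (PreTilt V p) (FractionRing (PreTilt V p)))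
  have hθ : Function.Injective θ := by
    rw [RingHom.coe_comp]
    exact (algebraMap (FractionRing (PreTilt V p)) E).injective.comp
      (IsFractionRing.injective _ _)
  obtain ⟨V', hV1, hV2⟩ := exists_dominating_hom θ (IsLocalRing.maximalIdeal (PreTilt V p)) (by
    rw [(RingHom.injective_iff_ker_eq_bot θ).mp hθ]
    exact bot_le)
  have key : ∀ a b : PreTilt V p, V'.valuation (θ a) ≤ V'.valuation (θ b) → b ∣ a :=
    fun a b => dvd_of_dominating θ hθ V' hV2
  have hkey : ∀ a b : PreTilt V p, b ∣ a → V'.valuation (θ a) ≤ V'.valuation (θ b) := by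
    rintro a b ⟨c, rfl⟩
    rw [map_mul, map_mul]
    exact mul_le_of_le_one_right' ((V'.valuation_le_one_iff _).mpr (hV1 c))
  have hvϖ0 : V'.valuation (θ ϖ) ≠ 0 := by
    rw [Ne, map_eq_zero]
    intro h
    exact hϖ0 (hθ (by rw [h, map_zero]))
  have hvϖ1 : V'.valuation (θ ϖ) < 1 := by
    rw [← ValuationSubring.mem_nonunits_iff]
    exact (hV2 ϖ).mpr ((IsLocalRing.mem_maximalIdeal _).mpr hϖu)
  set d := P.natDegree with hdef
  have hsplit : (P.map θ).Splits := IsAlgClosed.splits _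
  have hcard : Multiset.card (P.map θ).roots = d := by
    rw [← hsplit.natDegree_eq_card_roots, hP.natDegree_map]
  -- approximate roots near actual roots
  have h1 : ∀ N : ℕ, ∃ (x : PreTilt V p) (α : {a // a ∈ (P.map θ).roots.toFinset}),
      ϖ ^ N ∣ P.eval x ∧ V'.valuation (θ x - α) ≤ V'.valuation (θ (ϖ ^ N)) := by
    intro N
    obtain ⟨x, hx⟩ := exists_approx_root hroot hu hϖ P hP hd (d * N + 1)
    have hx1 : ϖ ^ (d * N + 1) ∣ P.eval x :=
      (pow_dvd_pow ϖ (Nat.lt_pow_self (Fact.out : p.Prime).one_lt).le).trans hx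
    have hN : N ≤ d * N + 1 := by nlinarith [Nat.pos_of_ne_zero hd]
    by_contra hcon
    push Not at hcon
    have h2 : ∀ y ∈ (P.map θ).roots.map (fun a => V'.valuation (θ x - a)),
        V'.valuation (θ (ϖ ^ N)) ≤ y := by
      intro y hy
      rw [Multiset.mem_map] at hy
      obtain ⟨a, ha, rfl⟩ := hy
      exact (hcon x ⟨a, Multiset.mem_toFinset.mpr ha⟩ ((pow_dvd_pow ϖ hN).trans hx1)).le
    have h3 := Multiset.pow_card_le_prod h2
    rw [Multiset.card_map, hcard] at h3
    have h4 : V'.valuation (θ (P.eval x)) =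
        ((P.map θ).roots.map (fun a => V'.valuation (θ x - a))).prod := by
      rw [← eval_map_apply, hsplit.eval_eq_prod_roots_of_monic (hP.map θ), map_multiset_prod,
        Multiset.map_map]
      rfl
    rw [← h4] at h3
    have h5 := h3.trans (hkey _ _ hx1)
    rw [map_pow, map_pow, map_pow, map_pow, ← pow_mul, mul_comm N d, pow_succ] at h5
    have h6 : 0 < V'.valuation (θ ϖ) ^ (d * N) := by
      rw [zero_lt_iff]
      exact pow_ne_zero _ hvϖ0
    have h7 : V'.valuation (θ ϖ) ^ (d * N) * V'.valuation (θ ϖ) <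
        V'.valuation (θ ϖ) ^ (d * N) * 1 := (mul_lt_mul_iff_right₀ h6).mpr hvϖ1
    rw [mul_one] at h7
    exact absurd h5 (not_le.mpr h7)
  choose x α hxd hxα using h1
  obtain ⟨α₀, hα₀⟩ := Ultrafilter.eq_pure_of_finite ((hyperfilter ℕ).map α)
  have hα' : ∀ᶠ m in (hyperfilter ℕ : Filter ℕ), α m = α₀ := by
    have h1 : ({α₀} : Set _) ∈ (hyperfilter ℕ).map α := by
      rw [hα₀]; exact Set.mem_singleton α₀
    exact h1
  have heventually : ∀ j : ℕ, ∀ᶠ m in (hyperfilter ℕ : Filter ℕ), j ≤ m := by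
    intro j
    apply (hyperfilter_le_cofinite : (hyperfilter ℕ : Filter ℕ) ≤ cofinite)
    rw [Nat.cofinite_eq_atTop]
    exact eventually_ge_atTop j
  have hvmono : ∀ {a b : ℕ}, a ≤ b → V'.valuation (θ (ϖ ^ b)) ≤ V'.valuation (θ (ϖ ^ a)) :=
    fun h => hkey _ _ (pow_dvd_pow ϖ h)
  have h2 : ∀ k : ℕ, ∃ c : ModP V p, ∀ᶠ m in (hyperfilter ℕ : Filter ℕ),
      PreTilt.coeff k (x m) = c := by
    intro k
    obtain ⟨m₀, hm₀, hm₀k⟩ := (hα'.and (heventually (p ^ k))).exists
    refine ⟨PreTilt.coeff k (x m₀), ?_⟩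
    filter_upwards [hα', heventually (p ^ k)] with m hm hmk
    rw [← sub_eq_zero, ← map_sub, coeff_eq_zero_iff hu hϖ]
    apply key
    have e1 : θ (x m - x m₀) = (θ (x m) - α₀) - (θ (x m₀) - α₀) := by
      rw [map_sub]; ring
    rw [e1]
    refine (Valuation.map_sub _ _ _).trans (max_le ?_ ?_)
    · rw [← hm]
      exact (hxα m).trans (hvmono hmk)
    · rw [← hm₀]
      exact (hxα m₀).trans (hvmono hm₀k)
  choose c hc using h2
  have hcc : ∀ k, c (k + 1) ^ p = c k := by
    intro k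
    obtain ⟨m, hm1, hm2⟩ := ((hc k).and (hc (k + 1))).exists
    rw [← hm1, ← hm2]
    exact (x m).2 k
  let y : PreTilt V p := (⟨c, hcc⟩ : Perfection (ModP V p) p)
  have hy : ∀ k, PreTilt.coeff k y = c k := fun k => rfl
  refine ⟨y, ?_⟩
  apply preTilt_ext
  intro k
  obtain ⟨m, hm1, hm2⟩ := ((hc k).and (heventually (p ^ k))).exists
  have h3 : PreTilt.coeff k (P.eval (x m)) = 0 := by
    rw [coeff_eq_zero_iff hu hϖ]
    exact (pow_dvd_pow ϖ hm2).trans (hxd m)
  rw [map_zero, ← eval_map_apply, hy, ← hm1, eval_map_apply, h3]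

end roots

section closed

/-- A domain in which all monic polynomials have roots has an algebraically closed fraction
field. -/
theorem isAlgClosed_of_roots {T : Type u} [CommRing T] [IsDomain T] {Q : Type u} [Field Q]
    [Algebra T Q] [IsFractionRing T Q]
    (hroot : ∀ P : T[X], P.Monic → P.natDegree ≠ 0 → ∃ x, P.eval x = 0) : IsAlgClosed Q := by
  classical
  apply IsAlgClosed.of_exists_root
  intro P hP hirr
  obtain ⟨b, hb⟩ := IsLocalization.exist_integer_multiples_of_finset (nonZeroDivisors T)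
    (P.support.image (fun i => P.coeff i) : Finset Q)
  have hb0 : algebraMap T Q b ≠ 0 := by
    intro h
    have := (IsFractionRing.injective T Q) (h.trans (map_zero (algebraMap T Q)).symm)
    exact nonZeroDivisors.ne_zero b.2 this
  have hmonic : (scaleRoots P (algebraMap T Q b)).Monic := (monic_scaleRoots_iff _).mpr hP
  have hlift : scaleRoots P (algebraMap T Q b) ∈ lifts (algebraMap T Q) := by
    rw [lifts_iff_coeff_lifts]
    intro i
    rw [coeff_scaleRoots]
    by_cases hi : i = P.natDegree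
    · refine ⟨1, ?_⟩
      rw [hi, Nat.sub_self, pow_zero, mul_one, map_one]
      exact hP.symm
    · by_cases hi2 : P.coeff i = 0
      · exact ⟨0, by rw [hi2, zero_mul, map_zero]⟩
      · have hmem : i ∈ P.support := mem_support_iff.mpr hi2
        obtain ⟨c, hc⟩ := hb _ (Finset.mem_image_of_mem _ hmem)
        have hlt : i < P.natDegree := lt_of_le_of_ne (le_natDegree_of_mem_supp _ hmem) hi
        obtain ⟨k, hk⟩ : ∃ k, P.natDegree - i = k + 1 := ⟨P.natDegree - i - 1, by omega⟩
        refine ⟨c * (b : T) ^ k, ?_⟩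
        rw [map_mul, hc, map_pow, hk, Algebra.smul_def, pow_succ]
        ring
  obtain ⟨R, hR1, hR2, hR3⟩ := lifts_and_natDegree_eq_and_monic hlift hmonic
  have hdeg : R.natDegree ≠ 0 := by
    rw [hR2, natDegree_scaleRoots]
    exact hirr.natDegree_pos.ne'
  obtain ⟨y, hy⟩ := hroot R hR3 hdeg
  refine ⟨algebraMap T Q y / algebraMap T Q b, ?_⟩
  have h1 : (scaleRoots P (algebraMap T Q b)).eval (algebraMap T Q y) = 0 := by
    rw [← hR1, eval_map_apply, hy, map_zero]
  have h2 := scaleRoots_eval₂_mul (p := P) (RingHom.id Q) (algebraMap T Q y / algebraMap T Q b)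
    (algebraMap T Q b)
  simp only [RingHom.id_apply] at h2
  rw [mul_div_cancel₀ _ hb0] at h2
  rw [eval₂_id, h1] at h2
  have h3 := (mul_eq_zero.mp h2.symm).resolve_left (pow_ne_zero _ hb0)
  rwa [eval₂_id] at h3

/-- Monic polynomials over a valuation ring of an algebraically closed field have roots. -/
theorem exists_root_valuationSubring {C : Type u} [Field C] [IsAlgClosed C]
    (V : ValuationSubring C) (P : V[X]) (hP : P.Monic) (hd : P.natDegree ≠ 0) :
    ∃ x, P.eval x = 0 := by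
  have h1 : (P.map (algebraMap V C)).degree ≠ 0 := by
    rw [hP.degree_map]
    intro h
    exact hd (natDegree_eq_of_degree_eq_some h)
  obtain ⟨c, hc⟩ := IsAlgClosed.exists_root _ h1
  rw [IsRoot.def, eval_map] at hc
  obtain ⟨y, hy⟩ := (IsIntegrallyClosed.isIntegral_iff (R := V) (K := C)).mp ⟨P, hP, hc⟩
  refine ⟨y, ?_⟩
  apply (IsFractionRing.injective V C)
  rw [map_zero, ← hc, ← hy, eval₂_at_apply]

/-- The tilt of an algebraically closed field is algebraically closed. -/
theorem tilt_isAlgClosed {C : Type u} [Field C] [IsAlgClosed C] (V : ValuationSubring C) {p : ℕ}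
    [Fact p.Prime] [Fact ¬IsUnit (p : V)] [IsAdicComplete (Ideal.span {(p : V)}) V]
    {ϖ : PreTilt V p} {u : V} (hu : IsUnit u) (hp0 : (p : V) ≠ 0)
    (hϖ : (p : V) = u * PreTilt.untilt ϖ) : IsAlgClosed (FractionRing (PreTilt V p)) :=
  isAlgClosed_of_roots (T := PreTilt V p)
    (exists_root_tilt (exists_root_valuationSubring V) hu hp0 hϖ)

end closed

end Pool.Agent.LibDb3ab1
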