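import Mathlib

/-!
# Adic projective space over a valued field, and the tilting map on points
-/

set_option autoImplicit false

noncomputable section

namespace Pool.Agent.LibDb3ab1

open MvPolynomial

universe u

/-- `(L, V)` is a valued extension of `(K, O)` with continuous valuation: `V` is a valuation ring
of the field `L`, it contracts to `O` along `ι : K → L`, and the absolute values of `K` are cofinal
towards `0` among those of `L`. -/
structure ValuedExt {K : Type u} [Field K] (O : ValuationSubring K) {L : Type u} [Field L]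
    (ι : K →+* L) (V : ValuationSubring L) : Prop where
  comap_eq : V.comap ι = O
  cont : ∀ x : L, x ≠ 0 → ∃ a : K, a ≠ 0 ∧ ι a / x ∈ V

/-- The comparison relation on pairs of homogeneous forms of the same degree defined by a point
`x` of projective space with values in a valued extension `(L, V)`. -/
def pointRel {K : Type u} [Field K] {n : ℕ} {L : Type u} [Field L] (ι : K →+* L)
    (V : ValuationSubring L) (x : Fin (n + 1) → L) :
    Set (MvPolynomial (Fin (n + 1)) K × MvPolynomial (Fin (n + 1)) K) :=
  {q | ∃ d, q.1.IsHomogeneous d ∧ q.2.IsHomogeneous d ∧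
    V.valuation (eval₂ ι x q.1) ≤ V.valuation (eval₂ ι x q.2)}

/-- The underlying set of the adic space `(ℙ^n_K)^ad`. -/
def AdicProj {K : Type u} [Field K] (O : ValuationSubring K) (n : ℕ) : Type u :=
  {R : Set (MvPolynomial (Fin (n + 1)) K × MvPolynomial (Fin (n + 1)) K) //
    ∃ (L : Type u) (_ : Field L) (ι : K →+* L) (V : ValuationSubring L) (x : Fin (n + 1) → L),
      ValuedExt O ι V ∧ x ≠ 0 ∧ R = pointRel ι V x}

/-- The topology of the adic space `(ℙ^n_K)^ad`, generated by the sets `|F| ≤ |G| ≠ 0`. -/
instance {K : Type u} [Field K] (O : ValuationSubring K) (n : ℕ) :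
    TopologicalSpace (AdicProj O n) :=
  TopologicalSpace.generateFrom {U | ∃ (d : ℕ) (F G : MvPolynomial (Fin (n + 1)) K),
    F.IsHomogeneous d ∧ G.IsHomogeneous d ∧ U = {a | (F, G) ∈ a.1 ∧ (G, 0) ∉ a.1}}

/-- The closed subset `X^ad` of `(ℙ^n_K)^ad`, for the closed subscheme `X` defined by `I`. -/
def adicLocus {K : Type u} [Field K] (O : ValuationSubring K) {n : ℕ}
    (I : Ideal (MvPolynomial (Fin (n + 1)) K)) : Set (AdicProj O n) :=
  {a | ∀ F ∈ I, ∀ d, F.IsHomogeneous d → (F, 0) ∈ a.1}

namespace ValuedExt

variable {K : Type u} [Field K] {O : ValuationSubring K} {L : Type u} [Field L] {ι : K →+* L}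
  {V : ValuationSubring L}

/-- The map of valuation rings. -/
def incl (h : ValuedExt O ι V) : O →+* V :=
  (ι.comp O.subtype).codRestrict V.toSubring fun x => by
    have h1 : (x : K) ∈ V.comap ι := by rw [h.comap_eq]; exact x.2
    exact h1

@[simp] theorem coe_incl (h : ValuedExt O ι V) (x : O) : ((h.incl x : V) : L) = ι x := rfl

end ValuedExt

section tiltmap

variable {O O' : Type u} [CommRing O] [CommRing O'] {p : ℕ} [Fact p.Prime] [Fact ¬IsUnit (p : O)]
  [Fact ¬IsUnit (p : O')]

/-- The map induced on reductions modulo `p`. -/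
def modMap (f : O →+* O') : ModP O p →+* ModP O' p :=
  Ideal.quotientMap (Ideal.span {(p : O')}) f (by
    rw [Ideal.span_le, Set.singleton_subset_iff]
    change f (p : O) ∈ Ideal.span {(p : O')}
    rw [map_natCast]
    exact Ideal.mem_span_singleton_self _)

/-- The map induced on tilts. -/
def tmap (f : O →+* O') : PreTilt O p →+* PreTilt O' p :=
  Perfection.map p (modMap f)

end tiltmap

/-- `Y^ad ⊆ π⁻¹(U)`, where `Y` is the closed subscheme of the projective space over the tilt
`K♭ = Frac (PreTilt O p)` defined by the ideal `𝔓` and `U` is a subset of `(ℙ^n_K)^ad`: for every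
algebraically closed extension `(C, V)` of `(K, O)` with `V` `p`-adically complete and for every
`y ≠ 0` with coordinates in the tilt of `V` at which `𝔓` vanishes, the point
`(y_0^♯ : ... : y_n^♯)` of `(ℙ^n_K)^ad` belongs to `U`. -/
def TiltInside (p : ℕ) [Fact p.Prime] {K : Type u} [Field K] (O : ValuationSubring K)
    [Fact ¬IsUnit (p : O)] {n : ℕ}
    (𝔓 : Ideal (MvPolynomial (Fin (n + 1)) (FractionRing (PreTilt O p))))
    (U : Set (AdicProj O n)) : Prop :=
  ∀ (C : Type u) [Field C] [IsAlgClosed C] (ι : K →+* C) (V : ValuationSubring C)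
    (hV : ValuedExt O ι V) [Fact ¬IsUnit (p : V)] [IsAdicComplete (Ideal.span {(p : V)}) V]
    (y : Fin (n + 1) → PreTilt V p), y ≠ 0 →
    (∀ F : MvPolynomial (Fin (n + 1)) (PreTilt O p),
      map (algebraMap (PreTilt O p) (FractionRing (PreTilt O p))) F ∈ 𝔓 →
      eval₂ (tmap hV.incl) y F = 0) →
    ∃ a ∈ U, a.1 = pointRel ι V (fun l => ((PreTilt.untilt (y l) : V) : C))

/-- The property asked for in the question, for the closed subscheme `X` of `ℙ^n_K` defined by the
homogeneous ideal `I`: every open neighbourhood `U` of `X^ad` contains the image under `π` of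
`Y^ad`, for some integral closed subscheme `Y` of the projective space over `K♭` whose dimension is
that of `X`. -/
def TiltApprox (p : ℕ) [Fact p.Prime] {K : Type u} [Field K] (O : ValuationSubring K)
    [Fact ¬IsUnit (p : O)] {n : ℕ} (I : Ideal (MvPolynomial (Fin (n + 1)) K)) : Prop :=
  ∀ U : Set (AdicProj O n), IsOpen U → adicLocus O I ⊆ U →
    ∃ 𝔓 : Ideal (MvPolynomial (Fin (n + 1)) (FractionRing (PreTilt O p))), 𝔓.IsPrime ∧
      (∀ F ∈ 𝔓, ∀ m, homogeneousComponent m F ∈ 𝔓) ∧
      ringKrullDim (MvPolynomial (Fin (n + 1)) (FractionRing (PreTilt O p)) ⧸ 𝔓) =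
        ringKrullDim (MvPolynomial (Fin (n + 1)) K ⧸ I) ∧
      TiltInside p O 𝔓 U

section torus

/-- Multihomogeneity: `P` is homogeneous of degree `a i` for each of the weights `W i` on the
variables. -/
def MH {ι σ : Type} {R : Type*} [CommSemiring R] (W : ι → σ → ℕ) (P : MvPolynomial σ R)
    (a : ι → ℕ) : Prop :=
  ∀ i, IsWeightedHomogeneous (W i) P (a i)

/-- Relevant points: in each group of variables, some variable does not vanish. -/
def Rel {ι τ : Type} {L : Type*} [Zero L] (grp : τ → ι) (z : τ → L) : Prop :=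
  ∀ i, ∃ v, grp v = i ∧ z v ≠ 0

/-- Triangular systems of weights. -/
structure Tri {s : ℕ} {τ : Type} (grp : τ → Fin s) (W : Fin s → τ → ℕ) : Prop where
  pos : ∀ v, 0 < W (grp v) v
  tri : ∀ v i, grp v < i → W i v = 0

end torus

end Pool.Agent.LibDb3ab1
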