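import Pool.Agent.LibDb3ab1.Approx
import Pool.Agent.LibDb3ab1.Defs

/-!
# Tilts of valuation rings
-/

set_option autoImplicit false
set_option linter.unusedSectionVars false
set_option linter.style.haveILetI false

noncomputable section

namespace Pool.Agent.LibDb3ab1

open WittVector

universe u

section basic

variable {O : Type u} [CommRing O] {p : ℕ} [Fact p.Prime] [Fact ¬IsUnit (p : O)]

theorem coeff_rt (n m : ℕ) (x : PreTilt O p) :
    PreTilt.coeff m (rt p n x) = PreTilt.coeff (m + n) x := by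
  have h := PreTilt.coeff_iterate_frobenius (O := O) (p := p) m n (rt p n x)
  rw [iterate_frobenius, rt_pow] at h
  exact h.symm

theorem preTilt_ext {x y : PreTilt O p} (h : ∀ n, PreTilt.coeff n x = PreTilt.coeff n y) :
    x = y := Perfection.ext h

variable [IsAdicComplete (Ideal.span {(p : O)}) O]

theorem untilt_rt_pow (n : ℕ) (x : PreTilt O p) :
    (PreTilt.untilt (rt p n x)) ^ p ^ n = PreTilt.untilt x := by
  rw [← map_pow, rt_pow]

theorem mk_untilt_rt (n : ℕ) (x : PreTilt O p) :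
    Ideal.Quotient.mk (Ideal.span {(p : O)}) (PreTilt.untilt (rt p n x)) = PreTilt.coeff n x := by
  rw [PreTilt.mk_untilt_eq_coeff_zero, coeff_rt, zero_add]

@[simp] theorem untilt_zero : PreTilt.untilt (0 : PreTilt O p) = 0 :=
  Perfection.teichmuller_zero

theorem dvd_of_mk_eq {a b : O} {x : O ⧸ Ideal.span {(p : O)}}
    (ha : Ideal.Quotient.mk _ a = x) (hb : Ideal.Quotient.mk _ b = x) : (p : O) ∣ a - b := by
  rw [← Ideal.mem_span_singleton, ← Ideal.Quotient.eq, ha, hb]

theorem eq_of_forall_dvd {a b : O} (h : ∀ n : ℕ, (p : O) ^ n ∣ a - b) : a = b := by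
  rw [← sub_eq_zero]
  apply IsHausdorff.haus (I := Ideal.span {(p : O)}) inferInstance
  intro n
  rw [SModEq.zero, smul_eq_mul, Ideal.mul_top, Ideal.span_singleton_pow,
    Ideal.mem_span_singleton]
  exact h n

theorem dvd_pow_sub_pow {a b : O} (h : (p : O) ∣ a - b) (n : ℕ) :
    (p : O) ^ (n + 1) ∣ a ^ p ^ n - b ^ p ^ n := dvd_sub_pow_of_dvd_sub h n

variable {O' : Type u} [CommRing O'] [Fact ¬IsUnit (p : O')]
  [IsAdicComplete (Ideal.span {(p : O')}) O']

theorem modMap_mk (f : O →+* O') (a : O) :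
    modMap (p := p) f (Ideal.Quotient.mk _ a) = Ideal.Quotient.mk _ (f a) :=
  Ideal.quotientMap_mk

theorem coeff_tmap (f : O →+* O') (n : ℕ) (x : PreTilt O p) :
    PreTilt.coeff n (tmap f x) = modMap f (PreTilt.coeff n x) := rfl

theorem untilt_tmap (f : O →+* O') (x : PreTilt O p) :
    PreTilt.untilt (tmap f x) = f (PreTilt.untilt x) := by
  apply eq_of_forall_dvd (p := p)
  intro n
  have h1 : (p : O') ∣ PreTilt.untilt (rt p n (tmap f x)) - f (PreTilt.untilt (rt p n x)) := by
    apply dvd_of_mk_eq (p := p) (x := PreTilt.coeff n (tmap f x))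
    · exact mk_untilt_rt n _
    · rw [← modMap_mk, mk_untilt_rt, coeff_tmap]
  have h2 := dvd_pow_sub_pow h1 n
  rw [untilt_rt_pow, ← map_pow, untilt_rt_pow] at h2
  exact (pow_dvd_pow _ (Nat.le_succ n)).trans h2

theorem theta_map (f : O →+* O') (x : WittVector p (PreTilt O p)) :
    fontaineTheta O' p (WittVector.map (tmap f) x) = f (fontaineTheta O p x) := by
  apply eq_of_forall_dvd (p := p)
  intro n
  rw [← Ideal.mem_span_singleton, ← Ideal.span_singleton_pow, ← Ideal.Quotient.eq]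
  have h := WittVector.eq_of_apply_teichmuller_eq
    (((Ideal.Quotient.mk (Ideal.span {(p : O')} ^ n)).comp (fontaineTheta O' p)).comp
      (WittVector.map (tmap f)))
    ((Ideal.Quotient.mk (Ideal.span {(p : O')} ^ n)).comp (f.comp (fontaineTheta O p))) ?_ ?_
  · exact RingHom.congr_fun h x
  · refine ⟨n, ?_⟩
    rw [← map_natCast (Ideal.Quotient.mk (Ideal.span {(p : O')} ^ n)), ← map_pow,
      Ideal.Quotient.eq_zero_iff_mem]
    exact Ideal.pow_mem_pow (Ideal.mem_span_singleton_self _) _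
  · intro y
    simp only [RingHom.comp_apply]
    rw [map_teichmuller, fontaineTheta_teichmuller, fontaineTheta_teichmuller, untilt_tmap]

end basic

section val

variable {O : Type u} [CommRing O] [IsDomain O] {p : ℕ} [Fact p.Prime]
  [Fact ¬IsUnit (p : O)] [IsAdicComplete (Ideal.span {(p : O)}) O]

theorem eq_zero_of_untilt {x : PreTilt O p} (h : PreTilt.untilt x = 0) : x = 0 := by
  apply preTilt_ext
  intro n
  have h1 : PreTilt.untilt (rt p n x) = 0 := by
    have := untilt_rt_pow n x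
    rw [h] at this
    exact eq_zero_of_pow_eq_zero this
  rw [← mk_untilt_rt, h1, map_zero, map_zero]

theorem untilt_eq_zero {x : PreTilt O p} : PreTilt.untilt x = 0 ↔ x = 0 :=
  ⟨eq_zero_of_untilt, fun h => by rw [h, untilt_zero]⟩

instance : IsDomain (PreTilt O p) := by
  haveI : Nontrivial (PreTilt O p) := CharP.nontrivial_of_char_ne_one
    (Fact.out : p.Prime).ne_one
  haveI : NoZeroDivisors (PreTilt O p) := by
    constructor
    intro a b h
    have : PreTilt.untilt a * PreTilt.untilt b = 0 := by rw [← map_mul, h, untilt_zero]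
    rcases mul_eq_zero.mp this with h | h
    · exact Or.inl (eq_zero_of_untilt h)
    · exact Or.inr (eq_zero_of_untilt h)
  exact NoZeroDivisors.to_isDomain _

variable [ValuationRing O]

theorem dvd_of_pow_dvd_pow' {a b : O} {n : ℕ} (hn : n ≠ 0) (h : a ^ n ∣ b ^ n) : a ∣ b := by
  rcases ValuationRing.dvd_total a b with h1 | ⟨c, hc⟩
  · exact h1
  · by_cases hb : b = 0
    · rw [hb]; exact dvd_zero _
    · obtain ⟨d, hd⟩ := h
      rw [hc, mul_pow, mul_assoc] at hd
      have h1 : c ^ n * d = 1 := by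
        apply mul_left_cancel₀ (pow_ne_zero n hb)
        rw [← hd, mul_one]
      have hc' : IsUnit c := by
        rw [← isUnit_pow_iff hn]
        exact IsUnit.of_mul_eq_one _ h1
      rw [hc]
      exact (hc'.mul_right_dvd).mpr dvd_rfl

theorem dvd_of_untilt_dvd {x y : PreTilt O p} (h : PreTilt.untilt x ∣ PreTilt.untilt y) :
    x ∣ y := by
  by_cases hx : x = 0
  · rw [hx, untilt_zero, zero_dvd_iff] at h
    rw [eq_zero_of_untilt h]; exact dvd_zero _
  have hp0 : p ≠ 0 := (Fact.out : p.Prime).ne_zero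
  have h1 : ∀ n, PreTilt.untilt (rt p n x) ∣ PreTilt.untilt (rt p n y) := by
    intro n
    apply dvd_of_pow_dvd_pow' (n := p ^ n) (pow_ne_zero _ hp0)
    rw [untilt_rt_pow, untilt_rt_pow]
    exact h
  choose c hc using h1
  have hne : ∀ n, PreTilt.untilt (rt p n x) ≠ 0 := by
    intro n h0
    apply hx
    have h2 : rt p n x = 0 := eq_zero_of_untilt h0
    rw [← rt_pow (p := p) n x, h2, zero_pow (pow_ne_zero _ hp0)]
  have hcc : ∀ n, c (n + 1) ^ p = c n := by
    intro n
    have e1 : ∀ z : PreTilt O p, (PreTilt.untilt (rt p (n + 1) z)) ^ p =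
        PreTilt.untilt (rt p n z) := by
      intro z
      rw [← map_pow, rt_eq_pow (p := p) (Nat.le_succ n) z]
      simp
    have e2 := congrArg (· ^ p) (hc (n + 1))
    simp only [mul_pow, e1] at e2
    rw [hc n] at e2
    exact (mul_left_cancel₀ (hne n) e2).symm
  obtain ⟨z, hz⟩ : ∃ z : PreTilt O p, ∀ n, PreTilt.coeff n z = Ideal.Quotient.mk _ (c n) := by
    refine ⟨(⟨fun n => Ideal.Quotient.mk _ (c n), fun n => ?_⟩ : Perfection (ModP O p) p), ?_⟩
    · rw [← map_pow, hcc]
    · intro n; rfl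
  refine ⟨z, ?_⟩
  apply preTilt_ext
  intro n
  rw [map_mul, ← mk_untilt_rt, hc n, map_mul, mk_untilt_rt, hz n]

instance : ValuationRing (PreTilt O p) := by
  rw [ValuationRing.iff_dvd_total]
  constructor
  intro x y
  rcases ValuationRing.dvd_total (PreTilt.untilt x) (PreTilt.untilt y) with h | h
  · exact Or.inl (dvd_of_untilt_dvd h)
  · exact Or.inr (dvd_of_untilt_dvd h)

theorem isUnit_of_untilt {x : PreTilt O p} (h : IsUnit (PreTilt.untilt x)) : IsUnit x := by
  rw [isUnit_iff_dvd_one] at h ⊢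
  apply dvd_of_untilt_dvd
  rwa [map_one]

theorem untilt_dvd_iff {x y : PreTilt O p} : PreTilt.untilt x ∣ PreTilt.untilt y ↔ x ∣ y :=
  ⟨dvd_of_untilt_dvd, fun ⟨z, hz⟩ => ⟨PreTilt.untilt z, by rw [hz, map_mul]⟩⟩

theorem isUnit_untilt {x : PreTilt O p} : IsUnit (PreTilt.untilt x) ↔ IsUnit x :=
  ⟨isUnit_of_untilt, fun h => h.map _⟩

end val

section base

variable {O : Type u} [CommRing O] [IsDomain O] {p : ℕ} [Fact p.Prime]
  [Fact ¬IsUnit (p : O)] [IsAdicComplete (Ideal.span {(p : O)}) O] [ValuationRing O]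

theorem isUnit_one_add_mul {a : O} (ha : ¬IsUnit a) (b : O) : IsUnit (1 + a * b) := by
  have h1 : a * b ∈ IsLocalRing.maximalIdeal O := by
    apply Ideal.mul_mem_right
    exact (IsLocalRing.mem_maximalIdeal a).mpr ha
  by_contra h2
  have h3 : (1 + a * b) - a * b ∈ IsLocalRing.maximalIdeal O :=
    Ideal.sub_mem _ ((IsLocalRing.mem_maximalIdeal _).mpr h2) h1
  rw [add_sub_cancel_right] at h3
  exact (Ideal.ne_top_iff_one _).mp (IsLocalRing.maximalIdeal.isMaximal O).ne_top h3

/-- If `x` is not divisible by `p` then `x + p * c` is a unit multiple of `x`. -/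
theorem add_p_mul_of_not_dvd {x : O} (hx : ¬(p : O) ∣ x) (c : O) :
    ∃ v, IsUnit v ∧ x + p * c = x * v := by
  rcases ValuationRing.dvd_total (p : O) x with h | ⟨p', hp'⟩
  · exact absurd h hx
  · have h1 : ¬IsUnit p' := by
      intro hu
      apply hx
      obtain ⟨w, hw⟩ := hu
      refine ⟨(w⁻¹ : Oˣ), ?_⟩
      rw [hp', ← hw, mul_assoc, Units.mul_inv, mul_one]
    refine ⟨1 + p' * c, isUnit_one_add_mul h1 c, ?_⟩
    linear_combination c * hp'

theorem exists_root_of_not_dvd (hF : Function.Surjective (frobenius (ModP O p) p))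
    {x : O} (hx : ¬(p : O) ∣ x) : ∃ y v, IsUnit v ∧ x * v = y ^ p := by
  obtain ⟨y, hy⟩ := hF (Ideal.Quotient.mk _ x)
  obtain ⟨y, rfl⟩ := Ideal.Quotient.mk_surjective y
  rw [frobenius_def, ← map_pow, Ideal.Quotient.eq, Ideal.mem_span_singleton] at hy
  obtain ⟨c, hc⟩ := hy
  obtain ⟨v, hv, h⟩ := add_p_mul_of_not_dvd hx c
  refine ⟨y, v, hv, ?_⟩
  rw [← h]
  linear_combination -hc

/-- Existence of an element of the tilt whose untilt is `p` up to a unit. -/
theorem exists_varpi (hp0 : (p : O) ≠ 0) (hr : ∀ x : O, ¬IsUnit x → ∃ n : ℕ, (p : O) ∣ x ^ n)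
    (hnd : ∃ x : O, ¬IsUnit x ∧ ¬(p : O) ∣ x)
    (hF : Function.Surjective (frobenius (ModP O p) p)) :
    ∃ (ϖ : PreTilt O p) (u : O), IsUnit u ∧ (p : O) = u * PreTilt.untilt ϖ := by
  classical
  have hpp : p ≠ 0 := (Fact.out : p.Prime).ne_zero
  obtain ⟨x, hxu, hpx⟩ := hnd
  have hx0 : x ≠ 0 := by rintro rfl; exact hpx (dvd_zero _)
  obtain ⟨n, hn⟩ := hr x hxu
  -- the largest `k` with `x ^ k ∣ p`
  have hex : ∃ k, ¬x ^ k ∣ (p : O) := by
    refine ⟨n + 1, fun h => ?_⟩
    have h1 : x ^ (n + 1) ∣ x ^ n := h.trans hn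
    rw [pow_succ] at h1
    obtain ⟨d, hd⟩ := h1
    rw [mul_assoc] at hd
    have : x * d = 1 := by
      apply mul_left_cancel₀ (pow_ne_zero n hx0)
      rw [← hd, mul_one]
    exact hxu (IsUnit.of_mul_eq_one _ this)
  obtain ⟨k, hk⟩ : ∃ k, Nat.find hex = k + 1 := by
    apply Nat.exists_eq_succ_of_ne_zero
    intro h0
    have := Nat.find_spec hex
    rw [h0, pow_zero] at this
    exact this (one_dvd _)
  have hk1 : ¬x ^ (k + 1) ∣ (p : O) := hk ▸ Nat.find_spec hex
  have hk2 : x ^ k ∣ (p : O) := by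
    have := Nat.find_min hex (m := k) (by omega)
    simpa using this
  obtain ⟨x', hx'⟩ := hk2
  have hpx' : ¬(p : O) ∣ x' := by
    intro h
    have h1 : ¬x ∣ x' := by
      rintro ⟨d, rfl⟩
      apply hk1
      refine ⟨d, ?_⟩
      rw [hx']; ring
    have h2 : x ∣ (p : O) := by
      rcases ValuationRing.dvd_total (p : O) x with h3 | h3
      · exact absurd h3 hpx
      · exact h3
    exact h1 (h2.trans h)
  obtain ⟨y, v, hv, hy⟩ := exists_root_of_not_dvd hF hpx
  obtain ⟨y', v', hv', hy'⟩ := exists_root_of_not_dvd hF hpx'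
  -- `π = y ^ k * y'` has `π ^ p = p * unit`
  set π := y ^ k * y' with hπ
  have hπp : π ^ p = (p : O) * (v ^ k * v') := by
    rw [hπ, mul_pow, ← pow_mul, mul_comm k p, pow_mul, ← hy, ← hy', hx']
    ring
  have huv : IsUnit (v ^ k * v') := (hv.pow k).mul hv'
  have hpu : ¬IsUnit (p : O) := Fact.out
  have hπd : ¬(p : O) ∣ π := by
    intro h
    have h1 : (p : O) ^ p ∣ (p : O) * (v ^ k * v') := by rw [← hπp]; exact pow_dvd_pow_of_dvd h p
    obtain ⟨d, hd⟩ := h1
    have hp2 : p = (p - 2) + 1 + 1 := by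
      have := (Fact.out : p.Prime).two_le
      omega
    have h2 : ∀ a : O, a ^ p = a * (a * a ^ (p - 2)) := by
      intro a
      conv_lhs => rw [hp2, pow_succ, pow_succ]
      ring
    rw [h2, mul_assoc] at hd
    have h3 := mul_left_cancel₀ hp0 hd
    rw [mul_assoc] at h3
    apply hpu
    rw [h3] at huv
    exact isUnit_of_mul_isUnit_left huv
  obtain ⟨ϖ, hϖ⟩ := Perfection.coeff_surjective hF 1 (Ideal.Quotient.mk _ π)
  have h1 : PreTilt.coeff 1 (ϖ : PreTilt O p) = Ideal.Quotient.mk _ π := hϖ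
  have h2 : (p : O) ∣ PreTilt.untilt (rt p 1 (ϖ : PreTilt O p)) - π :=
    dvd_of_mk_eq (mk_untilt_rt 1 _) h1.symm
  obtain ⟨c, hc⟩ := h2
  obtain ⟨w, hw, hcw⟩ := add_p_mul_of_not_dvd hπd c
  have h3 : PreTilt.untilt (rt p 1 (ϖ : PreTilt O p)) = π * w := by
    rw [← hcw]; linear_combination hc
  have h4 : PreTilt.untilt (ϖ : PreTilt O p) = p * ((v ^ k * v') * w ^ p) := by
    have := untilt_rt_pow 1 (ϖ : PreTilt O p)
    rw [h3, pow_one, mul_pow, hπp] at this
    rw [← this]; ring
  obtain ⟨U, hU⟩ := huv.mul (hw.pow p)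
  refine ⟨ϖ, (U⁻¹ : Oˣ), Units.isUnit _, ?_⟩
  rw [h4, ← hU]
  rw [mul_comm (p : O), ← mul_assoc, Units.inv_mul, one_mul]

/-- The data of `ξ`. -/
theorem exists_xi (hF : Function.Surjective (frobenius (ModP O p) p)) {ϖ : PreTilt O p} {u : O}
    (hu : IsUnit u) (hϖ : (p : O) = u * PreTilt.untilt ϖ) :
    ∃ υ ξ : WittVector p (PreTilt O p), IsUnit (υ.coeff 0) ∧
      (p : WittVector p (PreTilt O p)) = ξ + υ * teichmuller p ϖ ∧
      fontaineTheta O p ξ = 0 ∧ fontaineTheta O p υ = u := by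
  obtain ⟨υ, hυ⟩ := surjective_fontaineTheta hF u
  refine ⟨υ, p - υ * teichmuller p ϖ, ?_, by ring, ?_, hυ⟩
  · apply isUnit_of_untilt
    have h1 := mk_fontaineTheta (R := O) (p := p) υ
    rw [hυ] at h1
    have h2 : (p : O) ∣ PreTilt.untilt (υ.coeff 0) - u :=
      dvd_of_mk_eq (PreTilt.mk_untilt_eq_coeff_zero _) h1
    obtain ⟨c, hc⟩ := h2
    have hpu : ¬(p : O) ∣ u := by
      intro h
      exact (Fact.out : ¬IsUnit (p : O)) (isUnit_of_dvd_unit h hu)
    obtain ⟨v, hv, h⟩ := add_p_mul_of_not_dvd hpu c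
    have : PreTilt.untilt (υ.coeff 0) = u * v := by rw [← h]; linear_combination hc
    rw [this]
    exact hu.mul hv
  · rw [map_sub, map_mul, fontaineTheta_teichmuller, map_natCast, hυ, hϖ, sub_self]

theorem teich_coeff' {L : Type*} [CommRing L] [CharP L p] [PerfectRing L p] (x : WittVector p L) :
    ∃ x', x = teichmuller p (x.coeff 0) + p * x' := by
  obtain ⟨x', hx'⟩ := exists_p_mul (p := p) (x := x - teichmuller p (x.coeff 0)) (by
    have h2 : (WittVector.constantCoeff (x - teichmuller p (x.coeff 0)) : L) = 0 := by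
      rw [map_sub, WittVector.constantCoeff_apply, WittVector.constantCoeff_apply,
        teichmuller_coeff_zero, sub_self]
    exact h2)
  exact ⟨x', by linear_combination hx'⟩

/-- Elements of the kernel of `θ` are approximately divisible by `ξ`. -/
theorem ker_theta (hp0 : (p : O) ≠ 0) {ϖ : PreTilt O p} {u : O}
    (hϖ : (p : O) = u * PreTilt.untilt ϖ)
    {υ ξ : WittVector p (PreTilt O p)}
    (hξ : (p : WittVector p (PreTilt O p)) = ξ + υ * teichmuller p ϖ)
    (hθ : fontaineTheta O p ξ = 0) (M : ℕ) (x : WittVector p (PreTilt O p))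
    (hx : fontaineTheta O p x = 0) :
    ∃ c d, x = teichmuller p ϖ ^ M * d + ξ * c := by
  induction M generalizing x with
  | zero => exact ⟨0, x, by simp⟩
  | succ M ih =>
    obtain ⟨x', hx'⟩ := teich_coeff' x
    have h1 : PreTilt.untilt ϖ ∣ PreTilt.untilt (x.coeff 0) := by
      have h2 : fontaineTheta O p x = PreTilt.untilt (x.coeff 0) + p * fontaineTheta O p x' := by
        conv_lhs => rw [hx']
        rw [map_add, map_mul, fontaineTheta_teichmuller, map_natCast]
      rw [hx] at h2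
      refine ⟨-(u * fontaineTheta O p x'), ?_⟩
      linear_combination -h2 - fontaineTheta O p x' * hϖ
    obtain ⟨a, ha⟩ := dvd_of_untilt_dvd h1
    set x'' := teichmuller p a + υ * x' with hx''
    have h3 : x = teichmuller p ϖ * x'' + ξ * x' := by
      have h4 : teichmuller p (x.coeff 0) = teichmuller p ϖ * teichmuller p a := by
        rw [ha, map_mul]
      conv_lhs => rw [hx', h4]
      rw [hx'']
      linear_combination x' * hξ
    have h5 : fontaineTheta O p x'' = 0 := by
      have h6 := congrArg (fontaineTheta O p) h3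
      rw [hx, map_add, map_mul, map_mul, hθ, zero_mul, add_zero, fontaineTheta_teichmuller] at h6
      have h7 : PreTilt.untilt ϖ ≠ 0 := by
        intro h0
        rw [h0, mul_zero] at hϖ
        exact hp0 hϖ
      exact (mul_eq_zero.mp h6.symm).resolve_left h7
    obtain ⟨c, d, hcd⟩ := ih x'' h5
    refine ⟨teichmuller p ϖ * c + x', d, ?_⟩
    rw [h3]
    conv_lhs => rw [hcd]
    ring

end base

end Pool.Agent.LibDb3ab1
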