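import Pool.Agent.LibDb3ab1.Perf

/-!
# Homogeneity in perfect polynomial rings and in Witt vectors over them
-/

set_option autoImplicit false
set_option linter.unusedSectionVars false

noncomputable section

namespace Pool.Agent.LibDb3ab1

open WittVector

universe u

variable {p : ℕ} [Fact p.Prime]
variable {R : Type u} [CommRing R] [CharP R p] [PerfectRing R p]
variable {τ : Type}

/-- `x` is homogeneous of fractional degree `d / p ^ J` for the weight `w`. -/
def EH (w : τ → ℕ) (J d : ℕ) (x : PP p R τ) : Prop :=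
  ∀ (L : Type u) [CommRing L] [CharP L p] [PerfectRing L p] (φ : R →+* L) (y : τ → L) (l : L),
    ev φ (fun i => l ^ w i * y i) x = (rt p J l) ^ d * ev φ y x

/-- A Witt vector homogeneous of degree `d` for the weight `w`. -/
def WH (w : τ → ℕ) (d : ℕ) (h : WittVector p (PP p R τ)) : Prop :=
  ∀ (L : Type u) [CommRing L] [CharP L p] [PerfectRing L p] (φ : R →+* L) (y : τ → L) (l : L),
    WittVector.map (ev φ (fun i => l ^ w i * y i)) h =
      teichmuller p (l ^ d) * WittVector.map (ev φ y) h

namespace EH

variable {w : τ → ℕ} {J d d' : ℕ} {x x' : PP p R τ}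

theorem mul (hx : EH w J d x) (hx' : EH w J d' x') : EH w J (d + d') (x * x') := by
  intro L _ _ _ φ y l
  rw [map_mul, map_mul, hx, hx', pow_add]; ring

theorem add (hx : EH w J d x) (hx' : EH w J d x') : EH w J d (x + x') := by
  intro L _ _ _ φ y l
  rw [map_add, map_add, hx, hx', mul_add]

theorem sub (hx : EH w J d x) (hx' : EH w J d x') : EH w J d (x - x') := by
  intro L _ _ _ φ y l
  rw [map_sub, map_sub, hx, hx', mul_sub]

theorem pow (hx : EH w J d x) (n : ℕ) : EH w J (d * n) (x ^ n) := by
  intro L _ _ _ φ y l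
  rw [map_pow, map_pow, hx, mul_pow, pow_mul]

theorem sum {ι : Type*} (s : Finset ι) (f : ι → PP p R τ) (h : ∀ i ∈ s, EH w J d (f i)) :
    EH w J d (∑ i ∈ s, f i) := by
  intro L _ _ _ φ y l
  rw [map_sum, map_sum, Finset.mul_sum]
  exact Finset.sum_congr rfl fun i hi => h i hi L φ y l

theorem cst (w : τ → ℕ) (J : ℕ) (r : R) : EH w J 0 (cst (p := p) τ r) := by
  intro L _ _ _ φ y l
  simp

theorem cst_mul (r : R) (hx : EH w J d x) :
    EH w J d (Pool.Agent.LibDb3ab1.cst (p := p) τ r * x) := by
  simpa using (EH.cst w J r).mul hx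

theorem var (w : τ → ℕ) (i : τ) : EH w 0 (w i) (var (p := p) (R := R) i) := by
  intro L _ _ _ φ y l
  simp

theorem rt' (hx : EH w J d x) (k : ℕ) : EH w (k + J) d (rt p k x) := by
  intro L _ _ _ φ y l
  rw [map_rt, map_rt, hx, map_mul, map_pow, rt_rt]

theorem lift (hx : EH w J d x) (k : ℕ) : EH w (J + k) (d * p ^ k) x := by
  intro L _ _ _ φ y l
  rw [hx L φ y l, rt_eq_pow (p := p) (Nat.le_add_right J k) l, ← pow_mul]
  congr 2
  rw [Nat.add_sub_cancel_left, mul_comm]

theorem unlift {k : ℕ} (hx : EH w (J + k) (d * p ^ k) x) : EH w J d x := by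
  intro L _ _ _ φ y l
  rw [hx L φ y l, rt_eq_pow (p := p) (Nat.le_add_right J k) l, ← pow_mul]
  congr 2
  rw [Nat.add_sub_cancel_left, mul_comm]

theorem subst {τ' : Type} {w' : τ' → ℕ} {z : τ → PP p R τ'} (hz : ∀ i, EH w' 0 (w i) (z i))
    (hx : EH w J d x) : EH w' J d (subst z x) := by
  intro L _ _ _ φ y l
  rw [ev_subst_apply, ev_subst_apply]
  have : (fun i => ev φ (fun i => l ^ w' i * y i) (z i)) =
      fun i => l ^ w i * ev φ y (z i) := by
    funext i
    rw [hz i L φ y l]; simp
  rw [this, hx L φ _ l]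

theorem congr_deg (hx : EH w J d x) (h : d = d') : EH w J d' x := h ▸ hx

end EH

namespace WH

variable {w : τ → ℕ} {d d' : ℕ} {h h' : WittVector p (PP p R τ)}

theorem add (hh : WH w d h) (hh' : WH w d h') : WH w d (h + h') := by
  intro L _ _ _ φ y l
  rw [map_add, map_add, hh, hh', mul_add]

theorem sub (hh : WH w d h) (hh' : WH w d h') : WH w d (h - h') := by
  intro L _ _ _ φ y l
  rw [map_sub, map_sub, hh, hh', mul_sub]

theorem neg (hh : WH w d h) : WH w d (-h) := by
  intro L _ _ _ φ y l
  rw [map_neg, map_neg, hh, mul_neg]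

theorem cst_mul (c : WittVector p R) (hh : WH w d h) :
    WH w d (WittVector.map (cst τ) c * h) := by
  intro L _ _ _ φ y l
  have key : ∀ y : τ → L, WittVector.map (ev φ y) (WittVector.map (cst τ) c) =
      WittVector.map φ c := by
    intro y
    ext n
    simp [WittVector.map_coeff]
  rw [map_mul, map_mul, hh, key, key]
  ring

theorem teich {x : PP p R τ} (hx : EH w 0 d x) : WH w d (teichmuller p x) := by
  intro L _ _ _ φ y l
  rw [map_teichmuller, map_teichmuller, hx L φ y l, map_mul, rt_zero']

theorem coeff_zero (hh : WH w d h) : EH w 0 d (h.coeff 0) := by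
  intro L _ _ _ φ y l
  have := congrArg (fun z : WittVector p L => z.coeff 0) (hh L φ y l)
  simp only [WittVector.mul_coeff_zero, teichmuller_coeff_zero, WittVector.map_coeff] at this
  rw [rt_zero']
  exact this

theorem of_p_mul (hh : WH w d ((p : WittVector p (PP p R τ)) * h)) : WH w d h := by
  intro L _ _ _ φ y l
  have h1 := hh L φ y l
  simp only [map_mul, map_natCast] at h1
  rw [← sub_eq_zero]
  apply eq_zero_of_p_mul_eq_zero
  rw [sub_mul, mul_comm _ (p : WittVector p L), h1, sub_eq_zero, map_pow]
  ring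

theorem subst {τ' : Type} {w' : τ' → ℕ} {z : τ → PP p R τ'} (hz : ∀ i, EH w' 0 (w i) (z i))
    (hh : WH w d h) : WH w' d (WittVector.map (subst z) h) := by
  intro L _ _ _ φ y l
  have key : ∀ y : τ' → L, WittVector.map (ev φ y) (WittVector.map (Pool.Agent.LibDb3ab1.subst z) h)
      = WittVector.map (ev φ (fun i => ev φ y (z i))) h := by
    intro y
    ext n
    simp only [WittVector.map_coeff]
    rw [ev_subst_apply]
  rw [key, key]
  have : (fun i => ev φ (fun i => l ^ w' i * y i) (z i)) =
      fun i => l ^ w i * ev φ y (z i) := by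
    funext i
    rw [hz i L φ y l]; simp
  rw [this, hh L φ _ l]

end WH

/-- The coaction on polynomials. -/
def coact (w : τ → ℕ) : MvPolynomial τ R →+* Polynomial (MvPolynomial τ R) :=
  MvPolynomial.eval₂Hom (Polynomial.C.comp MvPolynomial.C)
    (fun i => Polynomial.X ^ w i * Polynomial.C (MvPolynomial.X i))

theorem coact_monomial (w : τ → ℕ) (n : τ →₀ ℕ) (c : R) :
    coact w (MvPolynomial.monomial n c) =
      Polynomial.monomial (Finsupp.weight w n) (MvPolynomial.monomial n c) := by
  classical
  rw [coact, MvPolynomial.coe_eval₂Hom, MvPolynomial.eval₂_monomial, ← Polynomial.C_mul_X_pow_eq_monomial]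
  rw [MvPolynomial.monomial_eq, Polynomial.C_mul, Finsupp.prod, Finsupp.prod, Finsupp.weight_apply,
    Finsupp.sum, map_prod, ← Finset.prod_pow_eq_pow_sum, RingHom.comp_apply, mul_assoc,
    ← Finset.prod_mul_distrib]
  congr 1
  apply Finset.prod_congr rfl
  intro i _
  rw [mul_pow, Polynomial.C_pow, ← pow_mul, smul_eq_mul, mul_comm (w i), mul_comm]

theorem coeff_coact (w : τ → ℕ) (P : MvPolynomial τ R) (j : ℕ) (m : τ →₀ ℕ) :
    MvPolynomial.coeff m ((coact w P).coeff j) =
      if Finsupp.weight w m = j then MvPolynomial.coeff m P else 0 := by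
  classical
  induction P using MvPolynomial.monomial_add_induction_on with
  | C a =>
    rw [← MvPolynomial.monomial_zero', coact_monomial]
    simp only [Polynomial.coeff_monomial, map_zero, MvPolynomial.coeff_monomial]
    by_cases h0 : (0 : τ →₀ ℕ) = m
    · subst h0
      by_cases hj : 0 = j
      · simp [hj]
      · simp [hj]
    · by_cases hj : 0 = j
      · simp [hj, h0, MvPolynomial.coeff_monomial]
      · simp [hj, h0]
  | monomial_add n b f _ _ ih =>
    rw [map_add, Polynomial.coeff_add, MvPolynomial.coeff_add, ih, coact_monomial,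
      Polynomial.coeff_monomial, MvPolynomial.coeff_add, MvPolynomial.coeff_monomial]
    by_cases h0 : n = m
    · subst h0
      by_cases hj : Finsupp.weight w n = j
      · simp [hj]
      · simp [hj]
    · by_cases hj : Finsupp.weight w n = j
      · simp [hj, h0, MvPolynomial.coeff_monomial]
      · simp [hj, h0]

theorem isWeightedHomogeneous_of_coact {w : τ → ℕ} {P : MvPolynomial τ R} {d : ℕ}
    (h : coact w P = Polynomial.monomial d P) : MvPolynomial.IsWeightedHomogeneous w P d := by
  intro m hm
  have h1 := coeff_coact w P d m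
  rw [h, Polynomial.coeff_monomial, if_pos rfl] at h1
  by_contra hne
  rw [if_neg hne] at h1
  exact hm h1

theorem isWeightedHomogeneous_of_EH [IsDomain R] {w : τ → ℕ} {P : MvPolynomial τ R} {d : ℕ}
    (h : EH w 0 d (PerfectClosure.of _ p P)) : MvPolynomial.IsWeightedHomogeneous w P d := by
  have h1 := h (PP p R (Option τ)) (cst (Option τ)) (fun i => var (some i)) (var none)
  rw [rt_zero', ev_of, ev_of] at h1
  have h2 : MvPolynomial.eval₂ (cst (p := p) (R := R) (Option τ))
      (fun i => var none ^ w i * var (some i)) P = PerfectClosure.of _ p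
        (MvPolynomial.eval₂ MvPolynomial.C
          (fun i => MvPolynomial.X none ^ w i * MvPolynomial.X (some i)) P) := by
    rw [← MvPolynomial.coe_eval₂Hom, ← MvPolynomial.coe_eval₂Hom, ← RingHom.comp_apply]
    congr 1
    apply MvPolynomial.ringHom_ext
    · intro r; simp [cst]
    · intro i; simp [var]
  have h3 : MvPolynomial.eval₂ (cst (p := p) (R := R) (Option τ))
      (fun i => var (some i)) P = PerfectClosure.of _ p
        (MvPolynomial.eval₂ MvPolynomial.C (fun i => MvPolynomial.X (some i)) P) := by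
    rw [← MvPolynomial.coe_eval₂Hom, ← MvPolynomial.coe_eval₂Hom, ← RingHom.comp_apply]
    congr 1
    apply MvPolynomial.ringHom_ext
    · intro r; simp [cst]
    · intro i; simp [var]
  rw [h2, h3, var, ← map_pow, ← map_mul] at h1
  have h4 := congrArg (MvPolynomial.optionEquivLeft R τ) (of_injective (p := p) _ h1)
  apply isWeightedHomogeneous_of_coact
  have e1 : MvPolynomial.optionEquivLeft R τ (MvPolynomial.eval₂ MvPolynomial.C
      (fun i => MvPolynomial.X none ^ w i * MvPolynomial.X (some i)) P) = coact w P := by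
    rw [coact, ← MvPolynomial.coe_eval₂Hom]
    change ((MvPolynomial.optionEquivLeft R τ).toRingEquiv.toRingHom.comp _) P = _
    congr 1
    apply MvPolynomial.ringHom_ext
    · intro r; simp
    · intro i; simp
  have e2 : MvPolynomial.optionEquivLeft R τ (MvPolynomial.eval₂ MvPolynomial.C
      (fun i => MvPolynomial.X (some i)) P) = Polynomial.C P := by
    rw [← MvPolynomial.coe_eval₂Hom]
    change ((MvPolynomial.optionEquivLeft R τ).toRingEquiv.toRingHom.comp _) P = Polynomial.C P
    congr 1
    apply MvPolynomial.ringHom_ext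
    · intro r; simp
    · intro i; simp
  rw [e1, map_mul, e2, map_pow, MvPolynomial.optionEquivLeft_X_none, mul_comm,
    Polynomial.C_mul_X_pow_eq_monomial] at h4
  exact h4

theorem eval₂_weighted {L : Type*} [CommRing L] {w : τ → ℕ} {P : MvPolynomial τ R} {d : ℕ}
    (h : MvPolynomial.IsWeightedHomogeneous w P d) (φ : R →+* L) (y : τ → L) (l : L) :
    MvPolynomial.eval₂ φ (fun i => l ^ w i * y i) P = l ^ d * MvPolynomial.eval₂ φ y P := by
  classical
  rw [MvPolynomial.eval₂_eq, MvPolynomial.eval₂_eq, Finset.mul_sum]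
  apply Finset.sum_congr rfl
  intro m hm
  have hw : Finsupp.weight w m = d := h (MvPolynomial.mem_support_iff.mp hm)
  rw [Finsupp.weight_apply, Finsupp.sum] at hw
  have : ∏ i ∈ m.support, (l ^ w i * y i) ^ m i = l ^ d * ∏ i ∈ m.support, y i ^ m i := by
    rw [← hw, ← Finset.prod_pow_eq_pow_sum, ← Finset.prod_mul_distrib]
    apply Finset.prod_congr rfl
    intro i _
    rw [mul_pow, ← pow_mul, smul_eq_mul, mul_comm (w i)]
  rw [this]; ring

theorem EH_of_isWeightedHomogeneous {w : τ → ℕ} {P : MvPolynomial τ R} {d : ℕ}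
    (h : MvPolynomial.IsWeightedHomogeneous w P d) : EH w 0 d (PerfectClosure.of _ p P) := by
  intro L _ _ _ φ y l
  rw [ev_of, ev_of, rt_zero', eval₂_weighted h]

end Pool.Agent.LibDb3ab1
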