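import Pool.Agent.LibDb3ab1.ApproxStep

/-!
# The approximation lemma, formal version
-/

set_option autoImplicit false
set_option linter.unusedSectionVars false

noncomputable section

namespace Pool.Agent.LibDb3ab1

open WittVector

universe u

variable {p : ℕ} [Fact p.Prime]
variable {R : Type u} [CommRing R] [CharP R p] [PerfectRing R p]
variable {σ : Type}
variable {κ : Type} {w : κ → σ → ℕ} {e : κ → ℕ} {ω : R} {ξ : WittVector p R}

theorem App.base {υ : WittVector p R} {q : ℕ}
    (hξ : (p : WittVector p R) = ξ + υ * teichmuller p (ω ^ q))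
    {F : WittVector p (PP p R σ)} (hF : ∀ k, WH (w k) (e k) F) :
    App w e ω ξ F (F.coeff 0) 0 q := by
  refine ⟨fun k => (hF k).coeff_zero, ?_⟩
  obtain ⟨F', hF'⟩ := teich_coeff F
  have hF'W : ∀ k, WH (w k) (e k) F' := by
    intro k
    apply WH.of_p_mul
    have : (p : WittVector p (PP p R σ)) * F' = F - teichmuller p (F.coeff 0) := by
      linear_combination (-1 : WittVector p (PP p R σ)) * hF'
    rw [this]
    exact (hF k).sub (WH.teich (hF k).coeff_zero)
  refine ⟨WittVector.map (cst (Option σ)) υ * WittVector.map inc F', ?_, ?_⟩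
  · intro k
    apply WH.cst_mul
    apply WH.subst (w := w k) _ (hF'W k)
    intro i
    have := EH.var (p := p) (R := R) (opt (e k) (w k)) (some i)
    simpa using this
  · intro L _ _ _ _ φ _ y γ _
    refine ⟨WittVector.map (ev φ y) F', ?_⟩
    have h1 : WittVector.map (ev φ (opt γ y)) (WittVector.map inc F') =
        WittVector.map (ev φ y) F' := by
      ext n
      simp only [WittVector.map_coeff, ev_opt_inc]
    have h2 : WittVector.map (ev φ (opt γ y)) (WittVector.map (cst (Option σ)) υ) =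
        WittVector.map φ υ := by
      ext n
      simp only [WittVector.map_coeff, ev_cst]
    have hp' : (p : WittVector p L) = WittVector.map φ ξ +
        WittVector.map φ υ * teichmuller p (φ ω ^ q) := by
      have := congrArg (WittVector.map φ) hξ
      simpa only [map_natCast, map_add, map_mul, map_teichmuller, map_pow] using this
    conv_lhs => rw [hF']
    rw [map_mul, h1, h2, map_add, map_teichmuller, map_mul, map_natCast]
    linear_combination (WittVector.map (ev φ y) F') * hp'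

theorem App.iterate [IsDomain R] (hk : ∃ k, 0 < e k) {υ : WittVector p R} {q : ℕ}
    (hξ : (p : WittVector p R) = ξ + υ * teichmuller p (ω ^ q))
    {F : WittVector p (PP p R σ)} (hF : ∀ k, WH (w k) (e k) F) (n : ℕ) (hn : n < q) :
    ∃ (g : PP p R σ) (a b : ℕ), App w e ω ξ F g a b ∧ a + (q - n) ≤ b ∧
      (n + 1) * (q - n) ≤ b ∧ ∃ t, g = F.coeff 0 + cst σ ω * t := by
  induction n with
  | zero => exact ⟨F.coeff 0, 0, q, App.base hξ hF, by simp, by simp, 0, by simp⟩
  | succ n ih =>
    obtain ⟨g, a, b, hA, h1, h2, t, ht⟩ := ih (by omega)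
    obtain ⟨g', hA', t', ht'⟩ := hA.step hk hξ (by omega)
    refine ⟨g', b, _, hA', ?_, ?_, t + t', ?_⟩
    · omega
    · have h3 : (n + 1 + 1) * (q - (n + 1)) ≤ (n + 1) * (q - n) + (q - (n + 1)) := by
        have : (n + 1) * (q - (n + 1)) ≤ (n + 1) * (q - n) :=
          Nat.mul_le_mul_left _ (by omega)
        linarith
      omega
    · rw [ht', ht]; ring

/-- **Approximation lemma** (formal version). -/
theorem approx_formal [IsDomain R] (hk : ∃ k, 0 < e k) {ϖ : R} {υ : WittVector p R}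
    (hξ : (p : WittVector p R) = ξ + υ * teichmuller p ϖ)
    {F : WittVector p (PP p R σ)} (hF : ∀ k, WH (w k) (e k) F)
    {f0 : MvPolynomial σ R} (hf0 : F.coeff 0 = PerfectClosure.of _ p f0) (m : ℕ) :
    ∃ (J : ℕ) (G : MvPolynomial σ R), (∀ k, MvPolynomial.IsWeightedHomogeneous (w k) G (e k * p ^ J)) ∧
      (∃ (N : ℕ) (ω' : R) (T : MvPolynomial σ R), ω' ^ p ^ N = ϖ ∧
        G = f0 ^ p ^ J + MvPolynomial.C ω' * T) ∧
      ∀ (L : Type u) [CommRing L] [IsDomain L] [CharP L p] [PerfectRing L p] (φ : R →+* L)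
        (_ : φ ϖ ≠ 0) (y : σ → L), MvPolynomial.eval₂ φ y G = 0 →
        ∃ c d : WittVector p L, WittVector.map (ev φ y) F =
          teichmuller p (φ ϖ) ^ m * d + WittVector.map φ ξ * c := by
  have hp1 : 1 < p := (Fact.out : p.Prime).one_lt
  set M := 4 * m + 1 with hM
  set q := p ^ M with hq
  have hqM : 4 * m + 1 < q := by
    rw [hq]; exact Nat.lt_pow_self hp1
  set ω₀ := rt p M ϖ with hω₀
  have hωq : ω₀ ^ q = ϖ := rt_pow M ϖ
  have hξ' : (p : WittVector p R) = ξ + υ * teichmuller p (ω₀ ^ q) := by rw [hωq]; exact hξ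
  obtain ⟨g, a, b, ⟨hg, h, -, hA⟩, h1, h2, t, ht⟩ := App.iterate hk hξ' hF (2 * m) (by omega)
  have hb : q * m ≤ b := by
    refine le_trans ?_ h2
    have h3 : 2 * (2 * m + 1) * (q - 2 * m) ≥ 2 * (q * m) := by
      have h4 : 2 * (q - 2 * m) ≥ q := by omega
      nlinarith
    nlinarith
  obtain ⟨J1, G1, hG1⟩ := exists_pow_eq_of g
  obtain ⟨J2, T2, hT2⟩ := exists_pow_eq_of t
  have hG : g ^ p ^ (J1 + J2) = PerfectClosure.of _ p (G1 ^ p ^ J2) := by
    rw [pow_add, pow_mul, hG1, map_pow]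
  have hT : t ^ p ^ (J1 + J2) = PerfectClosure.of _ p (T2 ^ p ^ J1) := by
    rw [add_comm, pow_add, pow_mul, hT2, map_pow]
  refine ⟨J1 + J2, G1 ^ p ^ J2, ?_, ?_, ?_⟩
  · intro k
    apply isWeightedHomogeneous_of_EH
    rw [← hG]
    exact (hg k).pow _
  · refine ⟨M, ω₀, MvPolynomial.C (ω₀ ^ (p ^ (J1 + J2) - 1)) * T2 ^ p ^ J1, hωq, ?_⟩
    apply of_injective (p := p)
    rw [← hG, ht, ← iterateFrobenius_def, map_add, iterateFrobenius_def, iterateFrobenius_def,
      mul_pow, hT, hf0]
    simp only [map_add, map_mul, map_pow]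
    congr 1
    rw [← mul_assoc]
    congr 1
    change (PerfectClosure.of _ p (MvPolynomial.C ω₀)) ^ _ = _
    rw [← pow_succ', Nat.sub_add_cancel (Nat.one_le_pow _ _ (by omega))]
  · intro L _ _ _ _ φ hϖ y hy
    have hy' : ev φ y g = 0 := by
      apply pow_inj (p := p) (J1 + J2)
      rw [← map_pow, hG, ev_of, hy, zero_pow (pow_ne_zero _ (by omega))]
    have hω0 : φ ω₀ ≠ 0 := by
      intro h0
      apply hϖ
      rw [← hωq, map_pow, h0, zero_pow (by omega)]
    obtain ⟨c, hc⟩ := hA L φ hω0 y 0 (by rw [hy', mul_zero])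
    refine ⟨c, teichmuller p (φ ω₀) ^ (b - q * m) * WittVector.map (ev φ (opt 0 y)) h, ?_⟩
    rw [hc, hy', teichmuller_zero, zero_add, ← hωq, map_pow, map_pow, map_pow, ← mul_assoc,
      ← pow_mul, ← pow_add, Nat.add_sub_cancel' hb]

end Pool.Agent.LibDb3ab1
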