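import Pool.Agent.LibDb3ab1.Homog

/-!
# The inductive step of the approximation lemma
-/

set_option autoImplicit false
set_option linter.unusedSectionVars false

noncomputable section

namespace Pool.Agent.LibDb3ab1

open WittVector

universe u

variable {p : ℕ} [Fact p.Prime]
variable {R : Type u} [CommRing R] [CharP R p] [PerfectRing R p]
variable {σ : Type}

/-- extend a family by the value at `none` -/
def opt {X : Type*} (a : X) (y : σ → X) : Option σ → X := fun o => o.elim a y

@[simp] theorem opt_none {X : Type*} (a : X) (y : σ → X) : opt a y none = a := rfl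
@[simp] theorem opt_some {X : Type*} (a : X) (y : σ → X) (i : σ) : opt a y (some i) = y i := rfl

/-- inclusion of perfect polynomials -/
def inc : PP p R σ →+* PP p R (Option σ) := subst (fun i => var (some i))

theorem ev_inc {L : Type*} [CommRing L] [CharP L p] [PerfectRing L p] (φ : R →+* L)
    (y : Option σ → L) (x : PP p R σ) : ev φ y (inc x) = ev φ (fun i => y (some i)) x := by
  rw [inc, ev_subst_apply]; simp

theorem ev_opt_inc {L : Type*} [CommRing L] [CharP L p] [PerfectRing L p] (φ : R →+* L)
    (γ : L) (y : σ → L) (x : PP p R σ) : ev φ (opt γ y) (inc x) = ev φ y x := by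
  rw [ev_inc]; rfl

theorem EH.inc' {w : σ → ℕ} {e J d : ℕ} {x : PP p R σ} (hx : EH w J d x) :
    EH (opt e w) J d (inc x) := by
  apply EH.subst (w := w) _ hx
  intro i
  have := EH.var (p := p) (R := R) (opt e w) (some i)
  simpa using this

variable {κ : Type} (w : κ → σ → ℕ) (e : κ → ℕ) (ω : R) (ξ : WittVector p R)

/-- `App w e ω ξ F g a b`: on the locus where `g` is divisible by `ω ^ a`, the function `F` is
`[g] + [ω ^ b] * h` modulo `ξ`. -/
def App (F : WittVector p (PP p R σ)) (g : PP p R σ) (a b : ℕ) : Prop :=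
  (∀ k, EH (w k) 0 (e k) g) ∧
  ∃ h : WittVector p (PP p R (Option σ)), (∀ k, WH (opt (e k) (w k)) (e k) h) ∧
    ∀ (L : Type u) [CommRing L] [IsDomain L] [CharP L p] [PerfectRing L p] (φ : R →+* L)
      (_ : φ ω ≠ 0) (y : σ → L) (γ : L), φ ω ^ a * γ = ev φ y g →
      ∃ c : WittVector p L, WittVector.map (ev φ y) F =
        teichmuller p (ev φ y g) + teichmuller p (φ ω ^ b) * WittVector.map (ev φ (opt γ y)) h +
          WittVector.map φ ξ * c

variable {w e ω ξ}

theorem exists_p_mul {L : Type*} [CommRing L] [CharP L p] [PerfectRing L p]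
    (x : WittVector p L) (h : x.coeff 0 = 0) : ∃ y, x = (p : WittVector p L) * y := by
  have := (mem_span_p_iff_coeff_zero_eq_zero x).mpr h
  rw [Ideal.mem_span_singleton] at this
  exact this

theorem teich_add {L : Type*} [CommRing L] [CharP L p] [PerfectRing L p] (x y : L) :
    ∃ z : WittVector p L, teichmuller p (x + y) =
      teichmuller p x + teichmuller p y + (p : WittVector p L) * z := by
  obtain ⟨z, hz⟩ := exists_p_mul (teichmuller p (x + y) - (teichmuller p x + teichmuller p y))
    (by
      change constantCoeff (teichmuller p (x + y) - (teichmuller p x + teichmuller p y)) = 0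
      rw [map_sub, map_add (constantCoeff (p := p))]
      simp only [constantCoeff_apply, teichmuller_coeff_zero, sub_self])
  exact ⟨z, by rw [← hz]; ring⟩

theorem teich_coeff (x : WittVector p (PP p R σ)) :
    ∃ z : WittVector p (PP p R σ), x = teichmuller p (x.coeff 0) + (p : WittVector p _) * z := by
  obtain ⟨z, hz⟩ := exists_p_mul (x - teichmuller p (x.coeff 0))
    (by
      change constantCoeff (x - teichmuller p (x.coeff 0)) = 0
      rw [map_sub]
      simp only [constantCoeff_apply, teichmuller_coeff_zero, sub_self])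
  exact ⟨z, by rw [← hz]; ring⟩

/-- Data extracted from the leading coefficient of `h`. -/
theorem exists_coeffs [IsDomain R] (hk : ∃ k, 0 < e k) (h0 : PP p R (Option σ))
    (hh : ∀ k, EH (opt (e k) (w k)) 0 (e k) h0) :
    ∃ (J : ℕ) (c : ℕ → PP p R σ), (∀ n ≤ p ^ J, ∀ k, EH (w k) J (e k * (p ^ J - n)) (c n)) ∧
      h0 = ∑ n ∈ Finset.range (p ^ J + 1), inc (c n) * (rt p J (var none)) ^ n := by
  classical
  obtain ⟨J, H, hH⟩ := exists_pow_eq_of h0
  obtain ⟨k0, hk0⟩ := hk
  have hhom : ∀ k, MvPolynomial.IsWeightedHomogeneous (opt (e k) (w k)) H (e k * p ^ J) := by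
    intro k
    apply isWeightedHomogeneous_of_EH
    rw [← hH]
    exact (hh k).pow _
  set Q := MvPolynomial.optionEquivLeft R σ H with hQ
  have hweight : ∀ k (m : σ →₀ ℕ) (n : ℕ), MvPolynomial.coeff m (Q.coeff n) ≠ 0 →
      e k * n + Finsupp.weight (w k) m = e k * p ^ J := by
    intro k m n hm
    have h1 : m ∈ (Q.coeff n).support := MvPolynomial.mem_support_iff.mpr hm
    rw [hQ, MvPolynomial.mem_support_coeff_optionEquivLeft] at h1
    have h2 := hhom k (MvPolynomial.mem_support_iff.mp h1)
    have h3 : Finsupp.weight (opt (e k) (w k)) (Finsupp.optionElim n m) =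
        e k * n + Finsupp.weight (w k) m := by
      rw [Finsupp.weight_apply, Finsupp.sum_option_index]
      · simp [Finsupp.weight_apply, mul_comm]
      · intro o; simp
      · intro o a b; simp [add_mul]
    rw [← h3, h2]
  have hzero : ∀ n, p ^ J < n → Q.coeff n = 0 := by
    intro n hn
    by_contra hne
    obtain ⟨m, hm⟩ := MvPolynomial.ne_zero_iff.mp hne
    have := hweight k0 m n hm
    have h3 : e k0 * p ^ J < e k0 * n := Nat.mul_lt_mul_of_pos_left hn hk0
    omega
  have hdeg : Q.natDegree < p ^ J + 1 := by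
    rw [Nat.lt_succ_iff, Polynomial.natDegree_le_iff_coeff_eq_zero]
    intro N hN; exact hzero N hN
  refine ⟨J, fun n => rt p J (PerfectClosure.of _ p (Q.coeff n)), ?_, ?_⟩
  · intro n hn k
    have h1 : MvPolynomial.IsWeightedHomogeneous (w k) (Q.coeff n) (e k * (p ^ J - n)) := by
      intro m hm
      have := hweight k m n hm
      have h4 : e k * (p ^ J - n) + e k * n = e k * p ^ J := by
        rw [← mul_add, Nat.sub_add_cancel hn]
      omega
    have h2 := (EH_of_isWeightedHomogeneous (p := p) h1).rt' J
    simpa using h2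
  · apply pow_inj (p := p) J
    rw [hH]
    have h1 : H = (MvPolynomial.optionEquivLeft R σ).symm Q := by rw [hQ]; simp
    have h2 : Q = ∑ n ∈ Finset.range (p ^ J + 1), Polynomial.C (Q.coeff n) * Polynomial.X ^ n := by
      conv_lhs => rw [Q.as_sum_range' (p ^ J + 1) hdeg]
      simp only [Polynomial.C_mul_X_pow_eq_monomial]
    have h3 : ∀ P : MvPolynomial σ R, (MvPolynomial.optionEquivLeft R σ).symm (Polynomial.C P) =
        MvPolynomial.rename some P := by
      intro P
      rw [AlgEquiv.symm_apply_eq]
      change _ = ((MvPolynomial.optionEquivLeft R σ).toRingEquiv.toRingHom.comp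
        (MvPolynomial.rename some).toRingHom) P
      refine RingHom.congr_fun (f := (Polynomial.C : MvPolynomial σ R →+* _)) ?_ P
      apply MvPolynomial.ringHom_ext
      · intro r; simp
      · intro i; simp
    rw [h1]
    conv_lhs => rw [h2]
    rw [map_sum, map_sum]
    rw [← iterateFrobenius_def, map_sum]
    apply Finset.sum_congr rfl
    intro n _
    rw [iterateFrobenius_def, mul_pow, ← map_pow, rt_pow, ← pow_mul, mul_comm n, pow_mul, rt_pow,
      map_mul, map_mul, map_pow, map_pow, h3, MvPolynomial.optionEquivLeft_symm_X]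
    congr 1
    change ((PerfectClosure.of _ p).comp (MvPolynomial.rename some).toRingHom) (Q.coeff n) =
      (inc.comp (PerfectClosure.of _ p)) (Q.coeff n)
    congr 1
    apply MvPolynomial.ringHom_ext
    · intro r
      have := subst_cst (p := p) (R := R) (fun i : σ => var (some i)) r
      simp only [cst, RingHom.comp_apply] at this
      simp [inc, this]
    · intro i
      have := subst_var (p := p) (R := R) (fun i : σ => var (some i)) i
      have h5 : inc (p := p) (R := R) (var i) = var (some i) := this
      simp only [var] at h5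
      simp [h5]

/-- The elements `P m` with `ω ^ (b m / D) P m = ω ^ b g ^ (m / D)`. -/
theorem exists_P [IsDomain R] {J a b : ℕ} {c : ℕ → PP p R σ} (hab : a ≤ b)
    (hc : ∀ n ≤ p ^ J, ∀ k, EH (w k) J (e k * (p ^ J - n)) (c n))
    {g g' : PP p R σ} (hg : ∀ k, EH (w k) 0 (e k) g)
    (hg' : g' = g + ∑ n ∈ Finset.range (p ^ J),
      c n * cst σ (rt p J ω) ^ (b * p ^ J - a * n) * (rt p J g) ^ n) (m : ℕ) :
    ∃ P : PP p R (Option σ), (∀ k, EH (opt (e k) (w k)) J (e k * m) P) ∧
      ∀ (L : Type u) [CommRing L] [IsDomain L] [CharP L p] [PerfectRing L p] (φ : R →+* L)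
      (y : σ → L) (γ : L), φ ω ^ b * γ = ev φ y g' →
      φ (rt p J ω) ^ (b * m) * ev φ (opt γ y) P = φ ω ^ b * (ev φ y (rt p J g)) ^ m := by
  classical
  have hD : 0 < p ^ J := pow_pos (Fact.out : p.Prime).pos J
  induction m using Nat.strong_induction_on with
  | _ m ih =>
    by_cases hm : m < p ^ J
    · refine ⟨cst (Option σ) (rt p J ω) ^ (b * (p ^ J - m)) * inc (rt p J g) ^ m, ?_, ?_⟩
      · intro k
        have h1 : EH (opt (e k) (w k)) J (e k) (inc (rt p J g)) := by
          have := ((hg k).rt' J).inc' (e := e k)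
          simpa using this
        rw [← map_pow]
        exact EH.cst_mul _ (h1.pow m)
      · intro L _ _ _ _ φ y γ _
        rw [map_mul, map_pow, map_pow, ev_cst, ev_opt_inc, ← mul_assoc, ← pow_add, ← mul_add,
          Nat.add_sub_cancel' hm.le, mul_comm b, pow_mul, ← map_pow, rt_pow]
    · push Not at hm
      have ih1 := ih (m - p ^ J) (by omega)
      have ih2 : ∀ n : ℕ, n < p ^ J → _ := fun n hn => ih (m - p ^ J + n) (by omega)
      obtain ⟨P0, hP0, hP0'⟩ := ih1
      choose P1 hP1 hP1' using ih2
      refine ⟨var none * P0 - ∑ n : Fin (p ^ J), inc (c n) *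
        cst (Option σ) (rt p J ω) ^ ((b - a) * n) * P1 n n.2, ?_, ?_⟩
      · intro k
        apply EH.sub
        · have h1 := (EH.var (p := p) (R := R) (opt (e k) (w k)) none).lift J
          rw [zero_add] at h1
          refine (h1.mul (hP0 k)).congr_deg ?_
          rw [opt_none, ← mul_add, Nat.add_sub_cancel' hm]
        · apply EH.sum
          intro n _
          have h1 := (hc n n.2.le k).inc' (e := e k)
          have h2 := (h1.mul (EH.cst (p := p) (opt (e k) (w k)) J
            (rt p J ω ^ ((b - a) * (n : ℕ))))).mul (hP1 n n.2 k)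
          rw [map_pow] at h2
          refine h2.congr_deg ?_
          have h3 := n.2
          rw [add_zero, ← mul_add]
          congr 1
          omega
      · intro L _ _ _ _ φ y γ hγ
        have e0 := hP0' L φ y γ hγ
        have e1 : ∀ n : Fin (p ^ J), _ := fun n => hP1' n n.2 L φ y γ hγ
        have hω : φ (rt p J ω) ^ p ^ J = φ ω := by rw [← map_pow, rt_pow]
        have hgJ : ev φ y (rt p J g) ^ p ^ J = ev φ y g := by rw [← map_pow, rt_pow]
        set W := φ (rt p J ω) with hW
        set G := ev φ y (rt p J g) with hG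
        rw [map_sub, map_mul, ev_var, opt_none, map_sum, mul_sub, Finset.mul_sum]
        have t1 : W ^ (b * m) * (γ * ev φ (opt γ y) P0) =
            φ ω ^ b * G ^ (m - p ^ J) * ev φ y g' := by
          have : b * m = p ^ J * b + b * (m - p ^ J) := by
            rw [mul_comm (p ^ J), ← mul_add, Nat.add_sub_cancel' hm]
          rw [this, pow_add, pow_mul, hω, ← hγ]
          linear_combination (φ ω ^ b * γ) * e0
        have t2 : ∀ n : Fin (p ^ J), W ^ (b * m) * ev φ (opt γ y) (inc (c n) *
            cst (Option σ) (rt p J ω) ^ ((b - a) * n) * P1 n n.2) =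
            φ ω ^ b * G ^ (m - p ^ J) *
              ev φ y (c n * cst σ (rt p J ω) ^ (b * p ^ J - a * n) * (rt p J g) ^ (n : ℕ)) := by
          intro n
          have h3 := n.2
          simp only [map_mul, map_pow, ev_cst, ev_opt_inc, ← hG, ← hW]
          have h4 : b * m + (b - a) * n = b * (m - p ^ J + n) + (b * p ^ J - a * n) := by
            have h5 : a * n ≤ b * p ^ J := Nat.mul_le_mul hab h3.le
            zify [hab, hm, h5]
            ring
          have h6 : W ^ (b * m) * (ev φ y (c n) * W ^ ((b - a) * n) *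
              ev φ (opt γ y) (P1 n n.2)) = ev φ y (c n) * W ^ (b * p ^ J - a * n) *
              (W ^ (b * (m - p ^ J + n)) * ev φ (opt γ y) (P1 n n.2)) := by
            have : W ^ (b * m) * W ^ ((b - a) * (n : ℕ)) =
              W ^ (b * (m - p ^ J + n)) * W ^ (b * p ^ J - a * n) := by
              rw [← pow_add, h4, pow_add]
            linear_combination (ev φ y (c n) * ev φ (opt γ y) (P1 n n.2)) * this
          rw [h6, e1 n, pow_add]
          ring
        rw [t1, Finset.sum_congr rfl fun n _ => t2 n, ← Finset.mul_sum, ← map_sum, ← mul_sub]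
        have h7 : ev φ y g' - ev φ y (∑ n : Fin (p ^ J), c n * cst σ (rt p J ω) ^
            (b * p ^ J - a * n) * (rt p J g) ^ (n : ℕ)) = G ^ p ^ J := by
          rw [hg', map_add, Finset.sum_range, hgJ]
          ring
        rw [h7, mul_assoc, ← pow_add, Nat.sub_add_cancel hm]

/-- The element `u` with `ω ^ (b - 1) u = g`. -/
theorem exists_u [IsDomain R] {J a b : ℕ} {c : ℕ → PP p R σ} (hab : a ≤ b) (hb : 1 ≤ b)
    (hc : ∀ n ≤ p ^ J, ∀ k, EH (w k) J (e k * (p ^ J - n)) (c n))
    {g g' : PP p R σ} (hg : ∀ k, EH (w k) 0 (e k) g)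
    (hg' : g' = g + ∑ n ∈ Finset.range (p ^ J),
      c n * cst σ (rt p J ω) ^ (b * p ^ J - a * n) * (rt p J g) ^ n) :
    ∃ u : PP p R (Option σ), (∀ k, EH (opt (e k) (w k)) 0 (e k) u) ∧
      ∀ (L : Type u) [CommRing L] [IsDomain L] [CharP L p] [PerfectRing L p] (φ : R →+* L)
      (_ : φ ω ≠ 0) (y : σ → L) (γ : L), φ ω ^ b * γ = ev φ y g' →
      φ ω ^ (b - 1) * ev φ (opt γ y) u = ev φ y g := by
  have hp1 : 1 < p := (Fact.out : p.Prime).one_lt
  set M := J + b with hM
  obtain ⟨P, hP, hP'⟩ := exists_P hab hc hg hg' (p ^ M)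
  have hbM : b ≤ p ^ (M - J) := by
    rw [hM, Nat.add_sub_cancel_left]
    exact (Nat.lt_pow_self hp1).le
  set u1 := rt p M P with hu1
  set u2 := cst (Option σ) (rt p M ω) ^ (p ^ (M - J) - b) * u1 with hu2
  have hEu1 : ∀ k, EH (opt (e k) (w k)) J (e k) u1 := by
    intro k
    have h1 := (hP k).rt' M
    rw [add_comm M J] at h1
    exact h1.unlift
  refine ⟨u2 ^ p ^ J, ?_, ?_⟩
  · intro k
    have h1 : EH (opt (e k) (w k)) J (e k) u2 := by
      rw [hu2, ← map_pow]
      exact EH.cst_mul _ (hEu1 k)
    have h2 : EH (opt (e k) (w k)) (0 + J) (e k * p ^ J) (u2 ^ p ^ J) := by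
      rw [zero_add]
      exact h1.pow _
    exact h2.unlift
  · intro L _ _ _ _ φ hω y γ hγ
    have h0 := hP' L φ y γ hγ
    set W := φ (rt p J ω) with hW
    set WM := φ (rt p M ω) with hWM
    set G := ev φ y (rt p J g) with hG
    have hWJ : W ^ p ^ J = φ ω := by rw [hW, ← map_pow, rt_pow]
    have hWM' : WM ^ p ^ M = φ ω := by rw [hWM, ← map_pow, rt_pow]
    have hWMJ : WM ^ p ^ (M - J) = W := by
      rw [hW, rt_eq_pow (p := p) (Nat.le_add_right J b : J ≤ M) ω, map_pow]
    have hgJ : G ^ p ^ J = ev φ y g := by rw [hG, ← map_pow, rt_pow]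
    -- first root
    have h1 : W ^ b * ev φ (opt γ y) u1 = WM ^ b * G := by
      apply pow_inj (p := p) M
      have e1 : ev φ (opt γ y) u1 ^ p ^ M = ev φ (opt γ y) P := by rw [hu1, ← map_pow, rt_pow]
      rw [mul_pow, mul_pow, e1, ← pow_mul, h0, ← pow_mul, mul_comm b, pow_mul, hWM']
    have h2 : W ^ b * ev φ (opt γ y) u2 = W * G := by
      rw [hu2, map_mul, map_pow, ev_cst, ← hWM]
      calc W ^ b * (WM ^ (p ^ (M - J) - b) * ev φ (opt γ y) u1)
          = WM ^ (p ^ (M - J) - b) * (W ^ b * ev φ (opt γ y) u1) := by ring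
        _ = WM ^ (p ^ (M - J) - b) * (WM ^ b * G) := by rw [h1]
        _ = (WM ^ (p ^ (M - J) - b) * WM ^ b) * G := by ring
        _ = W * G := by rw [← pow_add, Nat.sub_add_cancel hbM, hWMJ]
    have h3 : φ ω ^ b * ev φ (opt γ y) (u2 ^ p ^ J) = φ ω * ev φ y g := by
      rw [map_pow, ← hWJ, ← hgJ, ← mul_pow, ← h2, mul_pow, ← pow_mul, ← pow_mul, mul_comm b]
    have h4 : φ ω ^ b = φ ω * φ ω ^ (b - 1) := by
      rw [← pow_succ', Nat.sub_add_cancel hb]
    rw [h4, mul_assoc] at h3
    exact mul_left_cancel₀ hω h3

/-- The inductive step. -/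
theorem App.step [IsDomain R] (hk : ∃ k, 0 < e k) {υ : WittVector p R} {q : ℕ}
    (hξ : (p : WittVector p R) = ξ + υ * teichmuller p (ω ^ q))
    {F : WittVector p (PP p R σ)} {g : PP p R σ} {a b : ℕ} (hab : a + 1 ≤ b)
    (h : App w e ω ξ F g a b) :
    ∃ g' : PP p R σ, App w e ω ξ F g' b (min (q + b - 1) (2 * b - a - 1)) ∧
      ∃ t, g' = g + cst σ ω * t := by
  classical
  obtain ⟨hg, h, hhom, hh⟩ := h
  obtain ⟨J, c, hc, hsum⟩ := exists_coeffs hk (h.coeff 0) (fun k => (hhom k).coeff_zero)
  have hD : 0 < p ^ J := pow_pos (Fact.out : p.Prime).pos J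
  set g' := g + ∑ n ∈ Finset.range (p ^ J),
      c n * cst σ (rt p J ω) ^ (b * p ^ J - a * n) * (rt p J g) ^ n with hg'
  obtain ⟨u, hu, hu'⟩ := exists_u (w := w) (e := e) (by omega : a ≤ b) (by omega) hc hg hg'
  refine ⟨g', ⟨?_, ?_⟩, ?_⟩
  · intro k
    refine (hg k).add (EH.sum _ _ ?_)
    intro n hn
    have hn' : n < p ^ J := Finset.mem_range.mp hn
    have h1 : EH (w k) J (e k * n) ((rt p J g) ^ n) := by
      have := ((hg k).rt' J).pow n
      simpa using this
    have h2 := ((hc n hn'.le k).mul (EH.cst (p := p) (w k) J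
      (rt p J ω ^ (b * p ^ J - a * n)))).mul h1
    rw [map_pow] at h2
    have h3 : EH (w k) (0 + J) (e k * p ^ J)
        (c n * cst σ (rt p J ω) ^ (b * p ^ J - a * n) * (rt p J g) ^ n) := by
      rw [zero_add]
      refine h2.congr_deg ?_
      rw [add_zero, ← mul_add, Nat.sub_add_cancel hn'.le]
    exact h3.unlift
  · -- the substitution
    set z : Option σ → PP p R (Option σ) :=
      opt (cst (Option σ) (ω ^ (b - a - 1)) * u) (fun i => var (some i)) with hz
    have hzE : ∀ k, ∀ i, EH (opt (e k) (w k)) 0 (opt (e k) (w k) i) (z i) := by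
      intro k i
      cases i with
      | none => exact EH.cst_mul _ (hu k)
      | some i =>
        have := EH.var (p := p) (R := R) (opt (e k) (w k)) (some i)
        simpa [hz] using this
    set s : PP p R (Option σ) := ∑ n ∈ Finset.range (p ^ J),
      inc (c n) * (cst (Option σ) (rt p J ω) ^ (b - a - 1) * rt p J u) ^ n with hs
    set s1 : PP p R (Option σ) := inc (c (p ^ J)) * u with hs1
    have hψinc : ∀ x : PP p R σ, subst z (inc x) = inc x := by
      intro x
      have h1 : (subst z).comp inc = (inc : PP p R σ →+* _) := by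
        apply hom_ext
        · intro r
          change subst z (inc (cst σ r)) = inc (cst σ r)
          simp [inc]
        · intro i
          change subst z (inc (var i)) = inc (var i)
          simp [inc, hz]
      exact RingHom.congr_fun h1 x
    have hψh0 : subst z (h.coeff 0) = s + cst (Option σ) (ω ^ (b - a - 1)) * s1 := by
      rw [hsum, map_sum, Finset.sum_range_succ]
      congr 1
      · apply Finset.sum_congr rfl
        intro n _
        rw [map_mul, hψinc, map_pow, map_rt, subst_var]
        congr 2
        rw [hz, opt_none, map_mul, ← map_rt (cst (Option σ)), map_pow, map_pow]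
      · rw [map_mul, hψinc, map_pow, ← map_pow, rt_pow, subst_var, hz, opt_none, hs1]
        ring
    obtain ⟨w1, hw1⟩ := teich_add (p := p) u (cst (Option σ) ω * s)
    obtain ⟨w2, hw2⟩ := teich_add (p := p) s (cst (Option σ) (ω ^ (b - a - 1)) * s1)
    obtain ⟨h', hh'⟩ := teich_coeff h
    -- homogeneity of the pieces
    have hsE : ∀ k, EH (opt (e k) (w k)) 0 (e k) s := by
      intro k
      apply EH.sum
      intro n hn
      have hn' : n < p ^ J := Finset.mem_range.mp hn
      have h1 : EH (opt (e k) (w k)) J (e k)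
          (cst (Option σ) (rt p J ω) ^ (b - a - 1) * rt p J u) := by
        rw [← map_pow]
        exact EH.cst_mul _ (by simpa using (hu k).rt' J)
      have h2 := ((hc n hn'.le k).inc' (e := e k)).mul (h1.pow n)
      have h3 : EH (opt (e k) (w k)) (0 + J) (e k * p ^ J) (inc (c n) *
          (cst (Option σ) (rt p J ω) ^ (b - a - 1) * rt p J u) ^ n) := by
        rw [zero_add]
        refine h2.congr_deg ?_
        rw [← mul_add, Nat.sub_add_cancel hn'.le]
      exact h3.unlift
    have hs1E : ∀ k, EH (opt (e k) (w k)) 0 (e k) s1 := by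
      intro k
      have h1 := (hc (p ^ J) le_rfl k).inc' (e := e k)
      rw [Nat.sub_self, mul_zero] at h1
      have h2 : EH (opt (e k) (w k)) 0 0 (inc (c (p ^ J))) := by
        have h3 : EH (opt (e k) (w k)) (0 + J) (0 * p ^ J) (inc (c (p ^ J))) := by
          simpa using h1
        exact h3.unlift
      simpa using h2.mul (hu k)
    have hw1W : ∀ k, WH (opt (e k) (w k)) (e k) w1 := by
      intro k
      apply WH.of_p_mul
      have : (p : WittVector p (PP p R (Option σ))) * w1 =
          teichmuller p (u + cst (Option σ) ω * s) -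
            (teichmuller p u + teichmuller p (cst (Option σ) ω * s)) := by
        rw [hw1]; ring
      rw [this]
      exact (WH.teich ((hu k).add (EH.cst_mul _ (hsE k)))).sub
        ((WH.teich (hu k)).add (WH.teich (EH.cst_mul _ (hsE k))))
    have hw2W : ∀ k, WH (opt (e k) (w k)) (e k) w2 := by
      intro k
      apply WH.of_p_mul
      have : (p : WittVector p (PP p R (Option σ))) * w2 =
          teichmuller p (s + cst (Option σ) (ω ^ (b - a - 1)) * s1) -
            (teichmuller p s + teichmuller p (cst (Option σ) (ω ^ (b - a - 1)) * s1)) := by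
        rw [hw2]; ring
      rw [this]
      exact (WH.teich ((hsE k).add (EH.cst_mul _ (hs1E k)))).sub
        ((WH.teich (hsE k)).add (WH.teich (EH.cst_mul _ (hs1E k))))
    have hh'W : ∀ k, WH (opt (e k) (w k)) (e k) h' := by
      intro k
      apply WH.of_p_mul
      have : (p : WittVector p (PP p R (Option σ))) * h' =
          h - teichmuller p (h.coeff 0) := by
        linear_combination (-1 : WittVector p (PP p R (Option σ))) * hh'
      rw [this]
      exact (hhom k).sub (WH.teich (hhom k).coeff_zero)
    set w3 := w2 + WittVector.map (subst z) h' with hw3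
    have hw3W : ∀ k, WH (opt (e k) (w k)) (e k) w3 :=
      fun k => (hw2W k).add ((hh'W k).subst (hzE k))
    set b' := min (q + b - 1) (2 * b - a - 1) with hb'
    have hb1 : b' ≤ q + b - 1 := min_le_left _ _
    have hb2 : b' ≤ 2 * b - a - 1 := min_le_right _ _
    refine ⟨WittVector.map (cst (Option σ)) (teichmuller p (ω ^ (2 * b - a - 1 - b'))) *
        teichmuller p s1 +
        WittVector.map (cst (Option σ)) (υ * teichmuller p (ω ^ (q + b - b'))) * w3 -
        WittVector.map (cst (Option σ)) (υ * teichmuller p (ω ^ (q + b - 1 - b'))) * w1, ?_, ?_⟩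
    · intro k
      exact ((WH.cst_mul _ (WH.teich (hs1E k))).add (WH.cst_mul _ (hw3W k))).sub
        (WH.cst_mul _ (hw1W k))
    · intro L _ _ _ _ φ hω y γ hγ
      have hU := hu' L φ hω y γ hγ
      set E := ev φ (opt γ y) with hE
      have hEc : ∀ x : WittVector p R, WittVector.map E (WittVector.map (cst (Option σ)) x) =
          WittVector.map φ x := by
        intro x
        ext n
        simp only [WittVector.map_coeff, hE, ev_cst]
      have hγ0 : φ ω ^ a * E (z none) = ev φ y g := by
        rw [← hU, hz, opt_none, map_mul, hE, ev_cst, map_pow, ← mul_assoc, ← pow_add]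
        congr 2
        omega
      obtain ⟨c0, hc0⟩ := hh L φ hω y (E (z none)) hγ0
      have hEz : ev φ (opt (E (z none)) y) = E.comp (subst z) := by
        rw [hE, ev_subst]
        congr 1
        funext i
        cases i with
        | none => rfl
        | some i => simp [hz]
      have hmapz : WittVector.map (ev φ (opt (E (z none)) y)) h =
          WittVector.map E (WittVector.map (subst z) h) := by
        ext n
        simp only [WittVector.map_coeff, hEz, RingHom.comp_apply]
      -- compute `map (subst z) h`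
      have hψh : WittVector.map (subst z) h = teichmuller p s +
          WittVector.map (cst (Option σ)) (teichmuller p (ω ^ (b - a - 1))) * teichmuller p s1 +
          (p : WittVector p _) * w3 := by
        conv_lhs => rw [hh']
        rw [map_add, map_teichmuller, hψh0, hw2, map_mul (WittVector.map (subst z)),
          map_natCast, map_mul (teichmuller p), map_teichmuller, hw3]
        ring
      have hEg' : ev φ y g' = φ ω ^ (b - 1) * E (u + cst (Option σ) ω * s) := by
        rw [hg', map_add, ← hU, map_add, mul_add]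
        congr 1
        rw [map_mul, hE, ev_cst, ← mul_assoc, ← pow_succ, Nat.sub_add_cancel (by omega), map_sum,
          hs, map_sum, Finset.mul_sum]
        apply Finset.sum_congr rfl
        intro n hn
        have hn' : n < p ^ J := Finset.mem_range.mp hn
        have hWJ : φ (rt p J ω) ^ p ^ J = φ ω := by rw [← map_pow, rt_pow]
        have hgJ : ev φ y (rt p J g) = φ (rt p J ω) ^ (b - 1) * E (rt p J u) := by
          rw [map_rt, ← hU, map_mul, map_pow, map_rt, map_rt]
        rw [← hE]
        simp only [map_mul, map_pow, ev_cst]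
        rw [hgJ, hE, ev_opt_inc, ev_cst, ← hE, ← hWJ]
        rw [mul_pow, mul_pow, ← pow_mul, ← pow_mul, ← pow_mul]
        have h5 : a * n ≤ b * p ^ J := Nat.mul_le_mul (by omega) hn'.le
        have h6 : (b * p ^ J - a * n) + (b - 1) * n = p ^ J * b + (b - a - 1) * n := by
          have h7 : 1 ≤ b := by omega
          have h8 : a ≤ b := by omega
          have h9 : 1 ≤ b - a := by omega
          zify [h5, h7, h8, h9]
          ring
        have h10 : φ (rt p J ω) ^ (b * p ^ J - a * n) * φ (rt p J ω) ^ ((b - 1) * n) =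
            φ (rt p J ω) ^ (p ^ J * b) * φ (rt p J ω) ^ ((b - a - 1) * n) := by
          rw [← pow_add, h6, pow_add]
        linear_combination (ev φ y (c n) * E (rt p J u) ^ n) * h10
      have hw1E := congrArg (WittVector.map E) hw1
      simp only [map_add, map_mul, map_natCast, map_teichmuller] at hw1E
      have hp' : (p : WittVector p L) = WittVector.map φ ξ +
          WittVector.map φ υ * teichmuller p (φ ω ^ q) := by
        have := congrArg (WittVector.map φ) hξ
        simpa only [map_natCast, map_add, map_mul, map_teichmuller, map_pow] using this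
      refine ⟨c0 - teichmuller p (φ ω ^ (b - 1)) * WittVector.map E w1 +
        teichmuller p (φ ω ^ b) * WittVector.map E w3, ?_⟩
      have hEcω : E (cst (Option σ) ω) = φ ω := by rw [hE, ev_cst]
      rw [hc0, hmapz, hψh, hEg', ← hU]
      simp only [map_add, map_sub, map_mul, map_natCast, map_teichmuller, hEc, map_pow, hEcω]
        at hp' hw1E ⊢
      have eb : teichmuller p (φ ω) ^ b = teichmuller p (φ ω) ^ (b - 1) * teichmuller p (φ ω) := by
        rw [← pow_succ, Nat.sub_add_cancel (by omega)]
      have r1 : teichmuller p (φ ω) ^ b' * teichmuller p (φ ω) ^ (2 * b - a - 1 - b') =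
          teichmuller p (φ ω) ^ b * teichmuller p (φ ω) ^ (b - a - 1) := by
        rw [← pow_add, ← pow_add]; congr 1; omega
      have r2 : teichmuller p (φ ω) ^ b' * teichmuller p (φ ω) ^ (q + b - b') =
          teichmuller p (φ ω) ^ q * teichmuller p (φ ω) ^ b := by
        rw [← pow_add, ← pow_add]; congr 1; omega
      have r3 : teichmuller p (φ ω) ^ b' * teichmuller p (φ ω) ^ (q + b - 1 - b') =
          teichmuller p (φ ω) ^ q * teichmuller p (φ ω) ^ (b - 1) := by
        rw [← pow_add, ← pow_add]; congr 1; omega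
      linear_combination (teichmuller p (φ ω) ^ b * WittVector.map E w3 -
          teichmuller p (φ ω) ^ (b - 1) * WittVector.map E w1) * hp' +
        teichmuller p (E s) * eb - teichmuller p (φ ω) ^ (b - 1) * hw1E -
        teichmuller p (E s1) * r1 - WittVector.map φ υ * WittVector.map E w3 * r2 +
        WittVector.map φ υ * WittVector.map E w1 * r3
  · refine ⟨∑ n ∈ Finset.range (p ^ J), c n *
      cst σ (rt p J ω) ^ (b * p ^ J - a * n - p ^ J) * (rt p J g) ^ n, ?_⟩
    rw [hg', Finset.mul_sum]
    congr 1
    apply Finset.sum_congr rfl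
    intro n hn
    have hn' : n < p ^ J := Finset.mem_range.mp hn
    have h1 : cst (p := p) σ ω = cst σ (rt p J ω) ^ p ^ J := by
      rw [← map_pow, rt_pow]
    have h2 : b * p ^ J - a * n = p ^ J + (b * p ^ J - a * n - p ^ J) := by
      have h5 : a * n + p ^ J ≤ b * p ^ J := by
        calc a * n + p ^ J ≤ a * p ^ J + p ^ J := by
              have := Nat.mul_le_mul_left a hn'.le
              omega
          _ = (a + 1) * p ^ J := by ring
          _ ≤ b * p ^ J := Nat.mul_le_mul_right _ hab
      omega
    have h3 : cst (p := p) σ (rt p J ω) ^ (b * p ^ J - a * n) =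
        cst σ ω * cst σ (rt p J ω) ^ (b * p ^ J - a * n - p ^ J) := by
      rw [h1, ← pow_add, ← h2]
    rw [h3]
    ring

end Pool.Agent.LibDb3ab1
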