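import Pool.Agent.LibDb3ab1.Generic
import Pool.Agent.LibDb3ab1.Defs

/-!
# Torus actions and valuations
-/

set_option autoImplicit false
set_option linter.unusedSectionVars false
set_option linter.style.haveILetI false

noncomputable section

namespace Pool.Agent.LibDb3ab1

universe u

open MvPolynomial

section action

variable {ι : Type} [Fintype ι] {σ : Type}

/-- A character of the torus. -/
def chr {L : Type*} [CommMonoid L] (μ : ι → L) (a : ι → ℕ) : L := ∏ i, μ i ^ a i

/-- The action of the torus. -/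
def act {L : Type*} [CommMonoid L] (W : ι → σ → ℕ) (μ : ι → L) (y : σ → L) : σ → L :=
  fun v => chr μ (fun i => W i v) * y v

theorem chr_ne_zero {L : Type*} [Field L] {μ : ι → L} (hμ : ∀ i, μ i ≠ 0) (a : ι → ℕ) :
    chr μ a ≠ 0 := Finset.prod_ne_zero_iff.mpr fun i _ => pow_ne_zero _ (hμ i)

theorem chr_const {L : Type*} [CommMonoid L] (c : L) (a : ι → ℕ) :
    chr (fun _ => c) a = c ^ ∑ i, a i := by
  rw [chr, Finset.prod_pow_eq_pow_sum]

theorem chr_mul {L : Type*} [CommMonoid L] (μ ν : ι → L) (a : ι → ℕ) :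
    chr (fun i => μ i * ν i) a = chr μ a * chr ν a := by
  simp only [chr, mul_pow, Finset.prod_mul_distrib]

theorem act_ne_zero {L : Type*} [Field L] {W : ι → σ → ℕ} {μ : ι → L} (hμ : ∀ i, μ i ≠ 0)
    {y : σ → L} {v : σ} (h : y v ≠ 0) : act W μ y v ≠ 0 := mul_ne_zero (chr_ne_zero hμ _) h

theorem eval₂_act {R L : Type*} [CommRing R] [CommRing L] {W : ι → σ → ℕ} {P : MvPolynomial σ R}
    {a : ι → ℕ} (hP : MH W P a) (φ : R →+* L) (μ : ι → L) (y : σ → L) :
    eval₂ φ (act W μ y) P = chr μ a * eval₂ φ y P := by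
  classical
  rw [eval₂_eq, eval₂_eq, Finset.mul_sum]
  apply Finset.sum_congr rfl
  intro m hm
  have hw : ∀ i, ∑ v ∈ m.support, W i v * m v = a i := by
    intro i
    have := hP i (mem_support_iff.mp hm)
    rw [Finsupp.weight_apply, Finsupp.sum] at this
    rw [← this]
    apply Finset.sum_congr rfl
    intro v _
    rw [smul_eq_mul, mul_comm]
  have h1 : ∏ v ∈ m.support, (act W μ y v) ^ m v =
      chr μ a * ∏ v ∈ m.support, y v ^ m v := by
    simp only [act, mul_pow, Finset.prod_mul_distrib]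
    congr 1
    simp only [chr]
    simp_rw [← Finset.prod_pow, ← pow_mul]
    rw [Finset.prod_comm]
    apply Finset.prod_congr rfl
    intro i _
    rw [Finset.prod_pow_eq_pow_sum, hw i]
  rw [h1]; ring

theorem MH.map {R S : Type*} [CommRing R] [CommRing S] {W : ι → σ → ℕ} {P : MvPolynomial σ R}
    {a : ι → ℕ} (hP : MH W P a) (f : R →+* S) : MH W (MvPolynomial.map f P) a := by
  intro i m hm
  apply hP i
  intro h0
  apply hm
  rw [coeff_map, h0, map_zero]

theorem MH.add {R : Type*} [CommRing R] {W : ι → σ → ℕ} {P Q : MvPolynomial σ R}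
    {a : ι → ℕ} (hP : MH W P a) (hQ : MH W Q a) : MH W (P + Q) a := by
  intro i m hm
  by_cases h : coeff m P = 0
  · apply hQ i
    intro h0
    apply hm
    rw [coeff_add, h, h0, add_zero]
  · exact hP i h

theorem MH.C_mul {R : Type*} [CommRing R] {W : ι → σ → ℕ} {P : MvPolynomial σ R}
    {a : ι → ℕ} (hP : MH W P a) (c : R) : MH W (C c * P) a := by
  intro i m hm
  apply hP i
  intro h0
  apply hm
  rw [coeff_C_mul, h0, mul_zero]

variable {τ : Type} {n : ℕ}

/-- Weights on the variables `(z, x)`. -/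
def WW (W : ι → τ → ℕ) (e : ι → ℕ) (n : ℕ) : ι → τ ⊕ Fin (n + 1) → ℕ :=
  fun i => Sum.elim (W i) (fun _ => e i)

theorem act_WW {L : Type*} [CommMonoid L] (W : ι → τ → ℕ) (e : ι → ℕ) (μ : ι → L) (z : τ → L)
    (x : Fin (n + 1) → L) :
    act (WW W e n) μ (Sum.elim z x) = Sum.elim (act W μ z) (fun l => chr μ e * x l) := by
  funext v
  rcases v with v | l
  · rfl
  · rfl

end action

section valuation

variable {ι : Type} [Fintype ι] {τ : Type} {n : ℕ}

/-- Integrality of `x`. -/
theorem integral_of_bad {L : Type u} [Field L] [IsAlgClosed L] (V : ValuationSubring L)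
    {W : ι → τ → ℕ} {e : ι → ℕ} (hW : ∀ v, 0 < ∑ i, W i v) (he : 0 < ∑ i, e i)
    (P : Fin (n + 1) → MvPolynomial (τ ⊕ Fin (n + 1)) V) {D : Fin (n + 1) → ι → ℕ}
    (hP : ∀ l, MH (WW W e n) (P l) (D l))
    (hbad : ∀ x : Fin (n + 1) → IsLocalRing.ResidueField V,
      (∀ l, eval₂ (IsLocalRing.residue V) (Sum.elim 0 x) (P l) = 0) → x = 0)
    (z : τ → V) (x : Fin (n + 1) → L)
    (h : ∀ l, eval₂ V.subtype (Sum.elim (fun v => (z v : L)) x) (P l) = 0) :
    ∀ l, x l ∈ V := by
  obtain ⟨l₀, hl₀⟩ := Finite.exists_max (fun l => V.valuation (x l))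
  by_cases h1 : V.valuation (x l₀) ≤ 1
  · intro l
    rw [← V.valuation_le_one_iff]
    exact (hl₀ l).trans h1
  exfalso
  rw [not_le] at h1
  have hx0 : x l₀ ≠ 0 := by
    intro h0
    rw [h0, map_zero] at h1
    exact absurd h1 (not_lt.mpr zero_le_one)
  obtain ⟨lam, hlam⟩ := IsAlgClosed.exists_pow_nat_eq (x l₀)⁻¹ he
  have hlam1 : V.valuation lam < 1 := by
    by_contra h2
    rw [not_lt] at h2
    have h3 : 1 ≤ V.valuation ((x l₀)⁻¹) := by
      rw [← hlam, map_pow]
      exact one_le_pow₀ h2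
    rw [map_inv₀, one_le_inv₀ (zero_lt_one.trans h1)] at h3
    exact absurd h1 (not_lt.mpr h3)
  have hlamV : lam ∈ V := (V.valuation_le_one_iff _).mp hlam1.le
  have hxV : ∀ l, (x l₀)⁻¹ * x l ∈ V := by
    intro l
    rw [← V.valuation_le_one_iff, map_mul, map_inv₀,
      inv_mul_le_iff₀ (zero_lt_one.trans h1), mul_one]
    exact hl₀ l
  -- the scaled point
  set zV : τ → V := fun v => (⟨lam, hlamV⟩ : V) ^ (∑ i, W i v) * z v with hzV
  set xV : Fin (n + 1) → V := fun l => ⟨_, hxV l⟩ with hxVdef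
  have hlamm : IsLocalRing.residue V (⟨lam, hlamV⟩ : V) = 0 := by
    rw [IsLocalRing.residue_eq_zero_iff]
    exact (V.valuation_lt_one_iff _).mpr hlam1
  have hzero : ∀ v, IsLocalRing.residue V (zV v) = 0 := by
    intro v
    rw [hzV, map_mul, map_pow, hlamm, zero_pow (hW v).ne', zero_mul]
  have hev : ∀ l, eval₂ (RingHom.id V) (Sum.elim zV xV) (P l) = 0 := by
    intro l
    apply V.subtype_injective
    rw [map_zero, hom_eval₂]
    have e1 : (fun i => V.subtype (Sum.elim zV xV i)) = act (WW W e n) (fun _ => lam)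
        (Sum.elim (fun v => (z v : L)) x) := by
      rw [act_WW]
      funext v
      rcases v with v | l'
      · simp [hzV, act, chr_const]
      · simp only [Sum.elim_inr, chr_const, hlam]
        rfl
    rw [RingHom.comp_id, e1, eval₂_act (hP l), h l, mul_zero]
  have h5 := hbad (fun l => IsLocalRing.residue V (xV l)) (by
    intro l
    have h6 := congrArg (IsLocalRing.residue V) (hev l)
    rw [map_zero, hom_eval₂] at h6
    rw [← h6]
    congr 1
    funext v
    rcases v with v | l'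
    · simp [hzero]
    · rfl)
  have h7 := congrFun h5 l₀
  have h8 : xV l₀ = 1 := by
    apply Subtype.ext
    simp only [hxVdef]
    exact inv_mul_cancel₀ hx0
  simp only [h8, map_one, Pi.zero_apply] at h7
  exact one_ne_zero h7

end valuation

section scaling

variable {s : ℕ} {τ : Type} [Finite τ]

theorem exists_scaling_aux {L : Type u} [Field L] [IsAlgClosed L] (V : ValuationSubring L)
    {grp : τ → Fin s} {W : Fin s → τ → ℕ} (hT : Tri grp W) {z : τ → L} (hz : Rel grp z)
    (m : ℕ) (hm : m ≤ s) :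
    ∃ μ : Fin s → L, (∀ i, μ i ≠ 0) ∧ (∀ v, (grp v : ℕ) < m → act W μ z v ∈ V) ∧
      ∀ i : Fin s, (i : ℕ) < m → ∃ v, grp v = i ∧ act W μ z v = 1 := by
  classical
  haveI := Fintype.ofFinite τ
  induction m with
  | zero => exact ⟨fun _ => 1, fun _ => one_ne_zero, fun v h => absurd h (Nat.not_lt_zero _),
      fun i h => absurd h (Nat.not_lt_zero _)⟩
  | succ m ih =>
    obtain ⟨μ, hμ0, hμ1, hμ2⟩ := ih (by omega)
    set i₀ : Fin s := ⟨m, by omega⟩ with hi₀
    -- the variables of the group `i₀`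
    obtain ⟨v₁, hv₁, hzv₁⟩ := hz i₀
    set N : ℕ := ∏ v : τ, W (grp v) v with hN
    have hNpos : ∀ v, ∃ c, 0 < c ∧ N = W (grp v) v * c := by
      intro v
      refine ⟨∏ v' ∈ Finset.univ.erase v, W (grp v') v', ?_, ?_⟩
      · exact Finset.prod_pos fun v' _ => hT.pos v'
      · rw [hN, ← Finset.mul_prod_erase _ _ (Finset.mem_univ v)]
    choose c hc0 hc using hNpos
    set G : Finset τ := Finset.univ.filter (fun v => grp v = i₀) with hG
    obtain ⟨v₀, hv₀, hmax⟩ := G.exists_max_image
      (fun v => V.valuation (act W μ z v) ^ c v) ⟨v₁, by simp [hG, hv₁]⟩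
    have hv₀' : grp v₀ = i₀ := by simpa [hG] using hv₀
    have hne : act W μ z v₀ ≠ 0 := by
      intro h0
      have h1 := hmax v₁ (by simp [hG, hv₁])
      simp only [h0, map_zero, zero_pow (hc0 v₀).ne'] at h1
      have h2 : act W μ z v₁ ≠ 0 := act_ne_zero hμ0 hzv₁
      have h3 : V.valuation (act W μ z v₁) ^ c v₁ ≠ 0 :=
        pow_ne_zero _ (by rwa [Ne, map_eq_zero])
      exact h3 (le_antisymm h1 zero_le)
    have hWpos : 0 < W i₀ v₀ := by rw [← hv₀']; exact hT.pos v₀
    obtain ⟨lam, hlam⟩ := IsAlgClosed.exists_pow_nat_eq (act W μ z v₀)⁻¹ hWpos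
    have hlam0 : lam ≠ 0 := by
      intro h0
      rw [h0, zero_pow hWpos.ne'] at hlam
      exact (inv_ne_zero hne) hlam.symm
    set ν : Fin s → L := fun i => if i = i₀ then lam else 1 with hν
    have hν0 : ∀ i, ν i ≠ 0 := by
      intro i
      simp only [hν]
      split_ifs
      · exact hlam0
      · exact one_ne_zero
    have hchrν : ∀ v, chr ν (fun i => W i v) = lam ^ W i₀ v := by
      intro v
      simp only [chr, hν]
      rw [Finset.prod_eq_single i₀]
      · simp
      · intro b _ hb; simp [hb]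
      · simp
    have hact : ∀ v, act W (fun i => μ i * ν i) z v = lam ^ W i₀ v * act W μ z v := by
      intro v
      simp only [act, chr_mul, hchrν]
      ring
    refine ⟨fun i => μ i * ν i, fun i => mul_ne_zero (hμ0 i) (hν0 i), ?_, ?_⟩
    · intro v hv
      rw [hact]
      by_cases h : (grp v : ℕ) < m
      · rw [hT.tri v i₀ (by rw [Fin.lt_def]; exact h), pow_zero, one_mul]
        exact hμ1 v h
      · have hgv : grp v = i₀ := by
          apply Fin.ext
          simp only [hi₀]; omega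
        rw [← V.valuation_le_one_iff]
        have h1 := hmax v (by simp [hG, hgv])
        have h2 : V.valuation (lam ^ W i₀ v * act W μ z v) ^ c v =
            V.valuation lam ^ N * V.valuation (act W μ z v) ^ c v := by
          rw [map_mul, map_pow, mul_pow, ← pow_mul, hc v, hgv]
        have h3 : V.valuation lam ^ N * V.valuation (act W μ z v₀) ^ c v₀ = 1 := by
          rw [hc v₀, hv₀', pow_mul, ← map_pow, hlam, ← mul_pow, ← map_mul,
            inv_mul_cancel₀ hne, map_one, one_pow]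
        have h4 : V.valuation (lam ^ W i₀ v * act W μ z v) ^ c v ≤ 1 := by
          rw [h2, ← h3]
          exact mul_le_mul_right h1 _
        by_contra h5
        rw [not_le] at h5
        exact absurd h4 (not_le.mpr (one_lt_pow₀ h5 (hc0 v).ne'))
    · intro i hi
      by_cases h : (i : ℕ) < m
      · obtain ⟨v, hv, hv1⟩ := hμ2 i h
        refine ⟨v, hv, ?_⟩
        rw [hact, hT.tri v i₀ (by rw [Fin.lt_def, hv]; exact h), pow_zero, one_mul, hv1]
      · have hii : i = i₀ := by
          apply Fin.ext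
          simp only [hi₀]; omega
        refine ⟨v₀, by rw [hv₀', hii], ?_⟩
        rw [hact, hlam, inv_mul_cancel₀ hne]

theorem exists_scaling {L : Type u} [Field L] [IsAlgClosed L] (V : ValuationSubring L)
    {grp : τ → Fin s} {W : Fin s → τ → ℕ} (hT : Tri grp W) {z : τ → L} (hz : Rel grp z) :
    ∃ μ : Fin s → L, (∀ i, μ i ≠ 0) ∧ (∀ v, act W μ z v ∈ V) ∧
      ∀ i : Fin s, ∃ v, grp v = i ∧ act W μ z v = 1 := by
  obtain ⟨μ, h0, h1, h2⟩ := exists_scaling_aux V hT hz s le_rfl
  exact ⟨μ, h0, fun v => h1 v (grp v).2, fun i => h2 i i.2⟩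

end scaling

section specialization

/-- Specialization of a point of an affine space, by the Nullstellensatz. -/
theorem exists_specialization {k0 κ Ω : Type u} [Field k0] [Field κ] [Field Ω] [IsAlgClosed Ω]
    [Algebra k0 κ] [Algebra k0 Ω] {s : Type} [Finite s] (a : s → κ) :
    ∃ b : s → Ω, ∀ P : MvPolynomial s k0, aeval a P = 0 → aeval b P = 0 := by
  set I := RingHom.ker (aeval a : MvPolynomial s k0 →ₐ[k0] κ) with hI
  have hIne : I ≠ ⊤ := RingHom.ker_ne_top _
  obtain ⟨M, hM, hIM⟩ := Ideal.exists_le_maximal I hIne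
  letI : Field (MvPolynomial s k0 ⧸ M) := Ideal.Quotient.field M
  haveI : Module.Finite k0 (MvPolynomial s k0 ⧸ M) :=
    finite_of_finite_type_of_isJacobsonRing k0 (MvPolynomial s k0 ⧸ M)
  let g : (MvPolynomial s k0 ⧸ M) →ₐ[k0] Ω := IsAlgClosed.lift
  refine ⟨fun i => g (Ideal.Quotient.mk M (X i)), ?_⟩
  intro P hP
  have h1 : P ∈ M := hIM (by rw [hI, RingHom.mem_ker]; exact hP)
  have h2 : aeval (fun i => g (Ideal.Quotient.mk M (X i))) P =
      g (Ideal.Quotient.mkₐ k0 M P) := by
    have : (aeval (fun i => g (Ideal.Quotient.mk M (X i))) : MvPolynomial s k0 →ₐ[k0] Ω) =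
        g.comp (Ideal.Quotient.mkₐ k0 M) := by
      apply MvPolynomial.algHom_ext
      intro i
      simp
    rw [this]; rfl
  rw [h2, Ideal.Quotient.mkₐ_eq_mk, Ideal.Quotient.eq_zero_iff_mem.mpr h1, map_zero]

end specialization

end Pool.Agent.LibDb3ab1
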