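import Pool.Agent.LibDb3ab1.Compact
import Pool.Agent.LibDb3ab1.Torus

/-!
# Certificates
-/

set_option autoImplicit false
set_option linter.unusedSectionVars false
set_option linter.style.haveILetI false

noncomputable section

namespace Pool.Agent.LibDb3ab1

open MvPolynomial

universe u

variable {K : Type u} [Field K] {O : ValuationSubring K} {p : ℕ} {n : ℕ}

/-- Clearing denominators of one polynomial. -/
theorem exists_integral_one {σ : Type} (H : MvPolynomial σ K) :
    ∃ (b : O) (H' : MvPolynomial σ O), b ≠ 0 ∧ map O.subtype H' = C (b : K) * H ∧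
      ∀ I, coeff I H = 0 → coeff I H' = 0 := by
  classical
  obtain ⟨b, hb⟩ := IsLocalization.exist_integer_multiples_of_finset (nonZeroDivisors O)
    (H.support.image (fun I => coeff I H) : Finset K)
  have hH : ∀ I ∈ H.support, IsLocalization.IsInteger O ((b : O) • coeff I H) :=
    fun I hI => hb _ (Finset.mem_image_of_mem _ hI)
  choose! c hc using hH
  refine ⟨b, ∑ I ∈ H.support, monomial I (c I), nonZeroDivisors.ne_zero b.2, ?_, ?_⟩
  · rw [map_sum]
    conv_rhs => rw [H.as_sum, Finset.mul_sum]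
    apply Finset.sum_congr rfl
    intro I hI
    rw [map_monomial, C_mul_monomial]
    congr 1
    exact hc I hI
  · intro I hI
    rw [coeff_sum]
    apply Finset.sum_eq_zero
    intro J hJ
    rw [coeff_monomial, if_neg]
    rintro rfl
    exact (mem_support_iff.mp hJ) hI

/-- Clearing denominators of a finite family with a common denominator. -/
theorem exists_integral_family {σ : Type} {α : Type} [Finite α] (H : α → MvPolynomial σ K) :
    ∃ (b : O) (H' : α → MvPolynomial σ O), b ≠ 0 ∧
      ∀ i, map O.subtype (H' i) = C (b : K) * H i ∧ ∀ I, coeff I (H i) = 0 →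
        coeff I (H' i) = 0 := by
  classical
  haveI := Fintype.ofFinite α
  choose b H' hb hH hc using fun i => exists_integral_one (O := O) (H i)
  refine ⟨∏ i, b i, fun i => C (∏ j ∈ Finset.univ.erase i, b j) * H' i,
    Finset.prod_ne_zero_iff.mpr fun i _ => hb i, fun i => ⟨?_, ?_⟩⟩
  · rw [map_mul, hH, map_C, ← mul_assoc, ← C_mul, ← Finset.mul_prod_erase Finset.univ b
      (Finset.mem_univ i)]
    congr 2
    rw [mul_comm (b i)]
    exact (map_mul O.subtype _ _).symm
  · intro I hI
    rw [coeff_C_mul, hc i I hI, mul_zero]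

/-- Clearing denominators in ideals. -/
theorem clear_span {σ : Type} (S : Set (MvPolynomial σ O)) (P : MvPolynomial σ K)
    (hP : P ∈ Ideal.span ((map O.subtype) '' S)) :
    ∃ b : O, b ≠ 0 ∧ ∃ P' ∈ Ideal.span S, map O.subtype P' = C (b : K) * P := by
  induction hP using Submodule.span_induction with
  | mem x hx =>
    obtain ⟨y, hy, rfl⟩ := hx
    exact ⟨1, one_ne_zero, y, Ideal.subset_span hy, by simp⟩
  | zero => exact ⟨1, one_ne_zero, 0, Ideal.zero_mem _, by simp⟩
  | add x y _ _ hx hy =>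
    obtain ⟨b, hb, P, hP, hP'⟩ := hx
    obtain ⟨c, hc, Q, hQ, hQ'⟩ := hy
    refine ⟨b * c, mul_ne_zero hb hc, C c * P + C b * Q,
      Ideal.add_mem _ (Ideal.mul_mem_left _ _ hP) (Ideal.mul_mem_left _ _ hQ), ?_⟩
    rw [map_add, map_mul, map_mul, map_C, map_C, hP', hQ']
    have h1 : ((b * c : O) : K) = (b : K) * (c : K) := rfl
    rw [h1, C_mul]
    change C (c : K) * (C (b : K) * x) + C (b : K) * (C (c : K) * y) = _
    ring
  | smul a x _ hx =>
    obtain ⟨b, hb, P, hP, hP'⟩ := hx
    obtain ⟨c, A, hc, hA, _⟩ := exists_integral_one (O := O) a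
    refine ⟨c * b, mul_ne_zero hc hb, A * P, Ideal.mul_mem_left _ _ hP, ?_⟩
    rw [map_mul, hA, hP']
    have h1 : ((c * b : O) : K) = (c : K) * (b : K) := rfl
    rw [h1, C_mul, smul_eq_mul]
    ring

/-- Nullstellensatz. -/
theorem nullstellensatz {σ : Type} [Finite σ] (S : Set (MvPolynomial σ K)) (P : MvPolynomial σ K)
    (h : ∀ z : σ → AlgebraicClosure K, (∀ Q ∈ S, aeval z Q = 0) → aeval z P = 0) :
    ∃ N : ℕ, P ^ N ∈ Ideal.span S := by
  have h1 : P ∈ (Ideal.span S).radical := by
    rw [← vanishingIdeal_zeroLocus_eq_radical (K := AlgebraicClosure K)]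
    intro z hz
    apply h
    intro Q hQ
    exact hz Q (Ideal.subset_span hQ)
  exact h1

/-- Integral certificate for the absence of common zeros. -/
theorem exists_certificate (hsep : ∀ a : O, a ≠ 0 → ∃ j : ℕ, a ∣ (p : O) ^ j) {σ : Type}
    [Finite σ] (S : Set (MvPolynomial σ O))
    (h : ∀ z : σ → AlgebraicClosure K,
      ¬∀ Q ∈ S, aeval z (map O.subtype Q) = 0) :
    ∃ c0 : ℕ, (p : MvPolynomial σ O) ^ c0 ∈ Ideal.span S := by
  obtain ⟨N, hN⟩ := nullstellensatz ((map O.subtype) '' S) (1 : MvPolynomial σ K) (by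
    intro z hz
    exact absurd (fun Q hQ => hz _ ⟨Q, hQ, rfl⟩) (h z))
  rw [one_pow] at hN
  obtain ⟨b, hb, P', hP', h1⟩ := clear_span S 1 hN
  obtain ⟨j, c, hc⟩ := hsep b hb
  refine ⟨j, ?_⟩
  have h2 : P' = C b := by
    apply map_injective O.subtype O.subtype_injective
    rw [h1, mul_one, map_C]
    rfl
  have h3 : (p : MvPolynomial σ O) ^ j = C c * P' := by
    rw [h2, ← C_mul, mul_comm c b, ← hc, map_pow, map_natCast]
  rw [h3]
  exact Ideal.mul_mem_left _ _ hP'

end Pool.Agent.LibDb3ab1
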