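import Pool.Agent.LibDb3ab1.Dim

/-!
# The closure of a point of a projective space, and its dimension
-/

set_option autoImplicit false
set_option linter.unusedSectionVars false
set_option linter.style.haveILetI false

noncomputable section

namespace Pool.Agent.LibDb3ab1

universe u

open MvPolynomial

variable {k E : Type u} [Field k] [Field E] {n : ℕ}

/-- The parametrisation of the line through `x`. -/
def psi (φ : k →+* E) (x : Fin (n + 1) → E) : MvPolynomial (Fin (n + 1)) k →+* Polynomial E :=
  MvPolynomial.eval₂Hom (Polynomial.C.comp φ) (fun l => Polynomial.C (x l) * Polynomial.X)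

/-- The homogeneous prime ideal of the closure of a point. -/
def ptIdeal (φ : k →+* E) (x : Fin (n + 1) → E) : Ideal (MvPolynomial (Fin (n + 1)) k) :=
  RingHom.ker (psi φ x)

instance (φ : k →+* E) (x : Fin (n + 1) → E) : (ptIdeal φ x).IsPrime := RingHom.ker_isPrime _

theorem psi_homogeneous (φ : k →+* E) (x : Fin (n + 1) → E) {f : MvPolynomial (Fin (n + 1)) k}
    {m : ℕ} (hf : f.IsHomogeneous m) :
    psi φ x f = Polynomial.C (MvPolynomial.eval₂ φ x f) * Polynomial.X ^ m := by
  classical
  rw [psi, coe_eval₂Hom, eval₂_eq, eval₂_eq, map_sum, Finset.sum_mul]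
  apply Finset.sum_congr rfl
  intro d hd
  have h1 := hf (mem_support_iff.mp hd)
  rw [Finsupp.weight_apply, Finsupp.sum] at h1
  simp only [Pi.one_apply, smul_eq_mul, mul_one] at h1
  simp only [mul_pow, Finset.prod_mul_distrib, RingHom.comp_apply, map_mul, map_prod, map_pow]
  rw [Finset.prod_pow_eq_pow_sum, h1]
  ring

theorem psi_coeff (φ : k →+* E) (x : Fin (n + 1) → E) (f : MvPolynomial (Fin (n + 1)) k)
    (m : ℕ) : (psi φ x f).coeff m = MvPolynomial.eval₂ φ x (homogeneousComponent m f) := by
  classical
  conv_lhs => rw [← sum_homogeneousComponent f]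
  rw [map_sum, Polynomial.finsetSum_coeff]
  have h1 : ∀ i ∈ Finset.range (f.totalDegree + 1),
      (psi φ x (homogeneousComponent i f)).coeff m =
        if i = m then MvPolynomial.eval₂ φ x (homogeneousComponent m f) else 0 := by
    intro i _
    rw [psi_homogeneous φ x (homogeneousComponent_isHomogeneous i f),
      Polynomial.coeff_C_mul_X_pow]
    by_cases h : i = m
    · subst h; simp
    · rw [if_neg h, if_neg (fun h' => h h'.symm)]
  rw [Finset.sum_congr rfl h1, Finset.sum_ite_eq']
  by_cases h : m ∈ Finset.range (f.totalDegree + 1)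
  · rw [if_pos h]
  · rw [if_neg h, homogeneousComponent_eq_zero]
    · simp
    · simpa [Nat.lt_succ_iff] using h

theorem mem_ptIdeal_iff (φ : k →+* E) (x : Fin (n + 1) → E) (f : MvPolynomial (Fin (n + 1)) k) :
    f ∈ ptIdeal φ x ↔ ∀ m, MvPolynomial.eval₂ φ x (homogeneousComponent m f) = 0 := by
  rw [ptIdeal, RingHom.mem_ker, Polynomial.ext_iff]
  simp only [psi_coeff, Polynomial.coeff_zero]

theorem ptIdeal_homogeneous (φ : k →+* E) (x : Fin (n + 1) → E) (f : MvPolynomial (Fin (n + 1)) k)
    (hf : f ∈ ptIdeal φ x) (m : ℕ) : homogeneousComponent m f ∈ ptIdeal φ x := by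
  rw [mem_ptIdeal_iff] at hf ⊢
  intro j
  rw [homogeneousComponent_of_mem (homogeneousComponent_mem m f)]
  by_cases h : j = m
  · subst h; simpa using hf j
  · rw [if_neg h]; simp

/-- Dimension of the closure of a point whose coordinates satisfy generic linear relations. -/
theorem ringKrullDim_ptIdeal [Algebra k E] {d : ℕ} {t : Fin d → E}
    (ht : IsTranscendenceBasis k t) {x : Fin (n + 1) → E} (hx : x ≠ 0)
    (hrel : ∀ i, ∑ l : Fin (n + 1), t i ^ (l : ℕ) * x l = 0) :
    ringKrullDim (MvPolynomial (Fin (n + 1)) k ⧸ ptIdeal (algebraMap k E) x) = (d + 1 : ℕ) := by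
  classical
  set ψ : MvPolynomial (Fin (n + 1)) k →ₐ[k] Polynomial E :=
    MvPolynomial.aeval (fun l => Polynomial.C (x l) * Polynomial.X) with hψ
  have hψ' : (psi (algebraMap k E) x) = ψ.toRingHom := by
    apply MvPolynomial.ringHom_ext
    · intro r
      simp only [psi, coe_eval₂Hom, eval₂_C, AlgHom.toRingHom_eq_coe, RingHom.coe_coe, hψ,
        algHom_C]
      rfl
    · intro i; simp [psi, hψ]
  set A : Subalgebra k (Polynomial E) := ψ.range with hA
  have h1 : ringKrullDim (MvPolynomial (Fin (n + 1)) k ⧸ ptIdeal (algebraMap k E) x) =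
      ringKrullDim A := by
    have e1 : ptIdeal (algebraMap k E) x = RingHom.ker ψ := by
      rw [ptIdeal, hψ']; rfl
    rw [e1]
    exact ringKrullDim_eq_of_ringEquiv (Ideal.quotientKerEquivRange ψ).toRingEquiv
  rw [h1]
  haveI : Algebra.FiniteType k A := Algebra.FiniteType.of_surjective ψ.rangeRestrict
    ψ.rangeRestrict_surjective
  apply ringKrullDim_eq_trdeg k A
  -- all of `E[X]` is algebraic over `A`
  have hxA : ∀ l, Polynomial.C (x l) * Polynomial.X ∈ A := fun l => ⟨X l, by simp [hψ]⟩
  set S := Subalgebra.algebraicClosure A (Polynomial E) with hS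
  have hmemA : ∀ a, a ∈ A → a ∈ S := by
    intro a ha
    rw [hS, Subalgebra.mem_algebraicClosure]
    exact isAlgebraic_algebraMap (⟨a, ha⟩ : A)
  obtain ⟨l0, hl0⟩ : ∃ l, x l ≠ 0 := by
    by_contra h
    apply hx
    funext l
    by_contra h2
    exact h ⟨l, h2⟩
  have ht' : ∀ i, Polynomial.C (t i) ∈ S := by
    intro i
    rw [hS, Subalgebra.mem_algebraicClosure]
    refine ⟨∑ l : Fin (n + 1), Polynomial.C (⟨_, hxA l⟩ : A) * Polynomial.X ^ (l : ℕ), ?_, ?_⟩
    · intro h0
      have h2 := congrArg (fun P => Polynomial.coeff P (l0 : ℕ)) h0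
      simp only [Polynomial.finsetSum_coeff, Polynomial.coeff_C_mul_X_pow,
        Polynomial.coeff_zero] at h2
      rw [Finset.sum_eq_single l0] at h2
      · rw [if_pos rfl] at h2
        have h3 := congrArg Subtype.val h2
        have h4 := congrArg (fun P => Polynomial.coeff P 1) h3
        simp at h4
        exact hl0 h4
      · intro b _ hb
        rw [if_neg]
        intro h3
        exact hb (Fin.ext h3.symm)
      · simp
    · rw [map_sum]
      have h2 : ∀ l : Fin (n + 1), Polynomial.aeval (Polynomial.C (t i))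
          (Polynomial.C (⟨_, hxA l⟩ : A) * Polynomial.X ^ (l : ℕ)) =
          Polynomial.C (t i ^ (l : ℕ) * x l) * (Polynomial.X : Polynomial E) := by
        intro l
        rw [map_mul, map_pow, Polynomial.aeval_X, Polynomial.aeval_C]
        change (Polynomial.C (x l) * Polynomial.X) * _ = _
        rw [map_mul, map_pow]; ring
      rw [Finset.sum_congr rfl (fun l _ => h2 l), ← Finset.sum_mul, ← map_sum, hrel i]
      simp
  -- `k(t)` part
  haveI hint := ht.isAlgebraic
  have hCE : ∀ e : E, Polynomial.C e ∈ S := by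
    intro e
    obtain ⟨P, hP0, hP⟩ := hint.isAlgebraic e
    have hadj : ∀ a ∈ Algebra.adjoin k (Set.range t), Polynomial.C a ∈ S := by
      intro a ha
      induction ha using Algebra.adjoin_induction with
      | mem a ha =>
        obtain ⟨i, rfl⟩ := ha
        exact ht' i
      | algebraMap r =>
        apply hmemA
        exact A.algebraMap_mem r
      | add a b _ _ iha ihb => rw [map_add]; exact S.add_mem iha ihb
      | mul a b _ _ iha ihb => rw [map_mul]; exact S.mul_mem iha ihb
    let g : Algebra.adjoin k (Set.range t) →+* S :=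
      { toFun := fun a => ⟨Polynomial.C a.1, hadj a.1 a.2⟩
        map_one' := by ext1; simp
        map_mul' := by intro a b; ext1; simp
        map_zero' := by ext1; simp
        map_add' := by intro a b; ext1; simp }
    have hg : Function.Injective g := by
      intro a b hab
      have := congrArg Subtype.val hab
      exact Subtype.ext (Polynomial.C_injective this)
    have h2 : IsAlgebraic S (Polynomial.C e) := by
      refine ⟨P.map g, (Polynomial.map_ne_zero_iff hg).mpr hP0, ?_⟩
      rw [Polynomial.aeval_def, Polynomial.eval₂_map]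
      have h3 : (algebraMap S (Polynomial E)).comp g = Polynomial.C.comp
          (algebraMap (Algebra.adjoin k (Set.range t)) E) := rfl
      rw [h3, ← Polynomial.hom_eval₂, ← Polynomial.aeval_def, hP, map_zero]
    have h3 : IsAlgebraic A (Polynomial.C e) := h2.restrictScalars A
    rw [hS, Subalgebra.mem_algebraicClosure]
    exact h3
  have hX : (Polynomial.X : Polynomial E) ∈ S := by
    have h2 : (Polynomial.X : Polynomial E) =
        Polynomial.C (x l0)⁻¹ * (Polynomial.C (x l0) * Polynomial.X) := by
      rw [← mul_assoc, ← map_mul, inv_mul_cancel₀ hl0, map_one, one_mul]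
    rw [h2]
    exact S.mul_mem (hCE _) (hmemA _ (hxA l0))
  haveI : Algebra.IsAlgebraic A (Polynomial E) := by
    constructor
    intro P
    rw [← Subalgebra.mem_algebraicClosure]
    induction P using Polynomial.induction_on' with
    | add p q hp hq => exact S.add_mem hp hq
    | monomial m a =>
      rw [← Polynomial.C_mul_X_pow_eq_monomial]
      exact S.mul_mem (hCE a) (S.pow_mem hX m)
  have h4 : Algebra.trdeg k A + Algebra.trdeg A (Polynomial E) = Algebra.trdeg k (Polynomial E) :=
    trdeg_add_eq k A
  rw [trdeg_eq_zero_iff.mpr this, add_zero] at h4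
  rw [h4]
  have h5 := trdeg_add_eq k E (A := Polynomial E)
  rw [← h5, Polynomial.trdeg_of_isDomain]
  have h6 := ht.lift_cardinalMk_eq_trdeg
  simp at h6
  rw [← h6]
  push_cast
  rfl

end Pool.Agent.LibDb3ab1
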