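import Pool.Agent.LibDb3ab1.Torus

/-!
# Existence of solutions by a homotopy argument
-/

set_option autoImplicit false
set_option linter.unusedSectionVars false
set_option linter.style.haveILetI false

noncomputable section

namespace Pool.Agent.LibDb3ab1

universe u

open MvPolynomial

section homotopy

variable {s : ℕ} {τ : Type} {n : ℕ}

/-- Index set of the affine coordinates in the chart where the variables `o i` are `1`. -/
abbrev Rho (grp : τ → Fin s) (o : Fin s → τ) (n : ℕ) : Type :=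
  {v : τ // v ≠ o (grp v)} ⊕ Fin (n + 1)

open Classical in
/-- The generic point of the chart. -/
def gen (grp : τ → Fin s) (o : Fin s → τ) (n : ℕ) (E : Type u) [Field E] :
    τ ⊕ Fin (n + 1) → MvPolynomial (Option (Rho grp o n)) E :=
  Sum.elim (fun v => if h : v = o (grp v) then 1 else X (some (Sum.inl ⟨v, h⟩)))
    (fun l => X (some (Sum.inr l)))

theorem origin_le {σ : Type} {E : Type u} [Field E] {Q : Ideal (MvPolynomial σ E)}
    (h : ∀ i, X i ∈ Q) : origin σ E ≤ Q := by
  intro f hf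
  rw [origin, RingHom.mem_ker] at hf
  have h1 : (Ideal.Quotient.mk Q) =
      ((Ideal.Quotient.mk Q).comp C).comp (MvPolynomial.eval (0 : σ → E)) := by
    apply MvPolynomial.ringHom_ext
    · intro r; simp
    · intro i
      simp only [RingHom.comp_apply, eval_X, Pi.zero_apply, map_zero]
      exact Ideal.Quotient.eq_zero_iff_mem.mpr (h i)
  rw [← Ideal.Quotient.eq_zero_iff_mem, h1, RingHom.comp_apply, hf, map_zero]

variable {grp : τ → Fin s} {o : Fin s → τ} {E : Type u} [Field E] [Finite τ]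

theorem homotopy1 (S T : Rho grp o n → MvPolynomial (τ ⊕ Fin (n + 1)) E)
    (hS : ∀ r, ∃ m, 0 < m ∧ eval₂ C (gen grp o n E) (S r) = X (some r) ^ m) :
    ∃ Q : Ideal (MvPolynomial (Option (Rho grp o n)) E), Q.IsPrime ∧
      (∀ r, eval₂ C (gen grp o n E) (S r) + X none * eval₂ C (gen grp o n E) (T r) ∈ Q) ∧
      ∀ P : Polynomial E, P ≠ 0 → Polynomial.eval₂ C (X none) P ∉ Q := by
  classical
  set H : Rho grp o n → MvPolynomial (Option (Rho grp o n)) E := fun r =>
    eval₂ C (gen grp o n E) (S r) + X none * eval₂ C (gen grp o n E) (T r) with hH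
  set I := Ideal.span (Set.range H) with hI
  have hIm : I ≤ origin (Option (Rho grp o n)) E := by
    rw [hI, Ideal.span_le]
    rintro _ ⟨r, rfl⟩
    obtain ⟨m, hm, hSm⟩ := hS r
    rw [SetLike.mem_coe, origin, RingHom.mem_ker]
    simp only [hH]
    rw [hSm, map_add, map_pow, map_mul, eval_X, eval_X, Pi.zero_apply, Pi.zero_apply,
      zero_pow hm.ne', zero_mul, add_zero]
  obtain ⟨Q, hQ, hQm⟩ := Ideal.exists_minimalPrimes_le hIm
  have hQp : Q.IsPrime := hQ.isPrime
  have hHQ : ∀ r, H r ∈ Q := fun r => hQ.1.2 (Ideal.subset_span ⟨r, rfl⟩)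
  have hheight : Q.height ≤ Nat.card (Rho grp o n) := by
    refine (Ideal.height_le_card_of_mem_minimalPrimes_span (Set.finite_range H) hQ).trans ?_
    have h1 : (Set.range H).ncard ≤ Nat.card (Rho grp o n) := by
      rw [← Set.image_univ, ← Set.ncard_univ]
      exact Set.ncard_image_le Set.finite_univ
    exact_mod_cast h1
  have heps : (X none : MvPolynomial (Option (Rho grp o n)) E) ∉ Q := by
    intro h0
    have h1 : origin (Option (Rho grp o n)) E ≤ Q := by
      apply origin_le
      intro i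
      rcases i with _ | r
      · exact h0
      · obtain ⟨m, hm, hSm⟩ := hS r
        have h2 := hHQ r
        simp only [hH] at h2
        rw [hSm] at h2
        have h3 : (X (some r) : MvPolynomial (Option (Rho grp o n)) E) ^ m ∈ Q := by
          have h4 : (X none : MvPolynomial (Option (Rho grp o n)) E) *
            eval₂ C (gen grp o n E) (T r) ∈ Q := Ideal.mul_mem_right _ _ h0
          have := Ideal.sub_mem _ h2 h4
          rwa [add_sub_cancel_right] at this
        exact hQp.mem_of_pow_mem m h3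
    have h2 : Q = origin (Option (Rho grp o n)) E := le_antisymm hQm h1
    rw [h2, height_origin] at hheight
    have h3 : Nat.card (Option (Rho grp o n)) = Nat.card (Rho grp o n) + 1 :=
      Finite.card_option
    rw [h3] at hheight
    have h4 : Nat.card (Rho grp o n) + 1 ≤ Nat.card (Rho grp o n) := by exact_mod_cast hheight
    omega
  refine ⟨Q, hQp, hHQ, ?_⟩
  intro P
  induction hd : P.natDegree using Nat.strong_induction_on generalizing P with
  | _ d ih =>
    intro hP0 hPQ
    have h1 := hQm hPQ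
    rw [origin, RingHom.mem_ker, Polynomial.hom_eval₂] at h1
    have h2 : ((MvPolynomial.eval (0 : Option (Rho grp o n) → E)).comp C) = RingHom.id E := by
      ext; simp
    rw [h2, eval_X, Pi.zero_apply] at h1
    have h3 : P.coeff 0 = 0 := by
      rw [Polynomial.coeff_zero_eq_eval_zero]
      exact h1
    have h4 : P = P.divX * Polynomial.X := by
      conv_lhs => rw [← Polynomial.divX_mul_X_add P, h3]
      simp
    have h5 : P.divX ≠ 0 := by
      intro h6
      rw [h6, zero_mul] at h4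
      exact hP0 h4
    rw [h4, Polynomial.eval₂_mul, Polynomial.eval₂_X] at hPQ
    have h6 : Polynomial.eval₂ C (X none) P.divX ∈ Q := (hQp.mem_or_mem hPQ).resolve_right heps
    refine ih P.divX.natDegree ?_ P.divX rfl h5 h6
    rw [Polynomial.natDegree_divX_eq_natDegree_tsub_one]
    have : P.natDegree ≠ 0 := by
      intro h7
      rw [Polynomial.eq_C_of_natDegree_eq_zero h7, h3] at hP0
      simp at hP0
    omega

theorem homotopy2 (ho : ∀ i, grp (o i) = i)
    (S T : Rho grp o n → MvPolynomial (τ ⊕ Fin (n + 1)) E)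
    (hS : ∀ r, ∃ m, 0 < m ∧ eval₂ C (gen grp o n E) (S r) = X (some r) ^ m) :
    ∃ (L : Type u) (_ : Field L) (_ : IsAlgClosed L) (φ : E →+* L) (V : ValuationSubring L)
      (η : L) (y : τ ⊕ Fin (n + 1) → L), (∀ c, φ c ∈ V) ∧ η ∈ V.nonunits ∧
      (∀ i, y (Sum.inl (o i)) = 1) ∧ ∀ r, eval₂ φ y (T r) + η * eval₂ φ y (S r) = 0 := by
  classical
  obtain ⟨Q, hQp, hQ1, hQ2⟩ := homotopy1 S T hS
  let B := MvPolynomial (Option (Rho grp o n)) E ⧸ Q
  let L := AlgebraicClosure (FractionRing B)
  let π : MvPolynomial (Option (Rho grp o n)) E →+* L :=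
    (algebraMap B L).comp (Ideal.Quotient.mk Q)
  have hinj : Function.Injective (algebraMap B L) := by
    rw [IsScalarTower.algebraMap_eq B (FractionRing B) L]
    exact (algebraMap (FractionRing B) L).injective.comp (IsFractionRing.injective B _)
  have hπ : ∀ f, π f = 0 ↔ f ∈ Q := by
    intro f
    change algebraMap B L (Ideal.Quotient.mk Q f) = 0 ↔ _
    rw [map_eq_zero_iff _ hinj, Ideal.Quotient.eq_zero_iff_mem]
  let φ : E →+* L := π.comp C
  set ε : L := π (X none) with hε
  have htr : ∀ P : Polynomial E, P ≠ 0 → Polynomial.eval₂ φ ε P ≠ 0 := by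
    intro P hP h0
    apply hQ2 P hP
    rw [← hπ, Polynomial.hom_eval₂]
    exact h0
  have hε0 : ε ≠ 0 := by
    have := htr Polynomial.X Polynomial.X_ne_zero
    rwa [Polynomial.eval₂_X] at this
  have htr' : ∀ P : Polynomial E, P ≠ 0 → Polynomial.eval₂ φ ε⁻¹ P ≠ 0 := by
    intro P hP
    letI : Invertible (ε⁻¹) := invertibleOfNonzero (inv_ne_zero hε0)
    have h1 := Polynomial.eval₂_reverse_mul_pow φ ε⁻¹ P
    rw [← h1, invOf_eq_inv, inv_inv]
    apply mul_ne_zero
    · apply htr
      rwa [Ne, Polynomial.reverse_eq_zero]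
    · exact pow_ne_zero _ (inv_ne_zero hε0)
  let A : Subring L := (Polynomial.eval₂RingHom φ ε⁻¹).range
  have hηA : ε⁻¹ ∈ A := ⟨Polynomial.X, by simp⟩
  let I : Ideal A := Ideal.span {⟨ε⁻¹, hηA⟩}
  have hI : I ≠ ⊤ := by
    intro htop
    rw [Ideal.eq_top_iff_one, Ideal.mem_span_singleton'] at htop
    obtain ⟨⟨a, g, hg⟩, ha⟩ := htop
    have h1 := congrArg Subtype.val ha
    simp only [Subring.coe_mul, Subring.coe_one] at h1
    rw [← hg] at h1
    apply htr' (g * Polynomial.X - 1)
    · intro h2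
      have := congrArg (fun P => Polynomial.coeff P 0) h2
      simp at this
    · rw [Polynomial.eval₂_sub, Polynomial.eval₂_mul, Polynomial.eval₂_X, Polynomial.eval₂_one,
        sub_eq_zero]
      exact h1
  obtain ⟨V, hAV, hIV⟩ := Ideal.image_subset_nonunits_valuationSubring I hI
  refine ⟨L, inferInstance, inferInstance, φ, V, ε⁻¹, fun v => π (gen grp o n E v), ?_, ?_, ?_, ?_⟩
  · intro c
    apply hAV
    exact ⟨Polynomial.C c, by simp⟩
  · apply hIV
    exact ⟨⟨ε⁻¹, hηA⟩, Ideal.mem_span_singleton_self _, rfl⟩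
  · intro i
    have : o i = o (grp (o i)) := by rw [ho i]
    simp only [gen, Sum.elim_inl]
    rw [dif_pos this, map_one]
  · intro r
    have h1 := (hπ _).mpr (hQ1 r)
    rw [map_add, map_mul, hom_eval₂, hom_eval₂] at h1
    have h2 : π.comp C = φ := rfl
    rw [h2, ← hε] at h1
    have h3 : ε * (eval₂ φ (fun v => π (gen grp o n E v)) (T r) +
        ε⁻¹ * eval₂ φ (fun v => π (gen grp o n E v)) (S r)) = 0 := by
      rw [mul_add, ← mul_assoc, mul_inv_cancel₀ hε0, one_mul, add_comm]
      exact h1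
    exact (mul_eq_zero.mp h3).resolve_left hε0

variable {W : Fin s → τ → ℕ} {e : Fin s → ℕ}

theorem Tri.sum_pos {τ : Type} {grp : τ → Fin s} {W : Fin s → τ → ℕ} (hT : Tri grp W) (v : τ) :
    0 < ∑ i, W i v :=
  Finset.sum_pos' (fun _ _ => Nat.zero_le _) ⟨grp v, Finset.mem_univ _, hT.pos v⟩

theorem homotopy3 (hT : Tri grp W) (he : 0 < ∑ i, e i) (ho : ∀ i, grp (o i) = i)
    (S T : Rho grp o n → MvPolynomial (τ ⊕ Fin (n + 1)) E) {D : Rho grp o n → Fin s → ℕ}
    (hSD : ∀ r, MH (WW W e n) (S r) (D r)) (hTD : ∀ r, MH (WW W e n) (T r) (D r))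
    (hS : ∀ r, ∃ m, 0 < m ∧ eval₂ C (gen grp o n E) (S r) = X (some r) ^ m)
    (hbad : ∀ (κ : Type u) [Field κ] (φ : E →+* κ) (x : Fin (n + 1) → κ),
      (∀ l, eval₂ φ (Sum.elim 0 x) (T (Sum.inr l)) = 0) → x = 0) :
    ∃ (κ : Type u) (_ : Field κ) (φ : E →+* κ) (z : τ → κ) (x : Fin (n + 1) → κ),
      Rel grp z ∧ ∀ r, eval₂ φ (Sum.elim z x) (T r) = 0 := by
  obtain ⟨L, _, _, φ, V, η, y, hφV, hη, hyo, hy⟩ := homotopy2 ho S T hS
  set z0 : τ → L := fun v => y (Sum.inl v) with hz0
  set x0 : Fin (n + 1) → L := fun l => y (Sum.inr l) with hx0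
  have hyy : y = Sum.elim z0 x0 := by
    funext v
    rcases v with v | l <;> rfl
  have hrel : Rel grp z0 := fun i => ⟨o i, ho i, by
    rw [hz0]; simp only [hyo]; exact one_ne_zero⟩
  obtain ⟨μ, hμ0, hμV, hμ1⟩ := exists_scaling V hT hrel
  set z1 := act W μ z0 with hz1
  set x1 : Fin (n + 1) → L := fun l => chr μ e * x0 l with hx1
  have heq : ∀ r, eval₂ φ (Sum.elim z1 x1) (T r) + η * eval₂ φ (Sum.elim z1 x1) (S r) = 0 := by
    intro r
    rw [hz1, hx1, ← act_WW, eval₂_act (hSD r), eval₂_act (hTD r), ← hyy]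
    have := hy r
    linear_combination chr μ (D r) * this
  have hηV : η ∈ V := V.nonunits_subset hη
  let φV : E →+* V := φ.codRestrict V.toSubring hφV
  let ηV : V := ⟨η, hηV⟩
  have hres : IsLocalRing.residue V ηV = 0 := by
    rw [IsLocalRing.residue_eq_zero_iff]
    rw [← V.coe_mem_nonunits_iff]
    exact hη
  let zV : τ → V := fun v => ⟨z1 v, hμV v⟩
  let P : Fin (n + 1) → MvPolynomial (τ ⊕ Fin (n + 1)) V := fun l =>
    MvPolynomial.map φV (T (Sum.inr l)) + C ηV * MvPolynomial.map φV (S (Sum.inr l))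
  have hcomp : V.subtype.comp φV = φ := rfl
  have hx1V : ∀ l, x1 l ∈ V := by
    apply integral_of_bad V (W := W) (e := e) (fun v => hT.sum_pos v) he P
      (D := fun l => D (Sum.inr l)) (fun l => ((hTD _).map _).add (((hSD _).map _).C_mul _))
      ?_ zV x1 ?_
    · intro x hx
      apply hbad _ ((IsLocalRing.residue V).comp φV) x
      intro l
      have h1 := hx l
      simp only [P] at h1
      rw [eval₂_add, eval₂_mul, eval₂_C, hres, zero_mul, add_zero, eval₂_map] at h1
      exact h1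
    · intro l
      simp only [P]
      rw [eval₂_add, eval₂_mul, eval₂_C, eval₂_map, eval₂_map, hcomp]
      exact heq (Sum.inr l)
  let xV : Fin (n + 1) → V := fun l => ⟨x1 l, hx1V l⟩
  have hev : ∀ r, eval₂ φV (Sum.elim zV xV) (T r) + ηV * eval₂ φV (Sum.elim zV xV) (S r) = 0 := by
    intro r
    apply V.subtype_injective
    rw [map_add, map_mul, map_zero, hom_eval₂, hom_eval₂, hcomp]
    have h1 : (fun i => V.subtype (Sum.elim zV xV i)) = Sum.elim z1 x1 := by
      funext v
      rcases v with v | l <;> rfl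
    rw [h1]
    exact heq r
  refine ⟨IsLocalRing.ResidueField V, inferInstance, (IsLocalRing.residue V).comp φV,
    fun v => IsLocalRing.residue V (zV v), fun l => IsLocalRing.residue V (xV l), ?_, ?_⟩
  · intro i
    obtain ⟨v, hv, hv1⟩ := hμ1 i
    refine ⟨v, hv, ?_⟩
    have h1 : zV v = 1 := Subtype.ext hv1
    change IsLocalRing.residue V (zV v) ≠ 0
    rw [h1, map_one]
    exact one_ne_zero
  · intro r
    have h1 := congrArg (IsLocalRing.residue V) (hev r)
    rw [map_add, map_mul, hres, zero_mul, add_zero, map_zero, hom_eval₂] at h1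
    rw [← h1]
    congr 1
    funext v
    rcases v with v | l <;> rfl

/-- Specialization of relevant solutions. -/
theorem specialize_solution {k0 κ Ω : Type u} [Field k0] [Field κ] [Field Ω] [IsAlgClosed Ω]
    (φ : k0 →+* κ) (ψ : k0 →+* Ω) {R : Type*} (T : R → MvPolynomial (τ ⊕ Fin (n + 1)) k0)
    {z : τ → κ} {x : Fin (n + 1) → κ} (hz : Rel grp z)
    (h : ∀ r, eval₂ φ (Sum.elim z x) (T r) = 0) :
    ∃ (z' : τ → Ω) (x' : Fin (n + 1) → Ω), Rel grp z' ∧
      ∀ r, eval₂ ψ (Sum.elim z' x') (T r) = 0 := by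
  letI := φ.toAlgebra
  letI := ψ.toAlgebra
  choose v hv1 hv2 using hz
  let a : (τ ⊕ Fin (n + 1)) ⊕ Fin s → κ := Sum.elim (Sum.elim z x) (fun i => (z (v i))⁻¹)
  obtain ⟨b, hb⟩ := exists_specialization (k0 := k0) (κ := κ) (Ω := Ω) a
  refine ⟨fun v => b (Sum.inl (Sum.inl v)), fun l => b (Sum.inl (Sum.inr l)), ?_, ?_⟩
  · intro i
    refine ⟨v i, hv1 i, ?_⟩
    have h1 := hb (X (Sum.inl (Sum.inl (v i))) * X (Sum.inr i) - 1) (by
      simp only [map_sub, map_mul, aeval_X, map_one, a, Sum.elim_inl, Sum.elim_inr]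
      rw [mul_inv_cancel₀ (hv2 i), sub_self])
    intro h0
    simp only [map_sub, map_mul, aeval_X, map_one] at h1
    simp only at h0
    rw [h0, zero_mul, zero_sub, neg_eq_zero] at h1
    exact one_ne_zero h1
  · intro r
    have h1 := hb (rename Sum.inl (T r)) (by
      rw [aeval_rename]
      exact h r)
    rw [aeval_rename] at h1
    rw [← h1, aeval_def]
    congr 1
    funext v
    rcases v with v | l <;> rfl

end homotopy

end Pool.Agent.LibDb3ab1
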