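import Pool.Agent.LibDb3ab1.Main

/-!
# Tilted approximation of images of complete intersections

`K` is a perfectoid field of characteristic zero with ring of integers `O` and residue
characteristic `p`: `O` is a valuation ring of rank one (`hrank`), `p`-adically complete, its value
group is not discrete (`hdense`), and the Frobenius is surjective on `O / p` (`hFrob`).

The variables `τ` are divided into `s` groups by `grp`, and `W i v` is the degree of the variable
`v` for the `i`-th grading; `Tri grp W` says that the group of variables `i` is the group of fibre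
coordinates of the `i`-th step of a tower of (weighted) projective bundles which are projectivisations
of sums of line bundles. The case `W i v = 1` for `grp v = i` and `W i v = 0` otherwise is that of the
product of `s` projective spaces. In this tower `P` the forms `F j` define a closed subscheme `Z`,
on which the forms `φ 0, ..., φ n`, all of multidegree `e`, have no common zero, so that they define
a morphism `φ : Z → ℙ^n`. The scheme `X ⊂ ℙ^n` is that of the homogeneous ideal `I`, and it is
assumed that `φ(Z) ⊂ X`. There are `dim P - d` forms `F j`, with `d = dim X`, and the bijection `β`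
between the variables other than the chosen variables `o i` (one in each group) and the forms `F j`
together with `d` copies of the multidegree `e` is such that each multidegree is that of a monomial
`v ^ (m v) * ∏ (o i) ^ (b v i)` with `m v > 0`; for a product of projective spaces, such `β`, `m`, `b`
exist exactly when the intersection number of the multidegrees is not zero.

Under these hypotheses the property asked for in the question holds for `X`.
-/

set_option autoImplicit false

noncomputable section

namespace Pool.Agent.LibDb3ab1.ImagesOfCompleteIntOld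

open MvPolynomial Pool.Agent.LibDb3ab1

universe u

theorem result {p : ℕ} [Fact p.Prime] {K : Type u} [Field K] [CharZero K]
    (O : ValuationSubring K) [Fact ¬IsUnit (p : O)] [IsAdicComplete (Ideal.span {(p : O)}) O]
    (hrank : ∀ x : O, ¬IsUnit x → ∃ k : ℕ, (p : O) ∣ x ^ k)
    (hdense : ∃ x : O, ¬IsUnit x ∧ ¬(p : O) ∣ x)
    (hFrob : Function.Surjective (frobenius (ModP O p) p))
    {s n d : ℕ} {τ : Type} [Finite τ] {grp : τ → Fin s} {W : Fin s → τ → ℕ} (hT : Tri grp W)
    {o : Fin s → τ} (ho : ∀ i, grp (o i) = i)
    {J : Type} (F : J → MvPolynomial τ K) {D : J → Fin s → ℕ} (hF : ∀ j, MH W (F j) (D j))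
    (φ : Fin (n + 1) → MvPolynomial τ K) {e : Fin s → ℕ} (hφ : ∀ l, MH W (φ l) e)
    (he : 0 < ∑ i, e i)
    (β : {v : τ // v ≠ o (grp v)} ≃ J ⊕ Fin d)
    {m : {v : τ // v ≠ o (grp v)} → ℕ} (hm : ∀ v, 0 < m v)
    {b : {v : τ // v ≠ o (grp v)} → Fin s → ℕ}
    (hmb : ∀ (v : {v : τ // v ≠ o (grp v)}) (i : Fin s),
      m v * W i v + ∑ i', b v i' * W i (o i') = Sum.elim D (fun _ => e) (β v) i)
    (hno : ∀ z : τ → AlgebraicClosure K, Rel grp z → (∀ j, aeval z (F j) = 0) →
      ∃ l, aeval z (φ l) ≠ 0)
    (I : Ideal (MvPolynomial (Fin (n + 1)) K))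
    (_hI : ∀ P ∈ I, ∀ k, homogeneousComponent k P ∈ I)
    (hX : ∀ z : τ → AlgebraicClosure K, Rel grp z → (∀ j, aeval z (F j) = 0) →
      ∀ P ∈ I, aeval (fun l => aeval z (φ l)) P = 0)
    (hdim : ringKrullDim (MvPolynomial (Fin (n + 1)) K ⧸ I) = (d + 1 : ℕ)) :
    TiltApprox p O I := by
  intro U hU hIU
  rw [hdim]
  exact main_K (Nat.cast_ne_zero.mpr (Fact.out : p.Prime).ne_zero) hrank hdense hFrob hT ho he F hF
    φ hφ β hm hmb I hno (fun z hz hFz P hP _ _ => hX z hz hFz P hP) U hU hIU

end Pool.Agent.LibDb3ab1.ImagesOfCompleteIntOld
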