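import Pool.Agent.LibDb3ab1.Assembly

/-!
# The main theorem
-/

set_option autoImplicit false
set_option linter.unusedSectionVars false
set_option linter.style.haveILetI false

noncomputable section

namespace Pool.Agent.LibDb3ab1

open MvPolynomial

universe u

section main

variable {K : Type u} [Field K] {O : ValuationSubring K} {p : ℕ} [Fact p.Prime]
  [Fact ¬IsUnit (p : O)] [IsAdicComplete (Ideal.span {(p : O)}) O]
variable {s d : ℕ} {τ : Type} {n : ℕ} [Finite τ]
variable {grp : τ → Fin s} {W : Fin s → τ → ℕ} {e : Fin s → ℕ} {J : Type} {o : Fin s → τ}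

theorem aeval_smul_homogeneous {L : Type*} [CommRing L] [Algebra K L] (c : L)
    (x : Fin (n + 1) → L) {P : MvPolynomial (Fin (n + 1)) K} {d : ℕ} (hP : P.IsHomogeneous d) :
    aeval (fun l => c * x l) P = c ^ d * aeval x P := by
  have h1 : MH (fun (_ : Fin 1) (_ : Fin (n + 1)) => 1) P (fun _ => d) := fun _ => hP
  have h2 := eval₂_act h1 (algebraMap K L) (fun _ => c) x
  have h3 : act (fun (_ : Fin 1) (_ : Fin (n + 1)) => 1) (fun _ => c) x = fun l => c * x l := by
    funext l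
    simp [act, chr]
  rw [h3] at h2
  rw [aeval_def, aeval_def, h2]
  simp [chr]

theorem main_K (hp0 : (p : K) ≠ 0) (hr : ∀ x : O, ¬IsUnit x → ∃ n : ℕ, (p : O) ∣ x ^ n)
    (hnd : ∃ x : O, ¬IsUnit x ∧ ¬(p : O) ∣ x)
    (hFrob : Function.Surjective (frobenius (ModP O p) p))
    (hT : Tri grp W) (ho : ∀ i, grp (o i) = i) (he : 0 < ∑ i, e i)
    (F : J → MvPolynomial τ K) {DF : J → Fin s → ℕ} (hF : ∀ j, MH W (F j) (DF j))
    (φ : Fin (n + 1) → MvPolynomial τ K) (hφ : ∀ l, MH W (φ l) e)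
    (β : {v : τ // v ≠ o (grp v)} ≃ J ⊕ Fin d)
    {m : {v : τ // v ≠ o (grp v)} → ℕ} (hm : ∀ v, 0 < m v)
    {b : {v : τ // v ≠ o (grp v)} → Fin s → ℕ}
    (hmb : ∀ (v : {v : τ // v ≠ o (grp v)}) (i : Fin s), m v * W i v + ∑ i', b v i' * W i (o i') =
      Sum.elim DF (fun _ => e) (β v) i)
    (I : Ideal (MvPolynomial (Fin (n + 1)) K))
    (hno : ∀ z : τ → AlgebraicClosure K, Rel grp z → (∀ j, aeval z (F j) = 0) →
      ∃ l, aeval z (φ l) ≠ 0)
    (hX : ∀ z : τ → AlgebraicClosure K, Rel grp z → (∀ j, aeval z (F j) = 0) →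
      ∀ P ∈ I, ∀ d, P.IsHomogeneous d → aeval (fun l => aeval z (φ l)) P = 0)
    (U : Set (AdicProj O n)) (hU : IsOpen U) (hIU : adicLocus O I ⊆ U) :
    ∃ 𝔓 : Ideal (MvPolynomial (Fin (n + 1)) (FractionRing (PreTilt O p))), 𝔓.IsPrime ∧
      (∀ F ∈ 𝔓, ∀ m, homogeneousComponent m F ∈ 𝔓) ∧
      ringKrullDim (MvPolynomial (Fin (n + 1)) (FractionRing (PreTilt O p)) ⧸ 𝔓) = (d + 1 : ℕ) ∧
      TiltInside p O 𝔓 U := by
  choose bF F' hbF hF'1 hF'2 using fun j => exists_integral_one (O := O) (F j)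
  obtain ⟨bφ, φ', hbφ, hφ'⟩ := exists_integral_family (O := O) φ
  have hne : ∀ c : O, c ≠ 0 → algebraMap K (AlgebraicClosure K) (c : K) ≠ 0 := by
    intro c hc h
    rw [map_eq_zero] at h
    exact hc (Subtype.ext h)
  have hev : ∀ (z : τ → AlgebraicClosure K) j, aeval z (map O.subtype (F' j)) =
      algebraMap K (AlgebraicClosure K) (bF j : K) * aeval z (F j) := by
    intro z j
    rw [hF'1, map_mul, aeval_C]
  have hevφ : ∀ (z : τ → AlgebraicClosure K) l, aeval z (map O.subtype (φ' l)) =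
      algebraMap K (AlgebraicClosure K) (bφ : K) * aeval z (φ l) := by
    intro z l
    rw [(hφ' l).1, map_mul, aeval_C]
  have hzero : ∀ (z : τ → AlgebraicClosure K), (∀ j, aeval z (map O.subtype (F' j)) = 0) →
      ∀ j, aeval z (F j) = 0 := by
    intro z hz j
    have h1 := hz j
    rw [hev] at h1
    exact (mul_eq_zero.mp h1).resolve_left (hne _ (hbF j))
  refine main_O hp0 hr hnd hFrob hT ho he F' (fun j => (hF j).of_support (hF'2 j)) φ'
    (fun l => (hφ l).of_support (hφ' l).2) β hm hmb I ?_ ?_ U hU hIU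
  · intro z hz hFz
    obtain ⟨l, hl⟩ := hno z hz (hzero z hFz)
    exact ⟨l, by rw [hevφ]; exact mul_ne_zero (hne _ hbφ) hl⟩
  · intro z hz hFz P hP d hd
    have h1 : (fun l => aeval z (map O.subtype (φ' l))) =
        fun l => algebraMap K (AlgebraicClosure K) (bφ : K) * aeval z (φ l) :=
      funext (hevφ z)
    rw [h1, aeval_smul_homogeneous _ _ hd, hX z hz (hzero z hFz) P hP d hd, mul_zero]

end main

end Pool.Agent.LibDb3ab1
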