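import Mathlib

/-!
# Perfect polynomial rings

`PP p R τ` is the perfection (perfect closure) of the polynomial ring in the variables `τ` over a
perfect ring `R` of characteristic `p`.
-/

set_option autoImplicit false
set_option linter.unusedSectionVars false
set_option linter.style.haveILetI false

noncomputable section

namespace Pool.Agent.LibDb3ab1

open WittVector

universe u v

/-- `p ^ k`-th root in a perfect ring of characteristic `p`. -/
def rt (p : ℕ) [Fact p.Prime] {L : Type*} [CommRing L] [CharP L p] [PerfectRing L p]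
    (k : ℕ) : L ≃+* L := (iterateFrobeniusEquiv L p k).symm

section rt

variable {p : ℕ} [Fact p.Prime] {L : Type*} [CommRing L] [CharP L p] [PerfectRing L p]
variable {M : Type*} [CommRing M] [CharP M p] [PerfectRing M p]

theorem rt_pow (k : ℕ) (x : L) : (rt p k x) ^ p ^ k = x := by
  have := (iterateFrobeniusEquiv L p k).apply_symm_apply x
  rwa [iterateFrobeniusEquiv_def] at this

theorem pow_inj (k : ℕ) {x y : L} (h : x ^ p ^ k = y ^ p ^ k) : x = y := by
  apply (iterateFrobeniusEquiv L p k).injective
  rw [iterateFrobeniusEquiv_def, iterateFrobeniusEquiv_def]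
  exact h

theorem rt_of_pow (k : ℕ) (x : L) : rt p k (x ^ p ^ k) = x := by
  apply pow_inj (p := p) k
  rw [rt_pow]

theorem eq_rt_iff (k : ℕ) (x y : L) : x = rt p k y ↔ x ^ p ^ k = y := by
  constructor
  · rintro rfl; exact rt_pow k y
  · rintro rfl; exact (rt_of_pow k x).symm

theorem map_rt (f : L →+* M) (k : ℕ) (x : L) : f (rt p k x) = rt p k (f x) := by
  rw [eq_rt_iff, ← map_pow, rt_pow]

theorem rt_rt (k l : ℕ) (x : L) : rt p k (rt p l x) = rt p (k + l) x := by
  rw [eq_rt_iff, pow_add, pow_mul, rt_pow, rt_pow]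

theorem rt_eq_pow {k l : ℕ} (h : k ≤ l) (x : L) : rt p k x = (rt p l x) ^ p ^ (l - k) := by
  symm
  rw [eq_rt_iff, ← pow_mul, ← pow_add, Nat.sub_add_cancel h, rt_pow]

@[simp] theorem rt_zero' (x : L) : rt p 0 x = x := by
  symm; rw [eq_rt_iff]; simp

end rt

variable (p : ℕ) [Fact p.Prime]
variable (R : Type u) [CommRing R] [CharP R p] [PerfectRing R p]

/-- The perfect polynomial ring in the variables `τ` over `R`. -/
abbrev PP (τ : Type) : Type u := PerfectClosure (MvPolynomial τ R) p

variable {R} {p}

section ev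

variable {τ : Type} {L : Type v} [CommRing L] [CharP L p] [PerfectRing L p]

/-- Evaluation of perfect polynomials. -/
def ev (φ : R →+* L) (y : τ → L) : PP p R τ →+* L :=
  PerfectClosure.lift (MvPolynomial τ R) p L (MvPolynomial.eval₂Hom φ y)

theorem ev_of (φ : R →+* L) (y : τ → L) (P : MvPolynomial τ R) :
    ev φ y (PerfectClosure.of _ p P) = MvPolynomial.eval₂ φ y P := by
  have := RingHom.congr_fun ((PerfectClosure.lift (MvPolynomial τ R) p L).symm_apply_apply
    (MvPolynomial.eval₂Hom φ y)) P
  exact this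

theorem exists_pow_eq_of (x : PP p R τ) :
    ∃ (k : ℕ) (P : MvPolynomial τ R), x ^ p ^ k = PerfectClosure.of _ p P := by
  refine PerfectClosure.induction_on x ?_
  rintro ⟨n, P⟩
  refine ⟨n, P, ?_⟩
  have := PerfectClosure.iterate_frobenius_mk (K := MvPolynomial τ R) (p := p) n P
  rw [← this, iterate_frobenius]

theorem hom_ext {f g : PP p R τ →+* L}
    (hC : ∀ r, f (PerfectClosure.of _ p (MvPolynomial.C r)) =
      g (PerfectClosure.of _ p (MvPolynomial.C r)))
    (hX : ∀ i, f (PerfectClosure.of _ p (MvPolynomial.X i)) =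
      g (PerfectClosure.of _ p (MvPolynomial.X i))) : f = g := by
  have h : f.comp (PerfectClosure.of _ p) = g.comp (PerfectClosure.of _ p) :=
    MvPolynomial.ringHom_ext hC hX
  ext x
  obtain ⟨k, P, hP⟩ := exists_pow_eq_of x
  apply pow_inj (p := p) k
  rw [← map_pow, ← map_pow, hP]
  exact RingHom.congr_fun h P

/-- Constants. -/
def cst (τ : Type) : R →+* PP p R τ := (PerfectClosure.of _ p).comp MvPolynomial.C

/-- Variables. -/
def var (i : τ) : PP p R τ := PerfectClosure.of _ p (MvPolynomial.X i)

@[simp] theorem ev_cst (φ : R →+* L) (y : τ → L) (r : R) : ev φ y (cst τ r) = φ r := by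
  simp [cst, ev_of]

@[simp] theorem ev_var (φ : R →+* L) (y : τ → L) (i : τ) : ev φ y (var i) = y i := by
  simp [var, ev_of]

theorem ev_unique (φ : R →+* L) (y : τ → L) (f : PP p R τ →+* L)
    (hC : ∀ r, f (cst τ r) = φ r) (hX : ∀ i, f (var i) = y i) : f = ev φ y := by
  apply hom_ext
  · intro r
    have := hC r
    have h2 := ev_cst φ y r
    simp only [cst, RingHom.comp_apply] at this h2
    rw [this, h2]
  · intro i
    have := hX i
    have h2 := ev_var φ y i
    simp only [var] at this h2
    rw [this, h2]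

theorem ev_comp {M : Type*} [CommRing M] [CharP M p] [PerfectRing M p] (f : L →+* M)
    (φ : R →+* L) (y : τ → L) : f.comp (ev φ y) = ev (f.comp φ) (fun i => f (y i)) := by
  apply ev_unique <;> simp

/-- Substitution of perfect polynomials in perfect polynomials. -/
def subst {τ' : Type} (z : τ → PP p R τ') : PP p R τ →+* PP p R τ' := ev (cst τ') z

theorem ev_subst {τ' : Type} (φ : R →+* L) (y : τ' → L) (z : τ → PP p R τ') :
    (ev φ y).comp (subst z) = ev φ (fun i => ev φ y (z i)) := by
  rw [subst, ev_comp]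
  congr 1
  ext r; simp

theorem ev_subst_apply {τ' : Type} (φ : R →+* L) (y : τ' → L) (z : τ → PP p R τ')
    (x : PP p R τ) : ev φ y (subst z x) = ev φ (fun i => ev φ y (z i)) x :=
  RingHom.congr_fun (ev_subst φ y z) x

@[simp] theorem subst_cst {τ' : Type} (z : τ → PP p R τ') (r : R) :
    subst z (cst τ r) = cst τ' r := by simp [subst]

@[simp] theorem subst_var {τ' : Type} (z : τ → PP p R τ') (i : τ) :
    subst z (var i) = z i := by simp [subst]

end ev

theorem of_injective [IsDomain R] (τ : Type) :
    Function.Injective (PerfectClosure.of (MvPolynomial τ R) p) := by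
  intro x y h
  rw [PerfectClosure.of_apply, PerfectClosure.of_apply, PerfectClosure.eq_iff] at h
  simpa using h

instance [IsDomain R] (τ : Type) : IsDomain (PP p R τ) := by
  haveI : Nontrivial (PP p R τ) := by
    refine ⟨⟨0, 1, ?_⟩⟩
    intro h
    have := of_injective (p := p) (R := R) τ (a₁ := 0) (a₂ := 1) (by simpa using h)
    exact zero_ne_one this
  haveI : NoZeroDivisors (PP p R τ) := by
    constructor
    intro a b hab
    obtain ⟨k, P, hP⟩ := exists_pow_eq_of a
    obtain ⟨l, Q, hQ⟩ := exists_pow_eq_of b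
    have h1 : a ^ p ^ (k + l) = PerfectClosure.of _ p (P ^ p ^ l) := by
      rw [pow_add, pow_mul, hP, map_pow]
    have h2 : b ^ p ^ (k + l) = PerfectClosure.of _ p (Q ^ p ^ k) := by
      rw [add_comm, pow_add, pow_mul, hQ, map_pow]
    have h3 : PerfectClosure.of (MvPolynomial τ R) p (P ^ p ^ l * Q ^ p ^ k) = 0 := by
      rw [map_mul, ← h1, ← h2, ← mul_pow, hab]
      exact zero_pow (pow_ne_zero _ (Fact.out : p.Prime).ne_zero)
    have h4 : P ^ p ^ l * Q ^ p ^ k = 0 :=
      of_injective (p := p) τ (by rw [h3, map_zero])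
    rcases mul_eq_zero.mp h4 with h | h
    · left
      apply pow_inj (p := p) (k + l)
      rw [h1, h, map_zero, zero_pow (pow_ne_zero _ (Fact.out : p.Prime).ne_zero)]
    · right
      apply pow_inj (p := p) (k + l)
      rw [h2, h, map_zero, zero_pow (pow_ne_zero _ (Fact.out : p.Prime).ne_zero)]
  exact NoZeroDivisors.to_isDomain _

end Pool.Agent.LibDb3ab1
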