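import Pool.Agent.TDA.Final

/-!
# Tilted approximation of totally degenerate abelian varieties

`K` is a perfectoid field of characteristic zero with ring of integers `O` and residue
characteristic `p`: `O` is a valuation ring of rank one (`hrank`), `p`-adically complete, its value
group is not discrete (`hdense`), and the Frobenius is surjective on `O / p` (`hfrob`). The closed
subscheme `X ⊂ ℙ^n_K` is that of the homogeneous ideal `I`, and its dimension is `g`.

The hypothesis `ThetaImage` says that over each algebraically closed, complete extension `C₁` of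
`K` with a valuation of rank one, there is a tuple `ThetaData` of theta functions

  `ψ_l(x) = ∑_{w ∈ ℤ^g} P_l(w) (∏ t_ij ^ (w_i w_j)) x^w`,  `l = 0, ..., n`,

with `P_l` periodic modulo `k`, with positive periods `t`, without common zeros on the analytic
torus of dimension `g`, whose image is contained in `X`. Over an algebraically closed field all
theta functions, of all polarisation types, for all lattices `Λ` in the torus `𝔾_m^g` are of this
form after a translation of `x`: so the hypothesis holds for all totally degenerate abelian
varieties of dimension `g` and all their embeddings in `ℙ^n`, and also for the images of finite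
morphisms from such varieties to `ℙ^n`.
-/

set_option autoImplicit false

noncomputable section

namespace Pool.Agent.LibDb3ab1.TotDegThm

open MvPolynomial Pool.Agent.LibDb3ab1 Pool.Agent.TDA

universe u

theorem result {p : ℕ} [Fact p.Prime] {K : Type u} [Field K] [CharZero K]
    (O : ValuationSubring K) [Fact ¬IsUnit (p : O)] [IsAdicComplete (Ideal.span {(p : O)}) O]
    (hrank : ∀ x : O, ¬IsUnit x → ∃ k : ℕ, (p : O) ∣ x ^ k)
    (hdense : ∃ x : O, ¬IsUnit x ∧ ¬(p : O) ∣ x)
    (hfrob : Function.Surjective (frobenius (ModP O p) p))
    {n g : ℕ} (I : Ideal (MvPolynomial (Fin (n + 1)) K))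
    (hI : ∀ P ∈ I, ∀ k, homogeneousComponent k P ∈ I)
    (hdim : ringKrullDim (MvPolynomial (Fin (n + 1)) K ⧸ I) = (g + 1 : ℕ))
    (hθ : ThetaImage p O I g) : TiltApprox p O I := by
  have hp0 : (p : O) ≠ 0 := by
    intro h
    have h1 := congrArg O.subtype h
    rw [map_natCast, map_zero] at h1
    exact (Nat.cast_ne_zero.mpr (Fact.out : p.Prime).ne_zero) h1
  obtain ⟨ϖ, u, hu, hϖ⟩ := exists_varpi hp0 hrank hdense hfrob
  exact main ⟨ϖ, u, hu, hϖ, Nat.cast_ne_zero.mpr (Fact.out : p.Prime).ne_zero, hrank, hfrob⟩
    I hI hdim hθ

end Pool.Agent.LibDb3ab1.TotDegThm
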